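import Mathlib

/-!
Permutation representations on functions, orthogonal complements and irreducible sections.
-/

namespace Pool.Agent.Helper255.PPart

open Module

attribute [local instance 10] Fintype.ofFinite

noncomputable section

universe u

/-! ### Irreducibility criteria -/

section irred

variable {k : Type*} [Field k] {G : Type*} [Group G] {M : Type*} [AddCommGroup M] [Module k M]

theorem isIrreducible_of (ρ : Representation k G M) [Nontrivial M]
    (h : ∀ U : Submodule k M, (∀ (g : G), ∀ w ∈ U, ρ g w ∈ U) → U = ⊥ ∨ U = ⊤) :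
    ρ.IsIrreducible := by
  have hbt : (⊥ : Submodule k M) ≠ ⊤ := bot_ne_top
  refine
    { exists_pair_ne := ⟨⊥, ⊤, fun h' => hbt (congrArg Subrepresentation.toSubmodule h')⟩
      eq_bot_or_eq_top := fun σ => ?_ }
  rcases h σ.toSubmodule (fun g w hw => σ.apply_mem_toSubmodule g hw) with h1 | h1
  · exact Or.inl (Subrepresentation.toSubmodule_injective h1)
  · exact Or.inr (Subrepresentation.toSubmodule_injective h1)

theorem eq_bot_or_eq_top_of_isIrreducible (ρ : Representation k G M) (hρ : ρ.IsIrreducible)
    (U : Submodule k M) (hU : ∀ (g : G), ∀ w ∈ U, ρ g w ∈ U) : U = ⊥ ∨ U = ⊤ := by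
  rcases hρ.eq_bot_or_eq_top ⟨U, fun g w hw => hU g w hw⟩ with h | h
  · exact Or.inl (congrArg Subrepresentation.toSubmodule h)
  · exact Or.inr (congrArg Subrepresentation.toSubmodule h)

theorem nontrivial_of_isIrreducible (ρ : Representation k G M) (hρ : ρ.IsIrreducible) :
    Nontrivial M := by
  by_contra hn
  rw [not_nontrivial_iff_subsingleton] at hn
  obtain ⟨a, b, hab⟩ := hρ.toNontrivial
  apply hab
  apply Subrepresentation.toSubmodule_injective
  exact Subsingleton.elim _ _

/-- Inflation along a surjective homomorphism preserves irreducibility. -/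
theorem isIrreducible_comp {G' : Type*} [Group G'] (π : G' →* G) (hπ : Function.Surjective π)
    (ρ : Representation k G M) (hρ : ρ.IsIrreducible) :
    Representation.IsIrreducible (MonoidHom.comp ρ π : Representation k G' M) := by
  have := nontrivial_of_isIrreducible ρ hρ
  refine isIrreducible_of _ fun U hU => eq_bot_or_eq_top_of_isIrreducible ρ hρ U fun g w hw => ?_
  obtain ⟨g', rfl⟩ := hπ g
  exact hU g' w hw

end irred

section quotient

variable {k : Type*} [Field k] {G : Type*} [Group G] {M : Type u} [AddCommGroup M] [Module k M]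

/-- An invariant section without intermediate invariant subspaces gives an irreducible
representation. -/
theorem exists_irreducible_section [FiniteDimensional k M] (ρ : Representation k G M)
    (S R : Submodule k M) (hS : ∀ (g : G), ∀ w ∈ S, ρ g w ∈ S) (hR : ∀ (g : G), ∀ w ∈ R, ρ g w ∈ R)
    (hRS : R < S)
    (hsimple : ∀ U : Submodule k M, (∀ (g : G), ∀ w ∈ U, ρ g w ∈ U) → R ≤ U → U ≤ S →
      U = R ∨ U = S) :
    ∃ (M' : Type u) (_ : AddCommGroup M') (_ : Module k M') (ρ' : Representation k G M'),
      FiniteDimensional k M' ∧ ρ'.IsIrreducible ∧ finrank k M' = finrank k S - finrank k R := by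
  set R' : Submodule k S := R.submoduleOf S with hR'
  have hmem : ∀ s : S, s ∈ R' ↔ (s : M) ∈ R := fun s => Iff.rfl
  let ρS : Representation k G S :=
    { toFun := fun g => (ρ g).restrict (hS g)
      map_one' := by ext; simp
      map_mul' := fun x y => by ext; simp }
  have hρS : ∀ g (s : S), ((ρS g s : S) : M) = ρ g s := fun g s => rfl
  have hR'' : ∀ g : G, R' ≤ R'.comap (ρS g) := by
    intro g s hs
    rw [Submodule.mem_comap, hmem, hρS]
    exact hR g _ ((hmem s).1 hs)
  let ρ' : Representation k G (S ⧸ R') :=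
    { toFun := fun g => Submodule.mapQ R' R' (ρS g) (hR'' g)
      map_one' := by
        ext s
        simp
      map_mul' := fun x y => by
        ext s
        simp }
  have hρ' : ∀ g (s : S), ρ' g (Submodule.Quotient.mk s) = Submodule.Quotient.mk (ρS g s) :=
    fun g s => rfl
  have hnt : Nontrivial (S ⧸ R') := by
    obtain ⟨x, hxS, hxR⟩ := SetLike.exists_of_lt hRS
    refine ⟨Submodule.Quotient.mk ⟨x, hxS⟩, 0, fun h => hxR ?_⟩
    rw [Submodule.Quotient.mk_eq_zero] at h
    exact h
  refine ⟨S ⧸ R', inferInstance, inferInstance, ρ', inferInstance, ?_, ?_⟩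
  · refine isIrreducible_of _ fun σ hσ => ?_
    set U : Submodule k M := (σ.comap R'.mkQ).map S.subtype with hUdef
    have hUmem : ∀ s : S, (s : M) ∈ U ↔ Submodule.Quotient.mk s ∈ σ := by
      intro s
      constructor
      · rintro ⟨s', hs', hss⟩
        have : s' = s := Subtype.ext hss
        rw [← this]
        exact hs'
      · intro h
        exact ⟨s, h, rfl⟩
    have hUS : U ≤ S := by
      rintro _ ⟨s', _, rfl⟩
      exact s'.2
    have hRU : R ≤ U := by
      intro x hx
      have hxS : x ∈ S := hRS.le hx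
      have : Submodule.Quotient.mk (⟨x, hxS⟩ : S) ∈ σ := by
        have h0 : (Submodule.Quotient.mk (⟨x, hxS⟩ : S) : S ⧸ R') = 0 := by
          rw [Submodule.Quotient.mk_eq_zero]
          exact hx
        rw [h0]
        exact σ.zero_mem
      exact (hUmem ⟨x, hxS⟩).2 this
    have hUinv : ∀ (g : G), ∀ w ∈ U, ρ g w ∈ U := by
      intro g w hw
      have hwS := hUS hw
      have h1 := (hUmem ⟨w, hwS⟩).1 hw
      have h2 := hσ g _ h1
      rw [hρ'] at h2
      exact (hUmem (ρS g ⟨w, hwS⟩)).2 h2
    rcases hsimple U hUinv hRU hUS with h | h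
    · left
      rw [Submodule.eq_bot_iff]
      intro x hx
      obtain ⟨s, rfl⟩ := Submodule.Quotient.mk_surjective R' x
      have := (hUmem s).2 hx
      rw [h] at this
      rw [Submodule.Quotient.mk_eq_zero]
      exact this
    · right
      rw [Submodule.eq_top_iff']
      intro x
      obtain ⟨s, rfl⟩ := Submodule.Quotient.mk_surjective R' x
      refine (hUmem s).1 ?_
      rw [h]
      exact s.2
  · have h1 := Submodule.finrank_quotient_add_finrank R'
    have h2 : finrank k R' = finrank k R :=
      LinearEquiv.finrank_eq (Submodule.submoduleOfEquivOfLe hRS.le)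
    omega

end quotient

/-! ### Permutation representations -/

section perm

variable (k : Type u) [Field k] (G : Type*) [Group G] (Ω : Type) [MulAction G Ω]

/-- The permutation representation on the space of functions. -/
def permRep : Representation k G (Ω → k) where
  toFun g :=
    { toFun := fun w ω => w (g⁻¹ • ω)
      map_add' := fun _ _ => rfl
      map_smul' := fun _ _ => rfl }
  map_one' := by
    ext w ω
    simp
  map_mul' g h := by
    ext w ω
    simp [mul_smul]

theorem permRep_apply (g : G) (w : Ω → k) (ω : Ω) : permRep k G Ω g w ω = w (g⁻¹ • ω) := rfl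

variable {k G Ω}

/-- Invariance of a space of functions. -/
def Invt (G : Type*) [Group G] [MulAction G Ω] (U : Submodule k (Ω → k)) : Prop :=
  ∀ (g : G), ∀ w ∈ U, (fun ω => w (g • ω)) ∈ U

theorem Invt_iff (U : Submodule k (Ω → k)) :
    Invt G U ↔ ∀ (g : G), ∀ w ∈ U, permRep k G Ω g w ∈ U := by
  constructor
  · intro h g w hw
    exact h g⁻¹ w hw
  · intro h g w hw
    have := h g⁻¹ w hw
    have h2 : permRep k G Ω g⁻¹ w = fun ω => w (g • ω) := by
      ext ω
      rw [permRep_apply, inv_inv]
    rwa [h2] at this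

variable [Finite Ω]

/-- The standard bilinear form. -/
def dotB (k : Type u) [Field k] (Ω : Type) [Finite Ω] : LinearMap.BilinForm k (Ω → k) := by
  classical
  exact Matrix.toBilin' (1 : Matrix Ω Ω k)

theorem dotB_apply (x y : Ω → k) : dotB k Ω x y = ∑ ω, x ω * y ω := by
  classical
  unfold dotB
  rw [Matrix.toBilin'_apply']
  simp [dotProduct]

theorem dotB_nondeg : (dotB k Ω).Nondegenerate := by
  classical
  unfold dotB
  exact LinearMap.BilinForm.nondegenerate_toBilin'_of_det_ne_zero' _ (by simp)

theorem dotB_refl : (dotB k Ω).IsRefl := by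
  intro x y h
  rw [dotB_apply] at h ⊢
  rw [← h]
  exact Finset.sum_congr rfl fun _ _ => mul_comm _ _

/-- The orthogonal complement. -/
def perp (U : Submodule k (Ω → k)) : Submodule k (Ω → k) := (dotB k Ω).orthogonal U

theorem mem_perp (U : Submodule k (Ω → k)) (w : Ω → k) :
    w ∈ perp U ↔ ∀ u ∈ U, ∑ ω, u ω * w ω = 0 := by
  unfold perp
  rw [LinearMap.BilinForm.mem_orthogonal_iff]
  refine forall₂_congr fun u _ => ?_
  rw [dotB_apply]

theorem perp_perp (U : Submodule k (Ω → k)) : perp (perp U) = U :=
  LinearMap.BilinForm.orthogonal_orthogonal dotB_nondeg dotB_refl U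

theorem perp_anti {U W : Submodule k (Ω → k)} (h : U ≤ W) : perp W ≤ perp U := by
  intro w hw
  rw [mem_perp] at hw ⊢
  exact fun u hu => hw u (h hu)

theorem finrank_perp (U : Submodule k (Ω → k)) :
    finrank k (perp U) = Fintype.card Ω - finrank k U := by
  unfold perp
  rw [LinearMap.BilinForm.finrank_orthogonal dotB_nondeg, Module.finrank_fintype_fun_eq_card]

theorem invt_perp {U : Submodule k (Ω → k)} (hU : Invt G U) : Invt G (perp U) := by
  intro g w hw
  rw [mem_perp] at hw ⊢
  intro u hu
  have h1 := hw _ (hU g⁻¹ u hu)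
  rw [← h1, ← Equiv.sum_comp (MulAction.toPerm g) (fun ω => u (g⁻¹ • ω) * w ω)]
  refine Finset.sum_congr rfl fun ω _ => ?_
  simp

omit [Finite Ω] in
theorem invt_sum_mem {U : Submodule k (Ω → k)} (hU : Invt G U) {ι : Type*} (s : Finset ι)
    (c : ι → k) (a : ι → G) {w : Ω → k} (hw : w ∈ U) :
    (fun ω => ∑ i ∈ s, c i * w (a i • ω)) ∈ U := by
  have h : (fun ω => ∑ i ∈ s, c i * w (a i • ω)) = ∑ i ∈ s, c i • (fun ω => w (a i • ω)) := by
    ext ω
    simp [Finset.sum_apply]
  rw [h]
  exact Submodule.sum_mem _ fun i _ => Submodule.smul_mem _ _ (hU (a i) w hw)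

/-- The main abstract theorem. -/
theorem exists_irreducible_of_key (W0 : Submodule k (Ω → k)) (hW0 : Invt G W0)
    (hkey : ∀ U : Submodule k (Ω → k), Invt G U → U ≤ W0 ∨ perp W0 ≤ U)
    (hne : finrank k (perp W0 ⊓ W0 : Submodule k (Ω → k)) < finrank k (perp W0)) :
    ∃ (M' : Type u) (_ : AddCommGroup M') (_ : Module k M') (ρ' : Representation k G M'),
      FiniteDimensional k M' ∧ ρ'.IsIrreducible ∧
        finrank k M' = finrank k (perp W0) - finrank k (perp W0 ⊓ W0 : Submodule k (Ω → k)) := by
  have hlt : perp W0 ⊓ W0 < perp W0 := by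
    refine lt_of_le_of_ne inf_le_left fun h => ?_
    rw [h] at hne
    exact lt_irrefl _ hne
  refine exists_irreducible_section (permRep k G Ω) (perp W0) (perp W0 ⊓ W0)
    ((Invt_iff _).1 (invt_perp hW0)) ?_ hlt ?_
  · intro g w hw
    exact ⟨(Invt_iff _).1 (invt_perp hW0) g w hw.1, (Invt_iff _).1 hW0 g w hw.2⟩
  · intro U hU hRU hUS
    rcases hkey U ((Invt_iff U).2 hU) with h | h
    · exact Or.inl (le_antisymm (le_inf hUS h) hRU)
    · exact Or.inr (le_antisymm hUS h)

/-- If two functions are supported on (resp. multiply to a constant on) an injectively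
parametrised set and are orthogonal, then the constant vanishes. -/
theorem orth_eval {ι : Type*} [Finite ι] (emb : ι → Ω) (hemb : Function.Injective emb)
    (hι : (Nat.card ι : k) ≠ 0) (y y' : Ω → k) (hsupp : ∀ ω, y ω ≠ 0 → ∃ i, emb i = ω)
    (c : k) (hc : ∀ i, y (emb i) * y' (emb i) = c) (hort : ∑ ω, y ω * y' ω = 0) : c = 0 := by
  classical
  have h1 : ∑ ω, y ω * y' ω = ∑ i : ι, y (emb i) * y' (emb i) := by
    rw [← Finset.sum_subset (Finset.subset_univ (Finset.univ.image emb)),
      Finset.sum_image fun i _ j _ h => hemb h]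
    intro ω _ hω
    by_cases hy : y ω = 0
    · rw [hy, zero_mul]
    · obtain ⟨i, rfl⟩ := hsupp ω hy
      exact absurd (Finset.mem_image_of_mem emb (Finset.mem_univ i)) hω
  rw [h1, Finset.sum_congr rfl fun i _ => hc i, Finset.sum_const, Finset.card_univ,
    nsmul_eq_mul, ← Nat.card_eq_fintype_card] at hort
  exact (mul_eq_zero.1 hort).resolve_left hι

end perm

end

end Pool.Agent.Helper255.PPart
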