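import Pool.Agent.Helper255.PPart.GenLines2
import Pool.Agent.Helper255.PPart.Perm

/-!
Averaging over groups of transvections; transitivity of the general linear group on dual systems.
-/

namespace Pool.Agent.Helper255.PPart

open Module

attribute [local instance 10] Fintype.ofFinite

noncomputable section

universe u

variable {q : ℕ} [Fact q.Prime] {k : Type u} [Field k]
variable {V : Type} [AddCommGroup V] [Module (ZMod q) V] [Finite V]

instance instFiniteAut : Finite (V ≃ₗ[ZMod q] V) := DFunLike.finite _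

/-- The transvection `x ↦ x + f x • h` with `f h = 0`. -/
def tv (f : Dual (ZMod q) V) (h : V) (hf : f h = 0) : V ≃ₗ[ZMod q] V :=
  LinearEquiv.transvection (f := f) (v := h) hf

theorem tv_apply (f : Dual (ZMod q) V) (h : V) (hf : f h = 0) (x : V) :
    tv f h hf x = x + f x • h := rfl

/-- Twisted average. -/
def avg (ζ : AddChar (ZMod q) k) (f0 f1 φ ψ : Dual (ZMod q) V) {Ω : Type}
    [MulAction (V ≃ₗ[ZMod q] V) Ω] (w : Ω → k) (ω : Ω) : k :=
  ∑ κ : ↥(LinearMap.ker f0 ⊓ LinearMap.ker f1 ⊓ LinearMap.ker φ), ∑ h : ↥(LinearMap.ker f0),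
    ζ (f1 h) * ζ (ψ κ) * w (tv f0 (h : V) (LinearMap.mem_ker.1 h.2) •
      (tv φ (κ : V) (LinearMap.mem_ker.1 κ.2.2) • ω))

variable {Ω : Type} [MulAction (V ≃ₗ[ZMod q] V) Ω]

theorem avg_mem (ζ : AddChar (ZMod q) k) (f0 f1 φ ψ : Dual (ZMod q) V)
    {U : Submodule k (Ω → k)} (hU : Invt (V ≃ₗ[ZMod q] V) U) {w : Ω → k} (hw : w ∈ U) :
    avg ζ f0 f1 φ ψ w ∈ U := by
  have h := invt_sum_mem hU (ι := ↥(LinearMap.ker f0 ⊓ LinearMap.ker f1 ⊓ LinearMap.ker φ) ×
    ↥(LinearMap.ker f0)) (Finset.univ ×ˢ Finset.univ) (fun i => ζ (f1 i.2) * ζ (ψ i.1))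
    (fun i => tv f0 (i.2 : V) (LinearMap.mem_ker.1 i.2.2) *
      tv φ (i.1 : V) (LinearMap.mem_ker.1 i.1.2.2)) hw
  convert h using 1
  ext ω
  unfold avg
  rw [Finset.sum_product]
  simp only [mul_smul]

theorem tv_mul (f : Dual (ZMod q) V) (h h' : V) (hf : f h = 0) (hf' : f h' = 0) (ω : Ω) :
    tv f h hf • (tv f h' hf' • ω) = tv f (h + h') (by rw [map_add, hf, hf', add_zero]) • ω := by
  rw [← mul_smul]
  congr 1
  ext x
  rw [LinearEquiv.mul_apply, tv_apply, tv_apply, tv_apply]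
  simp [hf', smul_add]
  abel

theorem tv_comm (f0 φ : Dual (ZMod q) V) (h κ : V) (hf : f0 h = 0) (hκ : φ κ = 0) (hκ0 : f0 κ = 0)
    (ω : Ω) : tv φ κ hκ • (tv f0 h hf • ω) =
      tv f0 (h + φ h • κ) (by rw [map_add, map_smul, hf, hκ0, smul_zero, add_zero]) •
        (tv φ κ hκ • ω) := by
  rw [← mul_smul, ← mul_smul]
  congr 1
  ext x
  rw [LinearEquiv.mul_apply, LinearEquiv.mul_apply, tv_apply, tv_apply, tv_apply, tv_apply]
  simp only [map_add, map_smul, hκ0, smul_add, add_smul, smul_smul, smul_eq_mul, mul_zero, add_zero]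
  abel

theorem avg_tv (ζ : AddChar (ZMod q) k) (f0 f1 φ ψ : Dual (ZMod q) V) (w : Ω → k) (ω : Ω)
    (h' : V) (hh' : f0 h' = 0) :
    avg ζ f0 f1 φ ψ w (tv f0 h' hh' • ω) = ζ (-(f1 h')) * avg ζ f0 f1 φ ψ w ω := by
  unfold avg
  rw [Finset.mul_sum]
  refine Finset.sum_congr rfl fun κ _ => ?_
  have hκ0 : f0 κ = 0 := LinearMap.mem_ker.1 κ.2.1.1
  have hκ1 : f1 κ = 0 := LinearMap.mem_ker.1 κ.2.1.2
  have hκφ : φ κ = 0 := LinearMap.mem_ker.1 κ.2.2
  set h'' : V := h' + φ h' • (κ : V) with hh''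
  have hf'' : f0 h'' = 0 := by
    rw [hh'', map_add, map_smul, hh', hκ0, smul_zero, add_zero]
  have hf1'' : f1 h'' = f1 h' := by
    rw [hh'', map_add, map_smul, hκ1, smul_zero, add_zero]
  rw [Finset.mul_sum, ← Equiv.sum_comp (Equiv.subRight (⟨h'', LinearMap.mem_ker.2 hf''⟩ :
    ↥(LinearMap.ker f0)))]
  refine Finset.sum_congr rfl fun h _ => ?_
  rw [tv_comm f0 φ h' κ hh' hκφ hκ0, tv_mul]
  have e1 : ((Equiv.subRight (⟨h'', LinearMap.mem_ker.2 hf''⟩ : ↥(LinearMap.ker f0)) h :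
      ↥(LinearMap.ker f0)) : V) = h - h'' := rfl
  have e2 : ζ (f1 ((Equiv.subRight (⟨h'', LinearMap.mem_ker.2 hf''⟩ : ↥(LinearMap.ker f0)) h :
      ↥(LinearMap.ker f0)) : V)) = ζ (-(f1 h')) * ζ (f1 h) := by
    rw [e1, map_sub, hf1'', sub_eq_neg_add, AddChar.map_add_eq_mul]
  rw [e2]
  have e3 : ∀ (a b : V) (ha : f0 a = 0) (hb : f0 b = 0), a = b → tv f0 a ha = tv f0 b hb := by
    intro a b ha hb hab
    subst hab
    rfl
  rw [e3 _ (h : V) _ (LinearMap.mem_ker.1 h.2) (by rw [e1, hh'']; abel)]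
  ring

theorem avg_cv (ζ : AddChar (ZMod q) k) (f0 f1 φ ψ : Dual (ZMod q) V) (w : Ω → k) (ω : Ω)
    (κ' : V) (h0 : f0 κ' = 0) (h1 : f1 κ' = 0) (h2 : φ κ' = 0) :
    avg ζ f0 f1 φ ψ w (tv φ κ' h2 • ω) = ζ (-(ψ κ')) * avg ζ f0 f1 φ ψ w ω := by
  unfold avg
  rw [Finset.mul_sum]
  set K : ↥(LinearMap.ker f0 ⊓ LinearMap.ker f1 ⊓ LinearMap.ker φ) :=
    ⟨κ', ⟨⟨LinearMap.mem_ker.2 h0, LinearMap.mem_ker.2 h1⟩, LinearMap.mem_ker.2 h2⟩⟩ with hK
  rw [← Equiv.sum_comp (Equiv.subRight K)]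
  refine Finset.sum_congr rfl fun κ _ => ?_
  have e1 : ((Equiv.subRight K κ : ↥(LinearMap.ker f0 ⊓ LinearMap.ker f1 ⊓ LinearMap.ker φ)) : V)
      = κ - κ' := rfl
  have e2 : ζ (ψ ((Equiv.subRight K κ :
      ↥(LinearMap.ker f0 ⊓ LinearMap.ker f1 ⊓ LinearMap.ker φ)) : V)) = ζ (-(ψ κ')) * ζ (ψ κ) := by
    rw [e1, map_sub, sub_eq_neg_add, AddChar.map_add_eq_mul]
  have e3 : ∀ (a b : V) (ha : φ a = 0) (hb : φ b = 0), a = b → tv φ a ha = tv φ b hb := by
    intro a b ha hb hab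
    subst hab
    rfl
  rw [Finset.mul_sum]
  refine Finset.sum_congr rfl fun h _ => ?_
  rw [e2, tv_mul, e3 _ (κ : V) _ (LinearMap.mem_ker.1 κ.2.2) (by rw [e1]; abel)]
  ring

/-! ### Dual systems -/

theorem DualSys.proj_mem {m : ℕ} {f : Fin m → Dual (ZMod q) V} {v : Fin m → V} (h : DualSys f v)
    (x : V) (i : Fin m) : f i (x - ∑ j, f j x • v j) = 0 := by
  rw [map_sub, map_sum]
  simp [h i _]

theorem exists_aut_of_dualSys {m : ℕ} {f f' : Fin m → Dual (ZMod q) V} {v v' : Fin m → V}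
    (h : DualSys f v) (h' : DualSys f' v') : ∃ g : V ≃ₗ[ZMod q] V, (∀ i, g (v i) = v' i) ∧
      ∀ i x, f' i (g x) = f i x := by
  classical
  -- the common kernels
  have hrank : ∀ (F : Fin m → Dual (ZMod q) V) (u : Fin m → V), DualSys F u →
      m + finrank (ZMod q) (LinearMap.ker (LinearMap.pi F)) = finrank (ZMod q) V := by
    intro F u hFu
    have h1 := LinearMap.finrank_range_add_finrank_ker (LinearMap.pi F)
    have h2 : LinearMap.range (LinearMap.pi F) = ⊤ := by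
      rw [LinearMap.range_eq_top]
      intro c
      refine ⟨∑ j, c j • u j, ?_⟩
      ext i
      simp [hFu i _]
    rw [h2, finrank_top, Module.finrank_fintype_fun_eq_card, Fintype.card_fin] at h1
    exact h1
  have hr1 := hrank f v h
  have hr2 := hrank f' v' h'
  have hr : finrank (ZMod q) (LinearMap.ker (LinearMap.pi f)) =
      finrank (ZMod q) (LinearMap.ker (LinearMap.pi f')) := by omega
  let e := LinearEquiv.ofFinrankEq _ _ hr
  have hmem : ∀ (F : Fin m → Dual (ZMod q) V) (u : Fin m → V), DualSys F u → ∀ x,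
      (LinearMap.id - ∑ j, (F j).smulRight (u j) : V →ₗ[ZMod q] V) x ∈ LinearMap.ker (LinearMap.pi F) := by
    intro F u hFu x
    rw [LinearMap.mem_ker]
    ext i
    have := hFu.proj_mem x i
    simpa using this
  let P := (LinearMap.id - ∑ j, (f j).smulRight (v j) : V →ₗ[ZMod q] V).codRestrict _ (hmem f v h)
  let P' := (LinearMap.id - ∑ j, (f' j).smulRight (v' j) : V →ₗ[ZMod q] V).codRestrict _ (hmem f' v' h')
  have hP : ∀ x, ((P x : LinearMap.ker (LinearMap.pi f)) : V) = x - ∑ j, f j x • v j := by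
    intro x
    simp [P]
  have hP' : ∀ x, ((P' x : LinearMap.ker (LinearMap.pi f')) : V) = x - ∑ j, f' j x • v' j := by
    intro x
    simp [P']
  have hker : ∀ (F : Fin m → Dual (ZMod q) V) (y : LinearMap.ker (LinearMap.pi F)) (i : Fin m),
      F i y = 0 := by
    intro F y i
    have := LinearMap.mem_ker.1 y.2
    exact congrFun this i
  let gf : V →ₗ[ZMod q] V := ∑ j, (f j).smulRight (v' j) +
    (LinearMap.ker (LinearMap.pi f')).subtype ∘ₗ (e : _ →ₗ[ZMod q] _) ∘ₗ P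
  let gb : V →ₗ[ZMod q] V := ∑ j, (f' j).smulRight (v j) +
    (LinearMap.ker (LinearMap.pi f)).subtype ∘ₗ (e.symm : _ →ₗ[ZMod q] _) ∘ₗ P'
  have hgf : ∀ x, gf x = ∑ j, f j x • v' j + ((e (P x) : LinearMap.ker (LinearMap.pi f')) : V) := by
    intro x
    simp [gf]
  have hgb : ∀ x, gb x = ∑ j, f' j x • v j + ((e.symm (P' x) : LinearMap.ker (LinearMap.pi f)) : V) := by
    intro x
    simp [gb]
  have h1 : ∀ i x, f' i (gf x) = f i x := by
    intro i x
    rw [hgf, map_add, hker f', add_zero, map_sum]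
    simp [h' i _]
  have h2 : ∀ i x, f i (gb x) = f' i x := by
    intro i x
    rw [hgb, map_add, hker f, add_zero, map_sum]
    simp [h i _]
  have h3 : ∀ x, gb (gf x) = x := by
    intro x
    rw [hgb]
    have h4 : P' (gf x) = e (P x) := by
      ext
      rw [hP']
      simp only [h1]
      rw [hgf]
      abel
    rw [h4, LinearEquiv.symm_apply_apply, hP]
    simp only [h1]
    abel
  have h3' : ∀ x, gf (gb x) = x := by
    intro x
    rw [hgf]
    have h4 : P (gb x) = e.symm (P' x) := by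
      ext
      rw [hP]
      simp only [h2]
      rw [hgb]
      abel
    rw [h4, LinearEquiv.apply_symm_apply, hP']
    simp only [h2]
    abel
  refine ⟨LinearEquiv.ofLinearMap gf gb (LinearMap.ext h3') (LinearMap.ext h3), ?_, fun i x => h1 i x⟩
  intro i
  rw [LinearEquiv.coe_ofLinearMap, hgf]
  have h5 : P (v i) = 0 := by
    ext
    rw [hP]
    simp [h _ i]
  rw [h5, map_zero]
  simp [h _ i]

/-- Transport of the functional `L`. -/
theorem Lline_transport (ζ : AddChar (ZMod q) k) (f0 f1 φ ψ f0' f1' φ' ψ' : Dual (ZMod q) V)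
    (v0 v2 v0' v2' : V) (g : V ≃ₗ[ZMod q] V) (h0 : ∀ x, f0' (g x) = f0 x)
    (h1 : ∀ x, f1' (g x) = f1 x) (hφ : ∀ x, φ' (g x) = φ x) (hψ : ∀ x, ψ' (g x) = ψ x)
    (hv0 : g v0 = v0') (hv2 : g v2 = v2') (A : V → V → k) :
    Lline ζ f0' f1' φ' ψ' v0' v2' A = Lline ζ f0 f1 φ ψ v0 v2 (fun a b => A (g a) (g b)) := by
  unfold Lline
  let eJ : ↥(LinearMap.ker f0 ⊓ LinearMap.ker f1 ⊓ LinearMap.ker φ) ≃
      ↥(LinearMap.ker f0' ⊓ LinearMap.ker f1' ⊓ LinearMap.ker φ') :=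
    g.toEquiv.subtypeEquiv (fun x => by
      simp [Submodule.mem_inf, LinearMap.mem_ker, h0, h1, hφ])
  let eH : ↥(LinearMap.ker f0) ≃ ↥(LinearMap.ker f0') :=
    g.toEquiv.subtypeEquiv (fun x => by simp [LinearMap.mem_ker, h0])
  rw [← Equiv.sum_comp eJ]
  refine Finset.sum_congr rfl fun κ _ => ?_
  rw [← Equiv.sum_comp eH]
  refine Finset.sum_congr rfl fun h _ => ?_
  have e1 : ((eJ κ : ↥(LinearMap.ker f0' ⊓ LinearMap.ker f1' ⊓ LinearMap.ker φ')) : V) = g κ := rfl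
  have e2 : ((eH h : ↥(LinearMap.ker f0')) : V) = g h := rfl
  rw [e1, e2, h1, hψ, ← hv0, ← hv2, ← map_add, ← map_add]

end

end Pool.Agent.Helper255.PPart
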