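import Mathlib

/-!
Fourier analysis on finite vector spaces over `ZMod q` with values in a field `k`, and some
linear algebra over `ZMod q`.
-/

namespace Pool.Agent.Helper255.PPart

open Module

attribute [local instance 10] Fintype.ofFinite

noncomputable section

variable {q : ℕ} [Fact q.Prime] {k : Type*} [Field k]

instance instFiniteDual {H : Type*} [AddCommGroup H] [Module (ZMod q) H] [Finite H] :
    Finite (Dual (ZMod q) H) := DFunLike.finite _

/-- A functional which is `1` at a given nonzero vector. -/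
theorem exists_dual_eq_one {F V : Type*} [Field F] [AddCommGroup V] [Module F V]
    {v : V} (hv : v ≠ 0) : ∃ f : Dual F V, f v = 1 := by
  have h : ¬ ∀ f : Dual F V, f v = 0 := fun h => hv ((forall_dual_apply_eq_zero_iff F v).1 h)
  push Not at h
  obtain ⟨f, hf⟩ := h
  exact ⟨(f v)⁻¹ • f, by simp [hf]⟩

variable (ζ : AddChar (ZMod q) k)

theorem sum_dual_eq_zero (hζ : ζ 1 ≠ 1) {H : Type*} [AddCommGroup H] [Module (ZMod q) H] [Finite H]
    {h : H} (hh : h ≠ 0) : ∑ φ : Dual (ZMod q) H, ζ (φ h) = 0 := by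
  obtain ⟨φ0, h0⟩ := exists_dual_eq_one (F := ZMod q) hh
  have h1 : ∑ φ : Dual (ZMod q) H, ζ (φ h) = ζ 1 * ∑ φ : Dual (ZMod q) H, ζ (φ h) := by
    rw [Finset.mul_sum, ← Equiv.sum_comp (Equiv.addRight φ0)]
    refine Finset.sum_congr rfl fun φ _ => ?_
    simp [h0, AddChar.map_add_eq_mul, mul_comm]
  have h2 : (1 - ζ 1) * ∑ φ : Dual (ZMod q) H, ζ (φ h) = 0 := by
    rw [sub_mul, one_mul, ← h1, sub_self]
  rcases mul_eq_zero.1 h2 with h3 | h3
  · exact absurd (sub_eq_zero.1 h3).symm hζ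
  · exact h3

theorem sum_field_eq_zero (hζ : ζ 1 ≠ 1) {c : ZMod q} (hc : c ≠ 0) :
    ∑ t : ZMod q, ζ (t * c) = 0 := by
  have h1 : ∑ t : ZMod q, ζ (t * c) = ζ 1 * ∑ t : ZMod q, ζ (t * c) := by
    rw [Finset.mul_sum, ← Equiv.sum_comp (Equiv.addRight c⁻¹)]
    refine Finset.sum_congr rfl fun t _ => ?_
    simp only [Equiv.coe_addRight, add_mul, inv_mul_cancel₀ hc, AddChar.map_add_eq_mul]
    ring
  have h2 : (1 - ζ 1) * ∑ t : ZMod q, ζ (t * c) = 0 := by
    rw [sub_mul, one_mul, ← h1, sub_self]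
  rcases mul_eq_zero.1 h2 with h3 | h3
  · exact absurd (sub_eq_zero.1 h3).symm hζ
  · exact h3

/-- The number of functionals, in `k`. -/
theorem card_dual_ne_zero (hq : (q : k) ≠ 0) (H : Type*) [AddCommGroup H] [Module (ZMod q) H]
    [Finite H] : (Fintype.card (Dual (ZMod q) H) : k) ≠ 0 := by
  have h : Fintype.card (Dual (ZMod q) H) = q ^ finrank (ZMod q) (Dual (ZMod q) H) := by
    rw [Module.card_eq_pow_finrank (K := ZMod q), ZMod.card]
  rw [h]
  push_cast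
  exact pow_ne_zero _ hq

/-- The Fourier transform. -/
def FT {H : Type*} [AddCommGroup H] [Module (ZMod q) H] [Finite H] (A : H → k)
    (φ : Dual (ZMod q) H) : k := ∑ h : H, ζ (φ h) * A h

theorem fourier_inversion (hζ : ζ 1 ≠ 1) {H : Type*} [AddCommGroup H] [Module (ZMod q) H]
    [Finite H] (A : H → k) (h : H) :
    ∑ φ : Dual (ZMod q) H, ζ (-(φ h)) * FT ζ A φ = (Fintype.card (Dual (ZMod q) H) : k) * A h := by
  classical
  unfold FT
  simp_rw [Finset.mul_sum]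
  rw [Finset.sum_comm]
  have h1 : ∀ h' : H, ∑ φ : Dual (ZMod q) H, ζ (-(φ h)) * (ζ (φ h') * A h')
      = A h' * ∑ φ : Dual (ZMod q) H, ζ (φ (h' - h)) := by
    intro h'
    rw [Finset.mul_sum]
    refine Finset.sum_congr rfl fun φ _ => ?_
    rw [map_sub, sub_eq_neg_add, AddChar.map_add_eq_mul]
    ring
  simp_rw [h1]
  rw [Finset.sum_eq_single h]
  · simp
    ring
  · intro h' _ hne
    rw [sum_dual_eq_zero ζ hζ (sub_ne_zero.2 hne), mul_zero]
  · intro hn
    exact absurd (Finset.mem_univ _) hn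

/-- If all nontrivial Fourier coefficients vanish then the function is constant. -/
theorem const_of_FT (hζ : ζ 1 ≠ 1) (hq : (q : k) ≠ 0) {H : Type*} [AddCommGroup H]
    [Module (ZMod q) H] [Finite H] (A : H → k)
    (hA : ∀ φ : Dual (ZMod q) H, φ ≠ 0 → FT ζ A φ = 0) (h h' : H) : A h = A h' := by
  classical
  have hN := card_dual_ne_zero (k := k) hq H
  have key : ∀ h : H, (Fintype.card (Dual (ZMod q) H) : k) * A h = FT ζ A 0 := by
    intro h
    rw [← fourier_inversion ζ hζ A h, Finset.sum_eq_single 0]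
    · simp
    · intro φ _ hφ
      rw [hA φ hφ, mul_zero]
    · intro hn
      exact absurd (Finset.mem_univ _) hn
  exact mul_left_cancel₀ hN ((key h).trans (key h').symm)

/-- A shift-invariant function has Fourier coefficients supported on the annihilator. -/
theorem FT_eq_zero_of_invariant (hζ : ζ 1 ≠ 1) {H : Type*} [AddCommGroup H]
    [Module (ZMod q) H] [Finite H] (A : H → k) (ρ : H) (hA : ∀ (h : H) (t : ZMod q), A (h + t • ρ) = A h)
    (φ : Dual (ZMod q) H) (hφ : φ ρ ≠ 0) : FT ζ A φ = 0 := by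
  have h1 : FT ζ A φ = ζ 1 * FT ζ A φ := by
    unfold FT
    rw [Finset.mul_sum, ← Equiv.sum_comp (Equiv.addRight ((φ ρ)⁻¹ • ρ))]
    refine Finset.sum_congr rfl fun h _ => ?_
    simp [hA, hφ, AddChar.map_add_eq_mul]
    ring
  have h2 : (1 - ζ 1) * FT ζ A φ = 0 := by
    rw [sub_mul, one_mul, ← h1, sub_self]
  rcases mul_eq_zero.1 h2 with h3 | h3
  · exact absurd (sub_eq_zero.1 h3).symm hζ
  · exact h3

/-- Fourier lemma for lines. -/
theorem fourier_lines (hζ : ζ 1 ≠ 1) (hq : (q : k) ≠ 0) {H : Type*} [AddCommGroup H]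
    [Module (ZMod q) H] [Finite H] (A : H → H → k)
    (hA : ∀ (h ρ : H) (t : ZMod q), A (h + t • ρ) ρ = A h ρ)
    (hc : ∀ φ : Dual (ZMod q) H, φ ≠ 0 → ∀ ρ ρ' : H, ρ ≠ 0 → ρ' ≠ 0 → φ ρ = 0 → φ ρ' = 0 →
      FT ζ (fun h => A h ρ) φ = FT ζ (fun h => A h ρ') φ) :
    ∃ g d : H → k, ∀ h ρ : H, ρ ≠ 0 → A h ρ = d ρ + ∑ t : ZMod q, g (h + t • ρ) := by
  classical
  have hN := card_dual_ne_zero (k := k) hq H
  set N : k := (Fintype.card (Dual (ZMod q) H) : k) with hNdef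
  have hex : ∀ φ : Dual (ZMod q) H, ∃ c : k, ∀ ρ : H, ρ ≠ 0 → φ ρ = 0 → φ ≠ 0 →
      FT ζ (fun h => A h ρ) φ = c := by
    intro φ
    by_cases h1 : φ ≠ 0 ∧ ∃ ρ : H, ρ ≠ 0 ∧ φ ρ = 0
    · obtain ⟨h2, ρ, h3, h4⟩ := h1
      exact ⟨_, fun ρ' h5 h6 _ => hc φ h2 ρ' ρ h5 h3 h6 h4⟩
    · refine ⟨0, fun ρ h3 h4 h5 => absurd ⟨h5, ρ, h3, h4⟩ h1⟩
  choose c hcc using hex
  refine ⟨fun h => N⁻¹ * (q : k)⁻¹ * ∑ φ : Dual (ZMod q) H, if φ = 0 then 0 else ζ (-(φ h)) * c φ,
    fun ρ => N⁻¹ * FT ζ (fun h => A h ρ) 0, fun h ρ hρ => ?_⟩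
  have h1 : A h ρ = N⁻¹ * ∑ φ : Dual (ZMod q) H, ζ (-(φ h)) * FT ζ (fun h => A h ρ) φ := by
    rw [fourier_inversion ζ hζ (fun h => A h ρ) h, ← hNdef, ← mul_assoc, inv_mul_cancel₀ hN, one_mul]
  rw [h1]
  simp only
  rw [← Finset.mul_sum, Finset.sum_comm]
  rw [← Finset.add_sum_erase _ _ (Finset.mem_univ (0 : Dual (ZMod q) H))]
  rw [← Finset.add_sum_erase _ (fun φ : Dual (ZMod q) H => ∑ t : ZMod q,
    if φ = 0 then 0 else ζ (-(φ (h + t • ρ))) * c φ) (Finset.mem_univ (0 : Dual (ZMod q) H))]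
  have h2 : ∀ φ ∈ (Finset.univ : Finset (Dual (ZMod q) H)).erase 0,
      (∑ t : ZMod q, if φ = 0 then 0 else ζ (-(φ (h + t • ρ))) * c φ)
        = (q : k) * (ζ (-(φ h)) * FT ζ (fun h => A h ρ) φ) := by
    intro φ hφ
    have hφ0 : φ ≠ 0 := (Finset.mem_erase.1 hφ).1
    simp only [hφ0, if_false]
    by_cases h3 : φ ρ = 0
    · simp [h3, hcc φ ρ hρ h3 hφ0]
    · rw [FT_eq_zero_of_invariant ζ hζ _ ρ (fun h t => hA h ρ t) φ h3, mul_zero, mul_zero]
      have h4 : ∀ t : ZMod q, ζ (-(φ (h + t • ρ))) * c φ = (ζ (-(φ h)) * c φ) * ζ (t * (-(φ ρ))) := by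
        intro t
        rw [map_add, map_smul, neg_add, AddChar.map_add_eq_mul, smul_eq_mul]
        ring_nf
      simp_rw [h4]
      rw [← Finset.mul_sum, sum_field_eq_zero ζ hζ (neg_ne_zero.2 h3), mul_zero]
  rw [Finset.sum_congr rfl h2, ← Finset.mul_sum]
  simp only [LinearMap.zero_apply, neg_zero, AddChar.map_zero_eq_one, one_mul, if_true,
    Finset.sum_const_zero, zero_add]
  field_simp

/-- Fourier lemma for flags. -/
theorem fourier_flags (hζ : ζ 1 ≠ 1) (hq : (q : k) ≠ 0) {H : Type*} [AddCommGroup H]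
    [Module (ZMod q) H] [Finite H] (A : H → H → k)
    (hc : ∀ φ : Dual (ZMod q) H, ∀ ρ ρ' : H, φ ρ ≠ 0 → φ ρ' ≠ 0 →
      FT ζ (fun h => A h ρ) φ = FT ζ (fun h => A h ρ') φ) :
    ∃ g : H → k, ∀ (h ρ : H) (t : ZMod q), A h ρ - A (h + t • ρ) ρ = g h - g (h + t • ρ) := by
  classical
  have hN := card_dual_ne_zero (k := k) hq H
  set N : k := (Fintype.card (Dual (ZMod q) H) : k) with hNdef
  have hex : ∀ φ : Dual (ZMod q) H, ∃ c : k, ∀ ρ : H, φ ρ ≠ 0 →
      FT ζ (fun h => A h ρ) φ = c := by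
    intro φ
    by_cases h1 : ∃ ρ : H, φ ρ ≠ 0
    · obtain ⟨ρ, h3⟩ := h1
      exact ⟨_, fun ρ' h5 => hc φ ρ' ρ h5 h3⟩
    · refine ⟨0, fun ρ h3 => absurd ⟨ρ, h3⟩ h1⟩
  choose c hcc using hex
  refine ⟨fun h => N⁻¹ * ∑ φ : Dual (ZMod q) H, ζ (-(φ h)) * c φ, fun h ρ t => ?_⟩
  have h1 : ∀ h, A h ρ = N⁻¹ * ∑ φ : Dual (ZMod q) H, ζ (-(φ h)) * FT ζ (fun h => A h ρ) φ := by
    intro h
    rw [fourier_inversion ζ hζ (fun h => A h ρ) h, ← hNdef, ← mul_assoc, inv_mul_cancel₀ hN, one_mul]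
  rw [h1 h, h1 (h + t • ρ), ← mul_sub, ← mul_sub, ← Finset.sum_sub_distrib,
    ← Finset.sum_sub_distrib]
  congr 1
  refine Finset.sum_congr rfl fun φ _ => ?_
  by_cases h3 : φ ρ = 0
  · simp [h3]
  · rw [hcc φ ρ h3]

/-- A functional avoiding three given nonzero vectors. -/
theorem exists_dual_three (hq5 : 5 ≤ q) {V : Type*} [AddCommGroup V] [Module (ZMod q) V]
    {a b c : V} (ha : a ≠ 0) (hb : b ≠ 0) (hc : c ≠ 0) :
    ∃ f : Dual (ZMod q) V, f a ≠ 0 ∧ f b ≠ 0 ∧ f c ≠ 0 := by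
  classical
  have h := Submodule.iUnion_ssubset_of_forall_ne_top_of_card_lt (K := ZMod q)
    (M := Dual (ZMod q) V) (Finset.univ : Finset (Fin 3))
    (fun i => LinearMap.ker (Dual.eval (ZMod q) V (![a, b, c] i))) ?_ ?_
  · rw [Set.ssubset_univ_iff] at h
    have h2 : ∃ f : Dual (ZMod q) V, f ∉ ⋃ i ∈ (Finset.univ : Finset (Fin 3)),
        ((LinearMap.ker (Dual.eval (ZMod q) V (![a, b, c] i)) : Submodule _ _) :
          Set (Dual (ZMod q) V)) := by
      by_contra hcon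
      push Not at hcon
      exact h (Set.eq_univ_of_forall hcon)
    obtain ⟨f, hf⟩ := h2
    simp only [Finset.mem_univ, Set.iUnion_true, Set.mem_iUnion, SetLike.mem_coe,
      LinearMap.mem_ker, Dual.eval_apply, not_exists] at hf
    exact ⟨f, hf 0, hf 1, hf 2⟩
  · intro i htop
    have hne : (![a, b, c] i) ≠ 0 := by
      fin_cases i
      · exact ha
      · exact hb
      · exact hc
    obtain ⟨f, hf⟩ := exists_dual_eq_one (F := ZMod q) hne
    have : f ∈ LinearMap.ker (Dual.eval (ZMod q) V (![a, b, c] i)) := by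
      rw [htop]; trivial
    rw [LinearMap.mem_ker, Dual.eval_apply, hf] at this
    exact one_ne_zero this
  · rw [Finset.card_univ, Fintype.card_fin, ENat.card_eq_coe_fintype_card, ZMod.card]
    exact_mod_cast (by omega : 3 < q)

theorem finrank_span_singleton_le_one {V : Type*} [AddCommGroup V] [Module (ZMod q) V] (v : V) :
    finrank (ZMod q) (Submodule.span (ZMod q) {v}) ≤ 1 := by
  classical
  have := finrank_span_finset_le_card (R := ZMod q) ({v} : Finset V)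
  rw [Finset.coe_singleton, Finset.card_singleton] at this
  exact this

/-- A vector avoiding two proper subspaces. -/
theorem exists_notMem_two {F V : Type*} [Field F] [AddCommGroup V] [Module F V]
    {P Q : Submodule F V} (hP : P ≠ ⊤) (hQ : Q ≠ ⊤) : ∃ z : V, z ∉ P ∧ z ∉ Q := by
  by_contra hcon
  push Not at hcon
  obtain ⟨x, hx⟩ : ∃ x, x ∉ P := by
    by_contra h; push Not at h; exact hP ((Submodule.eq_top_iff').2 h)
  obtain ⟨y, hy⟩ : ∃ y, y ∉ Q := by
    by_contra h; push Not at h; exact hQ ((Submodule.eq_top_iff').2 h)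
  have hxQ : x ∈ Q := hcon x hx
  have hyP : y ∈ P := by
    by_contra h; exact hy (hcon y h)
  have h1 : x + y ∉ P := fun h => hx (by simpa using P.sub_mem h hyP)
  have h2 : x + y ∉ Q := fun h => hy (by simpa using Q.sub_mem h hxQ)
  exact h2 (hcon _ h1)

end

end Pool.Agent.Helper255.PPart
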