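import Pool.Agent.Helper255.PPart.LinesNum2

/-!
Inflation to products: enlarging the `p`-part of the group order.
-/

namespace Pool.Agent.Helper255.PPart

open Module

noncomputable section

universe u

/-- If degree with large `p`-part occurs for `|G|_p = p ^ a` then also for `p ^ (a + b)`. -/
theorem inflate (k : Type u) [Field k] (p : ℕ) [hpf : Fact p.Prime] (a b : ℕ) (Q : ℕ → Prop)
    (h : ∃ (G : Type) (_ : Group G) (_ : Finite G) (M : Type u) (_ : AddCommGroup M)
      (_ : Module k M) (ρ : Representation k G M), FiniteDimensional k M ∧ ρ.IsIrreducible ∧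
        padicValNat p (Nat.card G) = a ∧ Q (finrank k M)) :
    ∃ (G : Type) (_ : Group G) (_ : Finite G) (M : Type u) (_ : AddCommGroup M)
      (_ : Module k M) (ρ : Representation k G M), FiniteDimensional k M ∧ ρ.IsIrreducible ∧
        padicValNat p (Nat.card G) = a + b ∧ Q (finrank k M) := by
  obtain ⟨G, i1, i2, M, i3, i4, ρ, h1, h2, h3, h4⟩ := h
  have : NeZero (p ^ b) := ⟨pow_ne_zero _ hpf.out.ne_zero⟩
  have : Finite (Multiplicative (ZMod (p ^ b))) := Finite.of_equiv _ Multiplicative.ofAdd
  refine ⟨G × Multiplicative (ZMod (p ^ b)), inferInstance, inferInstance, M, i3, i4,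
    MonoidHom.comp ρ (MonoidHom.fst G (Multiplicative (ZMod (p ^ b)))), h1, ?_, ?_, h4⟩
  · exact isIrreducible_comp (MonoidHom.fst G (Multiplicative (ZMod (p ^ b))))
      (fun g => ⟨(g, 1), rfl⟩) ρ h2
  · have hc : Nat.card (Multiplicative (ZMod (p ^ b))) = p ^ b := by
      rw [Nat.card_congr Multiplicative.toAdd, Nat.card_zmod]
    rw [Nat.card_prod, hc, padicValNat.mul Nat.card_pos.ne' (pow_ne_zero _ hpf.out.ne_zero), h3,
      padicValNat.prime_pow]

end

end Pool.Agent.Helper255.PPart
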