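import Pool.Agent.Helper255.PPart.GenLines2

/-!
The generation lemma for flags (a point on a line), at the level of functions of two vectors.
-/

namespace Pool.Agent.Helper255.PPart

open Module

attribute [local instance 10] Fintype.ofFinite

noncomputable section

variable {q : ℕ} [Fact q.Prime] {k : Type*} [Field k]
variable {V : Type*} [AddCommGroup V] [Module (ZMod q) V]

/-- A function of two vectors that depends only on the flag `⟨x⟩ ≤ ⟨x, ρ⟩`. -/
structure FlagFun (A : V → V → k) : Prop where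
  smul_left : ∀ (x ρ : V) (c : ZMod q), c ≠ 0 → A (c • x) ρ = A x ρ
  smul_right : ∀ (x ρ : V) (c : ZMod q), c ≠ 0 → A x (c • ρ) = A x ρ
  add : ∀ (x ρ : V) (t : ZMod q), A x (ρ + t • x) = A x ρ

theorem stepF_flags (ζ : AddChar (ZMod q) k) (hζ : ζ 1 ≠ 1) (hqk : (q : k) ≠ 0) [Finite V]
    {A : V → V → k} (hA : FlagFun (q := q) A)
    (hyp : ∀ f0 f1 f2 : Dual (ZMod q) V, ∀ v0 v1 v2 : V,
      DualSys ![f0, f1, f2] ![v0, v1, v2] → Lline ζ f0 f1 f1 f2 v0 v1 A = 0)
    (f0 : Dual (ZMod q) V) : ∃ g : V → k, ∀ (x ρ : V) (t : ZMod q), f0 x = 1 → f0 ρ = 0 →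
      A x ρ - A (x + t • ρ) ρ = g x - g (x + t • ρ) := by
  classical
  by_cases hv0 : ∃ v0 : V, f0 v0 = 1
  swap
  · exact ⟨0, fun x ρ t hx => absurd ⟨x, hx⟩ hv0⟩
  obtain ⟨v0, hv0⟩ := hv0
  have main := fourier_flags ζ hζ hqk (H := ↥(LinearMap.ker f0)) (fun h ρ => A (v0 + h) ρ) ?_
  · obtain ⟨g, hg⟩ := main
    let π : V →ₗ[ZMod q] ↥(LinearMap.ker f0) :=
      (LinearMap.id - f0.smulRight v0).codRestrict (LinearMap.ker f0) (fun x => by
        simp [hv0])
    have hπ : ∀ x : V, ((π x : ↥(LinearMap.ker f0)) : V) = x - f0 x • v0 := fun x => rfl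
    refine ⟨fun x => g (π x), fun x ρ t hx hρ => ?_⟩
    have h1 : ((π ρ : ↥(LinearMap.ker f0)) : V) = ρ := by
      rw [hπ, hρ, zero_smul, sub_zero]
    have h2 : v0 + ((π x : ↥(LinearMap.ker f0)) : V) = x := by
      rw [hπ, hx, one_smul]; abel
    have h3 := hg (π x) (π ρ) t
    rw [Submodule.coe_add, Submodule.coe_smul, h1, ← add_assoc, h2] at h3
    rw [h3]
    simp only [map_add, map_smul]
  · -- reduce to the normalised case
    have key : ∀ (φ : Dual (ZMod q) ↥(LinearMap.ker f0)) (ρ ρ' : ↥(LinearMap.ker f0)),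
        φ ρ = 1 → φ ρ' = 1 → FT ζ (fun h : ↥(LinearMap.ker f0) => A (v0 + h) ρ) φ =
          FT ζ (fun h : ↥(LinearMap.ker f0) => A (v0 + h) ρ') φ := by
      intro φ ρ ρ' hφρ hφρ'
      obtain ⟨e1, he1⟩ := LinearMap.exists_extend φ
      have he1' : ∀ h : ↥(LinearMap.ker f0), e1 h = φ h := fun h => by
        rw [← he1]; rfl
      set f1 : Dual (ZMod q) V := e1 - e1 v0 • f0 with hf1
      have hf1v0 : f1 v0 = 0 := by simp [hf1, hv0]
      have hf0h : ∀ h : ↥(LinearMap.ker f0), f0 h = 0 := fun h => LinearMap.mem_ker.1 h.2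
      have hf1h : ∀ h : ↥(LinearMap.ker f0), f1 h = φ h := by
        intro h
        simp [hf1, he1']
      set J := LinearMap.ker f0 ⊓ LinearMap.ker f1 ⊓ LinearMap.ker f1 with hJ
      have hκ0 : (ρ' : V) - ρ ∈ J := by
        have h1 : f1 ((ρ' : V) - ρ) = 0 := by
          rw [map_sub, hf1h, hf1h, hφρ, hφρ', sub_self]
        refine ⟨⟨?_, LinearMap.mem_ker.2 h1⟩, LinearMap.mem_ker.2 h1⟩
        simp
      have hJ0 : ∀ κ : J, f0 κ = 0 := fun κ => LinearMap.mem_ker.1 κ.2.1.1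
      have hJ1 : ∀ κ : J, f1 κ = 0 := fun κ => LinearMap.mem_ker.1 κ.2.1.2
      have hconst := const_of_FT ζ hζ hqk (H := J)
        (fun κ => FT ζ (fun h : ↥(LinearMap.ker f0) => A (v0 + h) (ρ + κ)) φ) ?_ 0 ⟨_, hκ0⟩
      · simpa using hconst
      · intro ψ hψ
        obtain ⟨e3, he3⟩ := LinearMap.exists_extend ψ
        have he3' : ∀ κ : J, e3 κ = ψ κ := fun κ => by
          rw [← he3]; rfl
        obtain ⟨u3, hu3⟩ : ∃ u3 : J, ψ u3 ≠ 0 := by
          by_contra hcon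
          push Not at hcon
          exact hψ (LinearMap.ext hcon)
        set v2 : J := (ψ u3)⁻¹ • u3 with hv2
        have hψv2 : ψ v2 = 1 := by simp [hv2, hu3]
        set f2 : Dual (ZMod q) V := e3 - e3 v0 • f0 - e3 ρ • f1 with hf2
        have hf2v0 : f2 v0 = 0 := by simp [hf2, hv0, hf1v0]
        have hf2v1 : f2 ρ = 0 := by simp [hf2, hf1h, hφρ]
        have hf2κ : ∀ κ : J, f2 κ = ψ κ := by
          intro κ
          simp [hf2, he3', hJ0, hJ1]
        have hsys : DualSys ![f0, f1, f2] ![v0, (ρ : V), (v2 : V)] := by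
          intro i j
          fin_cases i <;> fin_cases j <;>
            simp [hv0, hf1v0, hf2v0, hf1h, hφρ, hf2v1, hJ0, hJ1, hf2κ, hψv2]
        have h := hyp f0 f1 f2 v0 ρ v2 hsys
        unfold Lline at h
        rw [← h]
        unfold FT
        refine Finset.sum_congr rfl fun κ _ => ?_
        rw [Finset.mul_sum]
        refine Finset.sum_congr rfl fun h _ => ?_
        rw [hf1h, hf2κ]
        ring
    intro φ ρ ρ' hφρ hφρ'
    have h1 := key φ ((φ ρ)⁻¹ • ρ) ((φ ρ')⁻¹ • ρ') (by simp [hφρ]) (by simp [hφρ'])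
    simpa only [Submodule.coe_smul, hA.smul_right _ _ _ (inv_ne_zero hφρ),
      hA.smul_right _ _ _ (inv_ne_zero hφρ')] using h1

/-- The generation lemma for flags. -/
theorem gen_flags (ζ : AddChar (ZMod q) k) (hζ : ζ 1 ≠ 1) (hqk : (q : k) ≠ 0) [Finite V]
    (hn : 1 ≤ finrank (ZMod q) V) (hq5 : 5 ≤ q) {A : V → V → k} (hA : FlagFun (q := q) A)
    (hyp : ∀ f0 f1 f2 : Dual (ZMod q) V, ∀ v0 v1 v2 : V,
      DualSys ![f0, f1, f2] ![v0, v1, v2] → Lline ζ f0 f1 f1 f2 v0 v1 A = 0) :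
    ∃ X : V → k, (∀ (s : ZMod q) (v : V), s ≠ 0 → X (s • v) = X v) ∧
    ∀ a b : V, b ≠ 0 → a ∉ Submodule.span (ZMod q) {b} → A a b - A b a = X a - X b := by
  classical
  choose g hg using stepF_flags ζ hζ hqk hA hyp
  have hnt : Nontrivial V := by
    apply Module.nontrivial_of_finrank_pos (R := ZMod q)
    omega
  obtain ⟨o, ho⟩ := exists_ne (0 : V)
  have hE : ∀ (f : Dual (ZMod q) V) (a b : V), f a ≠ 0 → f b ≠ 0 →
      A a b - A b a = GG g f a - GG g f b := by
    intro f a b ha hb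
    set a1 := (f a)⁻¹ • a with ha1
    set b1 := (f b)⁻¹ • b with hb1
    have hfa : f a1 = 1 := by simp [ha1, ha]
    have hfb : f b1 = 1 := by simp [hb1, hb]
    have h := hg f a1 (b1 - a1) 1 hfa (by rw [map_sub, hfa, hfb, sub_self])
    have e1 : a1 + (1 : ZMod q) • (b1 - a1) = b1 := by rw [one_smul]; abel
    rw [e1] at h
    have e2 : A a1 (b1 - a1) = A a b := by
      have : b1 - a1 = b1 + (-1 : ZMod q) • a1 := by rw [neg_one_smul]; abel
      rw [this, hA.add, ha1, hb1, hA.smul_left _ _ _ (inv_ne_zero ha),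
        hA.smul_right _ _ _ (inv_ne_zero hb)]
    have e3 : A b1 (b1 - a1) = A b a := by
      have : b1 - a1 = (-1 : ZMod q) • a1 + (1 : ZMod q) • b1 := by
        rw [neg_one_smul, one_smul]; abel
      rw [this, hA.add, hA.smul_right _ _ _ (neg_ne_zero.2 one_ne_zero), ha1, hb1,
        hA.smul_left _ _ _ (inv_ne_zero hb), hA.smul_right _ _ _ (inv_ne_zero ha)]
    rw [e2, e3] at h
    rw [h]
    rfl
  set X : V → k := fun v => if v = 0 then 0 else A v o - A o v with hX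
  have hX1 : ∀ (f : Dual (ZMod q) V) (v : V), f v ≠ 0 → f o ≠ 0 →
      X v = GG g f v - GG g f o := by
    intro f v hv hfo
    have hv0 : v ≠ 0 := by
      rintro rfl
      simp at hv
    simp only [hX, hv0, if_false]
    exact hE f v o hv hfo
  refine ⟨X, ?_, ?_⟩
  · intro s v hs
    by_cases hv : v = 0
    · rw [hv, smul_zero]
    · obtain ⟨f, h1, h2, _⟩ := exists_dual_three hq5 hv ho ho
      rw [hX1 f v h1 h2, hX1 f (s • v) (by simpa [hs] using h1) h2, GG_smul g _ _ hs]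
  · intro a b hb hab
    have ha : a ≠ 0 := by
      rintro rfl
      exact hab (Submodule.zero_mem _)
    obtain ⟨f, h1, h2, h3⟩ := exists_dual_three hq5 ha hb ho
    rw [hE f a b h1 h2, hX1 f a h1 h3, hX1 f b h2 h3]
    ring

end

end Pool.Agent.Helper255.PPart
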