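import Pool.Agent.Helper255.PPart.Lines
import Pool.Agent.Helper255.PPart.GenFlags

/-!
The permutation module on flags (a point on a line): every invariant subspace lies in `W0F` or
contains `W0F^⊥`.
-/

namespace Pool.Agent.Helper255.PPart

open Module

attribute [local instance 10] Fintype.ofFinite

noncomputable section

universe u

/-- Flags: a point on a line. -/
def Fl (q : ℕ) (V : Type) [AddCommGroup V] [Module (ZMod q) V] : Type :=
  {x : Pt q V × Ln q V // x.1.1 ≤ x.2.1}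

variable {q : ℕ} [Fact q.Prime] {k : Type u} [Field k]
variable {V : Type} [AddCommGroup V] [Module (ZMod q) V]

instance instFiniteFl [Finite V] : Finite (Fl q V) := by unfold Fl; infer_instance

theorem Fl.ext {x y : Fl q V} (h1 : x.1.1.1 = y.1.1.1) (h2 : x.1.2.1 = y.1.2.1) : x = y :=
  Subtype.ext (Prod.ext (Pt.ext h1) (Ln.ext h2))

/-- Action on flags. -/
instance instActFl : MulAction (V ≃ₗ[ZMod q] V) (Fl q V) where
  smul g x := ⟨(g • x.1.1, g • x.1.2), (smul_le_smul g _ _).2 x.2⟩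
  one_smul x := by
    apply Subtype.ext
    exact Prod.ext (one_smul _ _) (one_smul _ _)
  mul_smul g h x := by
    apply Subtype.ext
    exact Prod.ext (mul_smul _ _ _) (mul_smul _ _ _)

theorem Fl.smul_pt (g : V ≃ₗ[ZMod q] V) (x : Fl q V) : (g • x).1.1 = g • x.1.1 := rfl
theorem Fl.smul_ln (g : V ≃ₗ[ZMod q] V) (x : Fl q V) : (g • x).1.2 = g • x.1.2 := rfl

theorem span_single_le_pair (x ρ : V) :
    Submodule.span (ZMod q) {x} ≤ Submodule.span (ZMod q) {x, ρ} :=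
  Submodule.span_mono (by simp)

/-- The value of a function on flags at the flag `⟨x⟩ ≤ ⟨x, ρ⟩`. -/
def valF (w : Fl q V → k) (x ρ : V) : k := by
  classical
  exact if h : x ≠ 0 ∧ finrank (ZMod q) (Submodule.span (ZMod q) {x, ρ}) = 2 then
    w ⟨(mkP x h.1, ⟨_, h.2⟩), span_single_le_pair x ρ⟩ else 0

theorem valF_of_eq (w : Fl q V → k) {x ρ : V} {ω : Fl q V}
    (h1 : ω.1.1.1 = Submodule.span (ZMod q) {x})
    (h2 : ω.1.2.1 = Submodule.span (ZMod q) {x, ρ}) : valF w x ρ = w ω := by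
  have e1 : x ≠ 0 := by
    rintro rfl
    have h3 := ω.1.1.2
    rw [h1, Submodule.span_zero_singleton, finrank_bot] at h3
    exact zero_ne_one h3
  have e2 : finrank (ZMod q) (Submodule.span (ZMod q) {x, ρ}) = 2 := by
    rw [← h2]; exact ω.1.2.2
  unfold valF
  rw [dif_pos ⟨e1, e2⟩]
  congr 1
  exact Fl.ext h1.symm h2.symm

theorem valF_of_not (w : Fl q V → k) {x ρ : V}
    (h : ¬ (x ≠ 0 ∧ finrank (ZMod q) (Submodule.span (ZMod q) {x, ρ}) = 2)) : valF w x ρ = 0 := by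
  unfold valF
  rw [dif_neg h]

theorem valF_congr (w : Fl q V → k) {x ρ x' ρ' : V}
    (h1 : Submodule.span (ZMod q) {x} = Submodule.span (ZMod q) {x'})
    (h2 : Submodule.span (ZMod q) {x, ρ} = Submodule.span (ZMod q) {x', ρ'}) :
    valF w x ρ = valF w x' ρ' := by
  have h0 : x ≠ 0 ↔ x' ≠ 0 := by
    rw [Ne, Ne, ← Submodule.span_singleton_eq_bot (R := ZMod q) (x := x),
      ← Submodule.span_singleton_eq_bot (R := ZMod q) (x := x'), h1]
  by_cases h : x ≠ 0 ∧ finrank (ZMod q) (Submodule.span (ZMod q) {x, ρ}) = 2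
  · let ω : Fl q V := ⟨(mkP x h.1, ⟨_, h.2⟩), span_single_le_pair x ρ⟩
    rw [valF_of_eq w (ω := ω) rfl rfl, valF_of_eq w (ω := ω) h1 h2]
  · have h' : ¬ (x' ≠ 0 ∧ finrank (ZMod q) (Submodule.span (ZMod q) {x', ρ'}) = 2) := by
      rw [← h0, ← h2]; exact h
    rw [valF_of_not w h, valF_of_not w h']

theorem flagFun_valF (w : Fl q V → k) : FlagFun (q := q) (valF w) where
  smul_left x ρ c hc := valF_congr w (span_single_smul x hc) (by
    rw [Set.pair_comm, span_pair_smul ρ x hc, Set.pair_comm])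
  smul_right x ρ c hc := valF_congr w rfl (span_pair_smul x ρ hc)
  add x ρ t := valF_congr w rfl (span_pair_add x ρ t)

theorem map_span_single (g : V ≃ₗ[ZMod q] V) (a : V) :
    (Submodule.span (ZMod q) {a}).map (g : V →ₗ[ZMod q] V) = Submodule.span (ZMod q) {g a} := by
  rw [Submodule.map_span, Set.image_singleton]
  rfl

theorem valF_smul (w : Fl q V → k) (g : V ≃ₗ[ZMod q] V) (a b : V) :
    valF w (g a) (g b) = valF (fun ω => w (g • ω)) a b := by
  by_cases h : a ≠ 0 ∧ finrank (ZMod q) (Submodule.span (ZMod q) {a, b}) = 2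
  · let ω : Fl q V := ⟨(mkP a h.1, ⟨_, h.2⟩), span_single_le_pair a b⟩
    rw [valF_of_eq (fun ω => w (g • ω)) (ω := ω) rfl rfl]
    apply valF_of_eq
    · rw [Fl.smul_pt, Pt.smul_coe]
      exact map_span_single g a
    · rw [Fl.smul_ln, Ln.smul_coe]
      exact map_span_pair g a b
  · have h' : ¬ (g a ≠ 0 ∧ finrank (ZMod q) (Submodule.span (ZMod q) {g a, g b}) = 2) := by
      rw [← map_span_pair, LinearEquiv.finrank_map_eq, Ne, LinearEquiv.map_eq_zero_iff]
      exact h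
    rw [valF_of_not _ h, valF_of_not _ h']

/-- Every flag comes from two vectors. -/
theorem Fl.exists_rep [Finite V] (ω : Fl q V) : ∃ (x ρ : V), x ≠ 0 ∧
    ρ ∉ Submodule.span (ZMod q) {x} ∧ ω.1.1.1 = Submodule.span (ZMod q) {x} ∧
      ω.1.2.1 = Submodule.span (ZMod q) {x, ρ} := by
  obtain ⟨x, hx, hP⟩ := ω.1.1.exists_rep
  have h1 : x ∈ ω.1.2.1 := by
    have := ω.2
    rw [hP, mkP_le_iff] at this
    exact this
  obtain ⟨ρ, hρ, hρx, hl⟩ := ω.1.2.exists_basis h1 hx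
  refine ⟨x, ρ, hx, hρx, by rw [hP]; rfl, ?_⟩
  rw [hl, Set.pair_comm]
  rfl

variable [Finite V]

/-- The map `(y, x) ↦ ((P, ℓ) ↦ y P + x ℓ)`. -/
def TF (k : Type u) [Field k] (q : ℕ) [Fact q.Prime] (V : Type) [AddCommGroup V]
    [Module (ZMod q) V] [Finite V] : ((Pt q V → k) × (Ln q V → k)) →ₗ[k] (Fl q V → k) where
  toFun z ω := z.1 ω.1.1 + z.2 ω.1.2
  map_add' z z' := by
    ext ω
    simp only [Prod.fst_add, Prod.snd_add, Pi.add_apply]
    ring
  map_smul' c z := by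
    ext ω
    simp only [Prod.smul_fst, Prod.smul_snd, Pi.smul_apply, smul_eq_mul, RingHom.id_apply]
    ring

theorem TF_apply (z : (Pt q V → k) × (Ln q V → k)) (ω : Fl q V) :
    TF k q V z ω = z.1 ω.1.1 + z.2 ω.1.2 := rfl

/-- The image of `TF`. -/
def W0F (k : Type u) [Field k] (q : ℕ) [Fact q.Prime] (V : Type) [AddCommGroup V]
    [Module (ZMod q) V] [Finite V] : Submodule k (Fl q V → k) := LinearMap.range (TF k q V)

theorem invt_W0F : Invt (V ≃ₗ[ZMod q] V) (W0F k q V) := by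
  rintro g _ ⟨z, rfl⟩
  exact ⟨(fun P => z.1 (g • P), fun l => z.2 (g • l)), rfl⟩

/-- The generation lemma for flags. -/
theorem mem_W0F_of_Lline (ζ : AddChar (ZMod q) k) (hζ : ζ 1 ≠ 1) (hqk : (q : k) ≠ 0)
    (hn : 1 ≤ finrank (ZMod q) V) (hq5 : 5 ≤ q) (w : Fl q V → k)
    (hyp : ∀ f0 f1 f2 : Dual (ZMod q) V, ∀ v0 v1 v2 : V,
      DualSys ![f0, f1, f2] ![v0, v1, v2] → Lline ζ f0 f1 f1 f2 v0 v1 (valF w) = 0) :
    w ∈ W0F k q V := by
  obtain ⟨X, hX, hA⟩ := gen_flags ζ hζ hqk hn hq5 (flagFun_valF w) hyp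
  have hrep : ∀ P : Pt q V, ∃ v : V, ∃ hv : v ≠ 0, P = mkP v hv := fun P => P.exists_rep
  choose r hr0 hr using hrep
  have hy : ∀ (v : V) (hv : v ≠ 0), X (r (mkP v hv)) = X v := by
    intro v hv
    have h1 := hr (mkP v hv)
    rw [eq_comm, mkP_eq_iff] at h1
    obtain ⟨c, hc⟩ := Submodule.mem_span_singleton.1 h1
    have hc0 : c ≠ 0 := by
      rintro rfl
      exact hr0 (mkP v hv) (by simpa using hc.symm)
    rw [← hc, hX c v hc0]
  have hbl : ∀ l : Ln q V, ∃ a b : V, ∃ (hb : b ≠ 0) (hab : a ∉ Submodule.span (ZMod q) {b}),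
      l = mkL a b hb hab := by
    intro l
    obtain ⟨b, hb, hb0⟩ := l.exists_ne_zero
    obtain ⟨a, ha, hab, hl⟩ := l.exists_basis hb hb0
    exact ⟨a, b, hb0, hab, hl⟩
  choose a b hb0 hab hl using hbl
  refine ⟨(fun P => X (r P), fun l => valF w (b l) (a l) - X (b l)), ?_⟩
  ext ω
  rw [TF_apply]
  simp only
  obtain ⟨x, ρ, hx, hρx, h1, h2⟩ := ω.exists_rep
  have hP : ω.1.1 = mkP x hx := Pt.ext h1
  set l := ω.1.2 with hldef
  have hlb : l.1 = Submodule.span (ZMod q) {b l, a l} := by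
    have := congrArg Subtype.val (hl l)
    rw [this, Set.pair_comm]
    rfl
  have hxl : x ∈ l.1 := by
    rw [h2]; exact mem_span_pair_left x ρ
  have hbl : b l ∈ l.1 := by
    rw [hlb]; exact mem_span_pair_left _ _
  rw [hP, hy x hx, ← valF_of_eq w h1 h2]
  by_cases hdep : x ∈ Submodule.span (ZMod q) {b l}
  · obtain ⟨c, hc⟩ := Submodule.mem_span_singleton.1 hdep
    have hc0 : c ≠ 0 := by
      rintro rfl
      exact hx (by simpa using hc.symm)
    have h3 : valF w x ρ = valF w (b l) (a l) := by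
      apply valF_congr
      · rw [← hc, span_single_smul _ hc0]
      · rw [← h2, ← hlb]
    rw [h3, ← hc, hX c _ hc0]
    ring
  · have h3 := hA x (b l) (hb0 l) hdep
    have hlx : l.1 = Submodule.span (ZMod q) {x, b l} := by
      refine (Submodule.eq_of_le_of_finrank_eq (span_pair_le.2 ⟨hxl, hbl⟩) ?_).symm
      rw [finrank_span_pair (hb0 l) hdep, l.2]
    have h4 : valF w x (b l) = valF w x ρ := by
      apply valF_congr _ rfl
      rw [← h2, ← hlx]
    have h5 : valF w (b l) x = valF w (b l) (a l) := by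
      apply valF_congr _ rfl
      rw [← hlb, hlx, Set.pair_comm]
    rw [h4, h5] at h3
    linear_combination -h3

/-- Support of the eigenfunctions on flags. -/
theorem eig_support_flags (ζ : AddChar (ZMod q) k) (hζ : ζ 1 ≠ 1)
    {f0 f1 f2 : Dual (ZMod q) V} {v0 v1 v2 : V}
    (hsys : DualSys ![f0, f1, f2] ![v0, v1, v2]) (y : Fl q V → k)
    (h1 : ∀ (h : V) (hh : f0 h = 0) (ω : Fl q V), y (tv f0 h hh • ω) = ζ (-(f1 h)) * y ω)
    (h2 : ∀ (κ : V) (_ : f0 κ = 0) (hκ : f1 κ = 0) (ω : Fl q V),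
      y (tv f1 κ hκ • ω) = ζ (-(f2 κ)) * y ω) (ω : Fl q V) (hy : y ω ≠ 0) :
    ∃ h κ : V, f0 h = 0 ∧ f0 κ = 0 ∧ f1 κ = 0 ∧
      ω.1.1.1 = Submodule.span (ZMod q) {v0 + h} ∧
      ω.1.2.1 = Submodule.span (ZMod q) {v0 + h, v1 + κ} := by
  have hs : ∀ i j, (![f0, f1, f2] i) (![v0, v1, v2] j) = if i = j then 1 else 0 := hsys
  have h00 : f0 v0 = 1 := by simpa using hs 0 0
  have h01 : f0 v1 = 0 := by simpa using hs 0 1
  have h02 : f0 v2 = 0 := by simpa using hs 0 2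
  have h11 : f1 v1 = 1 := by simpa using hs 1 1
  have h12 : f1 v2 = 0 := by simpa using hs 1 2
  have h22 : f2 v2 = 1 := by simpa using hs 2 2
  have hY := flagFun_valF (k := k) y
  set Y := valF y with hYdef
  have hmul : ∀ (c : k) (z : Fl q V → k) (a b : V),
      valF (fun ω => c * z ω) a b = c * valF z a b := by
    intro c z a b
    unfold valF
    split_ifs
    · rfl
    · rw [mul_zero]
  have e1 : ∀ (h : V) (hh : f0 h = 0) (a b : V),
      Y (a + f0 a • h) (b + f0 b • h) = ζ (-(f1 h)) * Y a b := by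
    intro h hh a b
    have h3 := valF_smul y (tv f0 h hh) a b
    rw [tv_apply, tv_apply] at h3
    have h4 : (fun l => y (tv f0 h hh • l)) = fun l => ζ (-(f1 h)) * y l := funext (h1 h hh)
    rw [hYdef, h3, h4, hmul]
  have e2 : ∀ (κ : V) (_ : f0 κ = 0) (hκ : f1 κ = 0) (a b : V),
      Y (a + f1 a • κ) (b + f1 b • κ) = ζ (-(f2 κ)) * Y a b := by
    intro κ g0 hκ a b
    have h3 := valF_smul y (tv f1 κ hκ) a b
    rw [tv_apply, tv_apply] at h3
    have h4 : (fun l => y (tv f1 κ hκ • l)) = fun l => ζ (-(f2 κ)) * y l := funext (h2 κ g0 hκ)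
    rw [hYdef, h3, h4, hmul]
  -- combination of the two with `κ = v2`
  have e3 : ∀ (a b : V) (c : ZMod q), f0 a • c = f1 a → f0 b • c = f1 b →
      Y a b = 0 := by
    intro a b c hac hbc
    have i1 := e2 v2 h02 h12 a b
    rw [h22] at i1
    have i2 := e1 (-(c • v2)) (by rw [map_neg, map_smul, h02, smul_zero, neg_zero])
      (a + f1 a • v2) (b + f1 b • v2)
    have hz1 : f1 (-(c • v2)) = 0 := by rw [map_neg, map_smul, h12, smul_zero, neg_zero]
    have ha : a + f1 a • v2 + f0 (a + f1 a • v2) • -(c • v2) = a := by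
      rw [map_add, map_smul, h02, smul_zero, add_zero, ← hac, smul_neg, smul_smul, smul_eq_mul]
      abel
    have hb : b + f1 b • v2 + f0 (b + f1 b • v2) • -(c • v2) = b := by
      rw [map_add, map_smul, h02, smul_zero, add_zero, ← hbc, smul_neg, smul_smul, smul_eq_mul]
      abel
    rw [ha, hb, hz1, neg_zero, AddChar.map_zero_eq_one, one_mul, i1] at i2
    exact eq_zero_of_zeta hζ i2
  obtain ⟨x, z, hx, hzx, hω1, hω2⟩ := ω.exists_rep
  have hYxz : Y x z ≠ 0 := by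
    rw [hYdef, valF_of_eq y hω1 hω2]
    exact hy
  have hf0x : f0 x ≠ 0 := by
    intro hf0x
    apply hYxz
    by_cases hf0z : f0 z = 0
    · have i1 := e1 v1 h01 x z
      rw [hf0x, hf0z, zero_smul, add_zero, add_zero, h11] at i1
      exact eq_zero_of_zeta hζ i1
    · by_cases hf1x : f1 x = 0
      · refine e3 x z (f1 z * (f0 z)⁻¹) (by rw [hf0x, zero_smul, hf1x]) ?_
        rw [smul_eq_mul, mul_comm, mul_assoc, inv_mul_cancel₀ hf0z, mul_one]
      · have i1 := e1 ((f1 x)⁻¹ • x) (by rw [map_smul, hf0x, smul_zero]) x z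
        rw [hf0x, zero_smul, add_zero, smul_smul, hY.add, map_smul, smul_eq_mul,
          inv_mul_cancel₀ hf1x] at i1
        exact eq_zero_of_zeta hζ i1
  set x1 := (f0 x)⁻¹ • x with hx1
  set ρ := z + (-(f0 z)) • x1 with hρ
  have hf0x1 : f0 x1 = 1 := by simp [hx1, hf0x]
  have hf0ρ : f0 ρ = 0 := by simp [hρ, hf0x1]
  have hYρ : Y x1 ρ ≠ 0 := by
    rw [hρ, hY.add, hx1, hY.smul_left _ _ _ (inv_ne_zero hf0x)]
    exact hYxz
  have hf1ρ : f1 ρ ≠ 0 := by
    intro hf1ρ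
    apply hYρ
    exact e3 x1 ρ (f1 x1) (by rw [hf0x1, one_smul]) (by rw [hf0ρ, zero_smul, hf1ρ])
  have hspan1 : Submodule.span (ZMod q) {x} = Submodule.span (ZMod q) {x1} := by
    rw [hx1, span_single_smul _ (inv_ne_zero hf0x)]
  have hspan2 : Submodule.span (ZMod q) {x, z} =
      Submodule.span (ZMod q) {x1, (f1 ρ)⁻¹ • ρ} := by
    rw [span_pair_smul x1 ρ (inv_ne_zero hf1ρ), hρ, span_pair_add, hx1, Set.pair_comm,
      ← span_pair_smul z x (inv_ne_zero hf0x), Set.pair_comm]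
  refine ⟨x1 - v0, (f1 ρ)⁻¹ • ρ - v1, ?_, ?_, ?_, ?_, ?_⟩
  · simp [hf0x1, h00]
  · simp [hf0ρ, h01]
  · simp [hf1ρ, h11]
  · rw [hω1, hspan1]
    congr 2
    abel
  · rw [hω2, hspan2]
    have i1 : v0 + (x1 - v0) = x1 := by abel
    have i2 : v1 + ((f1 ρ)⁻¹ • ρ - v1) = (f1 ρ)⁻¹ • ρ := by abel
    rw [i1, i2]

/-- The invariant subspaces of the space of functions on flags. -/
theorem key_flags (ζ : AddChar (ZMod q) k) (hζ : ζ 1 ≠ 1) (hqk : (q : k) ≠ 0)
    (hn : 1 ≤ finrank (ZMod q) V) (hq5 : 5 ≤ q) (U : Submodule k (Fl q V → k))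
    (hU : Invt (V ≃ₗ[ZMod q] V) U) : U ≤ W0F k q V ∨ perp (W0F k q V) ≤ U := by
  by_cases hcase : ∀ u ∈ U, ∀ f0 f1 f2 : Dual (ZMod q) V, ∀ v0 v1 v2 : V,
      DualSys ![f0, f1, f2] ![v0, v1, v2] → Lline ζ f0 f1 f1 f2 v0 v1 (valF u) = 0
  · exact Or.inl fun u hu => mem_W0F_of_Lline ζ hζ hqk hn hq5 u (hcase u hu)
  right
  push Not at hcase
  obtain ⟨u, hu, f0, f1, f2, v0, v1, v2, hsys, hL⟩ := hcase
  have hs : ∀ i j, (![f0, f1, f2] i) (![v0, v1, v2] j) = if i = j then 1 else 0 := hsys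
  have h00 : f0 v0 = 1 := by simpa using hs 0 0
  have h01 : f0 v1 = 0 := by simpa using hs 0 1
  have h10 : f1 v0 = 0 := by simpa using hs 1 0
  have h11 : f1 v1 = 1 := by simpa using hs 1 1
  have hv0 : v0 ≠ 0 := by
    rintro rfl
    simp at h00
  have hv1 : v1 ≠ 0 := by
    rintro rfl
    simp at h11
  have hv01 : v0 ∉ Submodule.span (ZMod q) {v1} := by
    intro h
    obtain ⟨c, hc⟩ := Submodule.mem_span_singleton.1 h
    rw [← hc, map_smul, h01, smul_zero] at h00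
    exact zero_ne_one h00
  set ω0 : Fl q V := ⟨(mkP v0 hv0, mkL v0 v1 hv1 hv01), span_single_le_pair v0 v1⟩ with hω0
  have horb1 : ∀ (h κ : V) (hh : f0 h = 0) (_ : f0 κ = 0) (hκ : f1 κ = 0),
      (tv f0 h hh • (tv f1 κ hκ • ω0)).1.1.1 = Submodule.span (ZMod q) {v0 + h} := by
    intro h κ hh hκ0 hκ
    rw [Fl.smul_pt, Fl.smul_pt, Pt.smul_coe, Pt.smul_coe]
    show Submodule.map _ (Submodule.map _ (Submodule.span (ZMod q) {v0})) = _
    rw [map_span_single, map_span_single]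
    simp only [tv_apply, h10, h00, zero_smul, one_smul, add_zero]
  have horb2 : ∀ (h κ : V) (hh : f0 h = 0) (_ : f0 κ = 0) (hκ : f1 κ = 0),
      (tv f0 h hh • (tv f1 κ hκ • ω0)).1.2.1 = Submodule.span (ZMod q) {v0 + h, v1 + κ} := by
    intro h κ hh hκ0 hκ
    rw [Fl.smul_ln, Fl.smul_ln, Ln.smul_coe, Ln.smul_coe]
    show Submodule.map _ (Submodule.map _ (Submodule.span (ZMod q) {v0, v1})) = _
    rw [map_span_pair, map_span_pair]
    simp only [tv_apply, h10, h11, h00, h01, hκ0, zero_smul, one_smul, add_zero, map_add]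
  have hLavg : ∀ (ξ : AddChar (ZMod q) k) (w : Fl q V → k),
      avg ξ f0 f1 f1 f2 w ω0 = Lline ξ f0 f1 f1 f2 v0 v1 (valF w) := by
    intro ξ w
    unfold avg Lline
    refine Finset.sum_congr rfl fun κ _ => Finset.sum_congr rfl fun h _ => ?_
    rw [valF_of_eq w (horb1 h κ (LinearMap.mem_ker.1 h.2) (LinearMap.mem_ker.1 κ.2.1.1)
      (LinearMap.mem_ker.1 κ.2.2)) (horb2 h κ (LinearMap.mem_ker.1 h.2)
      (LinearMap.mem_ker.1 κ.2.1.1) (LinearMap.mem_ker.1 κ.2.2))]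
  have hort : ∀ w ∈ perp U, Lline ζ⁻¹ f0 f1 f1 f2 v0 v1 (valF w) = 0 := by
    intro w hw
    have hy : avg ζ f0 f1 f1 f2 u ∈ U := avg_mem ζ f0 f1 f1 f2 hU hu
    have hy' : avg ζ⁻¹ f0 f1 f1 f2 w ∈ perp U := avg_mem ζ⁻¹ f0 f1 f1 f2 (invt_perp hU) hw
    have h3 := (mem_perp U _).1 hy' _ hy
    let ι := ↥(LinearMap.ker f0) × ↥(LinearMap.ker f0 ⊓ LinearMap.ker f1 ⊓ LinearMap.ker f1)
    let emb : ι → Fl q V := fun i =>
      tv f0 (i.1 : V) (LinearMap.mem_ker.1 i.1.2) •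
        (tv f1 (i.2 : V) (LinearMap.mem_ker.1 i.2.2.2) • ω0)
    have hemb1 : ∀ i : ι, (emb i).1.1.1 = Submodule.span (ZMod q) {v0 + (i.1 : V)} :=
      fun i => horb1 _ _ _ (LinearMap.mem_ker.1 i.2.2.1.1) _
    have hemb2 : ∀ i : ι, (emb i).1.2.1 =
        Submodule.span (ZMod q) {v0 + (i.1 : V), v1 + (i.2 : V)} :=
      fun i => horb2 _ _ _ (LinearMap.mem_ker.1 i.2.2.1.1) _
    have h4 := orth_eval (k := k) (Ω := Fl q V) emb ?_ ?_ _ _ ?_
      (avg ζ f0 f1 f1 f2 u ω0 * avg ζ⁻¹ f0 f1 f1 f2 w ω0) ?_ h3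
    · rw [hLavg, hLavg] at h4
      exact (mul_eq_zero.1 h4).resolve_left hL
    · -- injectivity
      rintro ⟨h, κ⟩ ⟨h', κ'⟩ heq
      have h5 : Submodule.span (ZMod q) {v0 + (h : V)} =
          Submodule.span (ZMod q) {v0 + (h' : V)} := by
        rw [← hemb1 (h, κ), ← hemb1 (h', κ'), heq]
      have h5' : Submodule.span (ZMod q) {v0 + (h : V), v1 + (κ : V)} =
          Submodule.span (ZMod q) {v0 + (h' : V), v1 + (κ' : V)} := by
        rw [← hemb2 (h, κ), ← hemb2 (h', κ'), heq]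
      have g0h : f0 h = 0 := LinearMap.mem_ker.1 h.2
      have g0h' : f0 h' = 0 := LinearMap.mem_ker.1 h'.2
      have g0κ : f0 κ = 0 := LinearMap.mem_ker.1 κ.2.1.1
      have g1κ : f1 κ = 0 := LinearMap.mem_ker.1 κ.2.2
      have g0κ' : f0 κ' = 0 := LinearMap.mem_ker.1 κ'.2.1.1
      have g1κ' : f1 κ' = 0 := LinearMap.mem_ker.1 κ'.2.2
      have h6 : v0 + (h : V) ∈ Submodule.span (ZMod q) {v0 + (h' : V)} := by
        rw [← h5]; exact Submodule.mem_span_singleton_self _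
      have h7 : v1 + (κ : V) ∈ Submodule.span (ZMod q) {v0 + (h' : V), v1 + (κ' : V)} := by
        rw [← h5']; exact mem_span_pair_right _ _
      obtain ⟨α, hα⟩ := Submodule.mem_span_singleton.1 h6
      obtain ⟨γ, δ, hγδ⟩ := Submodule.mem_span_pair.1 h7
      have hα1 : α = 1 := by
        have := congrArg f0 hα
        simpa [g0h, g0h', h00] using this
      have hγ : γ = 0 := by
        have := congrArg f0 hγδ
        simpa [g0h', g0κ, g0κ', h00, h01] using this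
      rw [hα1, one_smul] at hα
      rw [hγ, zero_smul, zero_add] at hγδ
      have hδ : δ = 1 := by
        have := congrArg f1 hγδ
        simpa [g1κ, g1κ', h11] using this
      rw [hδ, one_smul] at hγδ
      have e1 : h' = h := Subtype.ext (add_left_cancel hα)
      have e2 : κ' = κ := Subtype.ext (add_left_cancel hγδ)
      rw [e1, e2]
    · -- cardinality
      have hc1 : Nat.card ι = q ^ finrank (ZMod q) ι := by
        rw [Module.natCard_eq_pow_finrank (K := ZMod q), Nat.card_zmod]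
      rw [hc1]
      push_cast
      exact pow_ne_zero _ hqk
    · -- support
      intro ω hω
      obtain ⟨h, κ, g0, k0, k1, hl1, hl2⟩ := eig_support_flags ζ hζ hsys
        (avg ζ f0 f1 f1 f2 u) (fun h hh ω => avg_tv ζ f0 f1 f1 f2 u ω h hh)
        (fun κ a b ω => avg_cv ζ f0 f1 f1 f2 u ω κ a b b) ω hω
      refine ⟨(⟨h, LinearMap.mem_ker.2 g0⟩,
        ⟨κ, ⟨⟨LinearMap.mem_ker.2 k0, LinearMap.mem_ker.2 k1⟩, LinearMap.mem_ker.2 k1⟩⟩), ?_⟩
      apply Fl.ext
      · rw [hemb1, hl1]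
      · rw [hemb2, hl2]
    · -- constancy
      rintro ⟨h, κ⟩
      show avg ζ f0 f1 f1 f2 u (tv f0 (h : V) _ • (tv f1 (κ : V) _ • ω0)) *
        avg ζ⁻¹ f0 f1 f1 f2 w (tv f0 (h : V) _ • (tv f1 (κ : V) _ • ω0)) = _
      rw [avg_tv, avg_tv, avg_cv _ _ _ _ _ _ _ _ (LinearMap.mem_ker.1 κ.2.1.1)
        (LinearMap.mem_ker.1 κ.2.1.2), avg_cv _ _ _ _ _ _ _ _ (LinearMap.mem_ker.1 κ.2.1.1)
        (LinearMap.mem_ker.1 κ.2.1.2)]
      rw [AddChar.inv_apply, AddChar.inv_apply, neg_neg, neg_neg]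
      have e1 : ∀ x : ZMod q, ζ (-x) * ζ x = 1 := by
        intro x
        rw [← AddChar.map_add_eq_mul, neg_add_cancel, AddChar.map_zero_eq_one]
      linear_combination (ζ (-(f2 (κ : V))) * ζ (f2 (κ : V)) * avg ζ f0 f1 f1 f2 u ω0 *
        avg ζ⁻¹ f0 f1 f1 f2 w ω0) * e1 (f1 (h : V)) +
        (avg ζ f0 f1 f1 f2 u ω0 * avg ζ⁻¹ f0 f1 f1 f2 w ω0) * e1 (f2 (κ : V))
  have hperp : perp U ≤ W0F k q V := by
    intro w hw
    refine mem_W0F_of_Lline ζ⁻¹ ?_ hqk hn hq5 w ?_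
    · rw [AddChar.inv_apply]
      exact zeta_neg_one_ne ζ hζ
    · intro f0' f1' f2' v0' v1' v2' hsys'
      obtain ⟨g, hg1, hg2⟩ := exists_aut_of_dualSys hsys hsys'
      have hgv0 : g v0 = v0' := by simpa using hg1 0
      have hgv1 : g v1 = v1' := by simpa using hg1 1
      have hgf0 : ∀ x, f0' (g x) = f0 x := fun x => by simpa using hg2 0 x
      have hgf1 : ∀ x, f1' (g x) = f1 x := fun x => by simpa using hg2 1 x
      have hgf2 : ∀ x, f2' (g x) = f2 x := fun x => by simpa using hg2 2 x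
      rw [Lline_transport ζ⁻¹ f0 f1 f1 f2 f0' f1' f1' f2' v0 v1 v0' v1' g hgf0 hgf1 hgf1 hgf2
        hgv0 hgv1]
      have h8 : (fun a b => valF w (g a) (g b)) = valF (fun l => w (g • l)) := by
        ext a b
        exact valF_smul w g a b
      rw [h8]
      exact hort _ (invt_perp hU g w hw)
  have := perp_anti hperp
  rwa [perp_perp] at this

end

end Pool.Agent.Helper255.PPart
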