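import Pool.Agent.Helper255.PPart.Lines

/-!
Dimension of the irreducible section of the permutation module on lines.
-/

namespace Pool.Agent.Helper255.PPart

open Module

attribute [local instance 10] Fintype.ofFinite

noncomputable section

universe u

theorem finrank_inf_range {k A B : Type*} [Field k] [AddCommGroup A] [Module k A]
    [AddCommGroup B] [Module k B] [FiniteDimensional k A] (T : A →ₗ[k] B) (S : Submodule k B) :
    finrank k (S ⊓ LinearMap.range T : Submodule k B) + finrank k (LinearMap.ker T) =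
      finrank k (S.comap T) := by
  have h := LinearMap.finrank_range_add_finrank_ker (T.domRestrict (S.comap T))
  have h1 : LinearMap.range (T.domRestrict (S.comap T)) = S ⊓ LinearMap.range T := by
    ext x
    constructor
    · rintro ⟨⟨y, hy⟩, rfl⟩
      exact ⟨hy, ⟨y, rfl⟩⟩
    · rintro ⟨hx, ⟨y, rfl⟩⟩
      exact ⟨⟨y, hx⟩, rfl⟩
  have h2 : LinearMap.ker T ≤ S.comap T := by
    intro x hx
    rw [Submodule.mem_comap, LinearMap.mem_ker.1 hx]
    exact S.zero_mem
  have h3 : finrank k (LinearMap.ker (T.domRestrict (S.comap T))) = finrank k (LinearMap.ker T) := by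
    rw [LinearMap.ker_domRestrict]
    exact LinearEquiv.finrank_eq (Submodule.submoduleOfEquivOfLe h2)
  rw [h1, h3] at h
  exact h

variable {q : ℕ} [Fact q.Prime] {k : Type u} [Field k]
variable {V : Type} [AddCommGroup V] [Module (ZMod q) V]

/-- Extension of a function on points to vectors. -/
def valP (y : Pt q V → k) (v : V) : k := by
  classical
  exact if hv : v ≠ 0 then y (mkP v hv) else 0

theorem valP_of_ne (y : Pt q V → k) {v : V} (hv : v ≠ 0) : valP y v = y (mkP v hv) := by
  unfold valP
  rw [dif_pos hv]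

variable [Finite V]

theorem exists_notMem_pair (hn : 3 ≤ finrank (ZMod q) V) (a b : V) :
    ∃ c : V, c ∉ Submodule.span (ZMod q) {a, b} := by
  classical
  by_contra hcon
  push Not at hcon
  have h5 : finrank (ZMod q) (Submodule.span (ZMod q) {a, b}) ≤ 2 := by
    have := finrank_span_finset_le_card (R := ZMod q) ({a, b} : Finset V)
    rw [Finset.coe_pair] at this
    exact this.trans Finset.card_le_two
  rw [(Submodule.eq_top_iff').2 hcon, finrank_top] at h5
  omega

omit [Finite V] in
theorem exists_dual_one_one_zero {a b c : V} (hb : b ≠ 0)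
    (hab : a ∉ Submodule.span (ZMod q) {b}) (hc : c ∉ Submodule.span (ZMod q) {a, b}) :
    ∃ f : Dual (ZMod q) V, f a = 1 ∧ f b = 1 ∧ f c = 0 := by
  have hb' : (Submodule.span (ZMod q) {c}).mkQ b ≠ 0 := by
    rw [Ne, ← LinearMap.mem_ker, Submodule.ker_mkQ]
    intro h
    obtain ⟨s, hs⟩ := Submodule.mem_span_singleton.1 h
    have hs0 : s ≠ 0 := by
      rintro rfl
      exact hb (by simpa using hs.symm)
    apply hc
    have : c = s⁻¹ • b := by rw [← hs, smul_smul, inv_mul_cancel₀ hs0, one_smul]
    rw [this]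
    exact Submodule.smul_mem _ _ (mem_span_pair_right a b)
  have hab' : (Submodule.span (ZMod q) {c}).mkQ a ∉
      Submodule.span (ZMod q) {(Submodule.span (ZMod q) {c}).mkQ b} := by
    intro h
    obtain ⟨s, hs⟩ := Submodule.mem_span_singleton.1 h
    have h1 : (Submodule.span (ZMod q) {c}).mkQ (a - s • b) = 0 := by
      rw [map_sub, map_smul, hs, sub_self]
    rw [← LinearMap.mem_ker, Submodule.ker_mkQ] at h1
    obtain ⟨r, hr⟩ := Submodule.mem_span_singleton.1 h1
    by_cases hr0 : r = 0
    · rw [hr0, zero_smul, eq_comm, sub_eq_zero] at hr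
      apply hab
      rw [hr]
      exact Submodule.smul_mem _ _ (Submodule.mem_span_singleton_self b)
    · apply hc
      have : c = r⁻¹ • (a - s • b) := by rw [← hr, smul_smul, inv_mul_cancel₀ hr0, one_smul]
      rw [this]
      exact Submodule.smul_mem _ _ (Submodule.sub_mem _ (mem_span_pair_left a b)
        (Submodule.smul_mem _ _ (mem_span_pair_right a b)))
  obtain ⟨f, h1, h2⟩ := exists_dual_pair_one hb' hab'
  refine ⟨f ∘ₗ (Submodule.span (ZMod q) {c}).mkQ, h2, h1, ?_⟩
  have h5 : (Submodule.span (ZMod q) {c}).mkQ c = 0 := by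
    rw [← LinearMap.mem_ker, Submodule.ker_mkQ]
    exact Submodule.mem_span_singleton_self _
  rw [LinearMap.comp_apply, h5, map_zero]

/-- A function on points with constant line sums is constant. -/
theorem const_of_line_sums (hqk : (q : k) ≠ 0) (hn : 3 ≤ finrank (ZMod q) V) (y : Pt q V → k)
    (t : k) (h : ∀ l : Ln q V, ∑ P : Pt q V, inc k P l * y P = t) (P Q : Pt q V) : y P = y Q := by
  by_cases hPQ : P = Q
  · rw [hPQ]
  obtain ⟨a, ha, rfl⟩ := P.exists_rep
  obtain ⟨b, hb, rfl⟩ := Q.exists_rep
  have hab : a ∉ Submodule.span (ZMod q) {b} := fun h' => hPQ ((mkP_eq_iff ha hb).2 h')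
  obtain ⟨c, hc⟩ := exists_notMem_pair hn a b
  obtain ⟨f, hfa, hfb, hfc⟩ := exists_dual_one_one_zero hb hab hc
  have hc0 : c ≠ 0 := by
    rintro rfl
    exact hc (Submodule.zero_mem _)
  set w : Ln q V → k := fun l => ∑ P : Pt q V, inc k P l * y P with hw
  have hA := pairFun_valL (k := k) w
  have hval : ∀ x ρ : V, ρ ≠ 0 → x ∉ Submodule.span (ZMod q) {ρ} → valL w x ρ = t := by
    intro x ρ hρ hx
    rw [valL_mkL w hρ hx]
    exact h _
  have hgd : ∀ x ρ : V, f x = 1 → f ρ = 0 → ρ ≠ 0 →
      valL w x ρ = valP y ρ + ∑ s : ZMod q, valP y (x + s • ρ) := by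
    intro x ρ hx hρ hρ0
    have hxρ : x ∉ Submodule.span (ZMod q) {ρ} := by
      intro h'
      obtain ⟨s, hs⟩ := Submodule.mem_span_singleton.1 h'
      rw [← hs, map_smul, hρ, smul_zero] at hx
      exact zero_ne_one hx
    rw [valL_mkL w hρ0 hxρ, hw]
    simp only
    rw [sum_points_on_line y hρ0 hxρ, valP_of_ne y hρ0]
    congr 1
    exact Finset.sum_congr rfl fun s _ => (valP_of_ne y (add_smul_ne_zero hxρ s)).symm
  have hne : ∀ s : ZMod q, (b - a) + s • c ≠ 0 := by
    intro s hs
    by_cases hs0 : s = 0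
    · rw [hs0, zero_smul, add_zero, sub_eq_zero] at hs
      apply hab
      rw [hs]
      exact Submodule.mem_span_singleton_self _
    · apply hc
      have : c = s⁻¹ • (a - b) := by
        have h2 : s • c = a - b := by
          rw [eq_sub_iff_add_eq, ← sub_eq_zero, ← hs]
          abel
        rw [← h2, smul_smul, inv_mul_cancel₀ hs0, one_smul]
      rw [this]
      exact Submodule.smul_mem _ _ (Submodule.sub_mem _ (mem_span_pair_left a b)
        (mem_span_pair_right a b))
  have key := DD_eq hA f (valP y) (valP y) hgd hfa hfb hfc hc0 hne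
  -- all the values in `DD` are `t`
  have hnot : ∀ x z : V, f x = 1 → z ∉ Submodule.span (ZMod q) {x, c} →
      ∀ s : ZMod q, z + s • c ≠ 0 ∧ x ∉ Submodule.span (ZMod q) {z + s • c} := by
    intro x z hx hz s
    have h0 : z + s • c ≠ 0 := by
      intro h0
      apply hz
      rw [add_eq_zero_iff_eq_neg] at h0
      rw [h0]
      exact Submodule.neg_mem _ (Submodule.smul_mem _ _ (mem_span_pair_right x c))
    refine ⟨h0, fun h' => ?_⟩
    obtain ⟨r, hr⟩ := Submodule.mem_span_singleton.1 h'
    have hr0 : r ≠ 0 := by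
      rintro rfl
      rw [zero_smul] at hr
      rw [← hr, map_zero] at hx
      exact zero_ne_one hx
    apply hz
    have : z = r⁻¹ • x - s • c := by
      rw [← hr, smul_smul, inv_mul_cancel₀ hr0, one_smul]
      abel
    rw [this]
    exact Submodule.sub_mem _ (Submodule.smul_mem _ _ (mem_span_pair_left x c))
      (Submodule.smul_mem _ _ (mem_span_pair_right x c))
  have hcx : ∀ x : V, f x = 1 → x ∉ Submodule.span (ZMod q) {c} := by
    intro x hx h'
    obtain ⟨s, hs⟩ := Submodule.mem_span_singleton.1 h'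
    rw [← hs, map_smul, hfc, smul_zero] at hx
    exact zero_ne_one hx
  have hbac : b ∉ Submodule.span (ZMod q) {a, c} := by
    intro h'
    obtain ⟨α, β, hαβ⟩ := Submodule.mem_span_pair.1 h'
    by_cases hβ : β = 0
    · rw [hβ, zero_smul, add_zero] at hαβ
      have hα : α ≠ 0 := by
        rintro rfl
        rw [zero_smul] at hαβ
        exact hb hαβ.symm
      apply hab
      refine Submodule.mem_span_singleton.2 ⟨α⁻¹, ?_⟩
      rw [← hαβ, smul_smul, inv_mul_cancel₀ hα, one_smul]
    · apply hc
      have : c = β⁻¹ • (b - α • a) := by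
        rw [← hαβ, add_sub_cancel_left, smul_smul, inv_mul_cancel₀ hβ, one_smul]
      rw [this]
      exact Submodule.smul_mem _ _ (Submodule.sub_mem _ (mem_span_pair_right a b)
        (Submodule.smul_mem _ _ (mem_span_pair_left a b)))
  have habc : a ∉ Submodule.span (ZMod q) {b, c} := by
    intro h'
    obtain ⟨α, β, hαβ⟩ := Submodule.mem_span_pair.1 h'
    by_cases hβ : β = 0
    · rw [hβ, zero_smul, add_zero] at hαβ
      apply hab
      rw [← hαβ]
      exact Submodule.smul_mem _ _ (Submodule.mem_span_singleton_self b)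
    · apply hc
      have : c = β⁻¹ • (a - α • b) := by
        rw [← hαβ, add_sub_cancel_left, smul_smul, inv_mul_cancel₀ hβ, one_smul]
      rw [this]
      exact Submodule.smul_mem _ _ (Submodule.sub_mem _ (mem_span_pair_left a b)
        (Submodule.smul_mem _ _ (mem_span_pair_right a b)))
  have hDD : DD q (valL w) a b c = 0 := by
    unfold DD
    rw [hval a c hc0 (hcx a hfa), hval b c hc0 (hcx b hfb),
      Finset.sum_congr rfl fun s _ => hval a (b + s • c) (hnot a b hfa hbac s).1
        (hnot a b hfa hbac s).2,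
      Finset.sum_congr rfl fun s _ => hval b (a + s • c) (hnot b a hfb habc s).1
        (hnot b a hfb habc s).2, sub_self]
  rw [hDD] at key
  have h9 := (mul_eq_zero.1 key.symm).resolve_left hqk
  rw [valP_of_ne y ha, valP_of_ne y hb, sub_eq_zero] at h9
  exact h9

theorem exists_two_points (hn : 2 ≤ finrank (ZMod q) V) : ∃ (b : V) (_ : b ≠ 0) (a : V),
    a ∉ Submodule.span (ZMod q) {b} := by
  have hnt : Nontrivial V := by
    apply Module.nontrivial_of_finrank_pos (R := ZMod q)
    omega
  obtain ⟨b, hb⟩ := exists_ne (0 : V)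
  refine ⟨b, hb, ?_⟩
  by_contra hcon
  push Not at hcon
  have h1 := finrank_span_singleton_le_one (q := q) b
  rw [(Submodule.eq_top_iff').2 hcon, finrank_top] at h1
  omega

theorem sum_inc_line_k (l : Ln q V) : ∑ P : Pt q V, inc k P l = (q : k) + 1 := by
  have h := congrArg (Nat.cast (R := k)) (sum_inc_line l)
  push_cast at h
  simpa only [inc_cast] using h

theorem sum_inc_point_k (P : Pt q V) :
    ∑ l : Ln q V, inc k P l = ((∑ i ∈ Finset.range (finrank (ZMod q) V - 1), q ^ i : ℕ) : k) := by
  have h := congrArg (Nat.cast (R := k)) (sum_inc_point P)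
  rw [← h, Nat.cast_sum]
  simp only [inc_cast]

theorem sum_inc_inc_k (P Q : Pt q V) (h : P ≠ Q) :
    ∑ l : Ln q V, inc k P l * inc k Q l = 1 := by
  have h := congrArg (Nat.cast (R := k)) (sum_inc_inc_one P Q h)
  push_cast at h
  simpa only [inc_cast] using h

theorem inc_mul_self_k (P : Pt q V) (l : Ln q V) : inc k P l * inc k P l = inc k P l := by
  by_cases h : P.1 ≤ l.1
  · simp [inc_of_le h]
  · simp [inc_of_not_le h]

/-- Summing the line sums over the lines through a point. -/
theorem sum_inc_lineSum (y : Pt q V → k) (P : Pt q V) :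
    ∑ l : Ln q V, inc k P l * ∑ Q : Pt q V, inc k Q l * y Q =
      (((∑ i ∈ Finset.range (finrank (ZMod q) V - 1), q ^ i : ℕ) : k) - 1) * y P +
        ∑ Q : Pt q V, y Q := by
  classical
  have h1 : ∑ l : Ln q V, inc k P l * ∑ Q : Pt q V, inc k Q l * y Q =
      ∑ Q : Pt q V, (∑ l : Ln q V, inc k P l * inc k Q l) * y Q := by
    simp_rw [Finset.mul_sum, Finset.sum_mul]
    rw [Finset.sum_comm]
    refine Finset.sum_congr rfl fun Q _ => Finset.sum_congr rfl fun l _ => by ring
  have h2 : ∑ Q ∈ (Finset.univ : Finset (Pt q V)).erase P,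
      (∑ l : Ln q V, inc k P l * inc k Q l) * y Q =
        ∑ Q ∈ (Finset.univ : Finset (Pt q V)).erase P, y Q := by
    refine Finset.sum_congr rfl fun Q hQ => ?_
    rw [sum_inc_inc_k P Q (Finset.ne_of_mem_erase hQ).symm, one_mul]
  rw [h1, ← Finset.add_sum_erase _ _ (Finset.mem_univ P), h2,
    ← Finset.add_sum_erase _ y (Finset.mem_univ P),
    Finset.sum_congr rfl fun l _ => inc_mul_self_k P l, sum_inc_point_k]
  ring

theorem ker_TL (hqk : (q : k) ≠ 0) (hn : 3 ≤ finrank (ZMod q) V) :
    finrank k (LinearMap.ker (TL k q V)) = 1 := by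
  obtain ⟨b, hb, a, hab⟩ := exists_two_points (q := q) (V := V) (by omega)
  have h1 : LinearMap.ker (TL k q V) = Submodule.span k {((fun _ => 1, -((q : k) + 1)) :
      (Pt q V → k) × k)} := by
    ext z
    rw [LinearMap.mem_ker, Submodule.mem_span_singleton]
    constructor
    · intro hz
      have hz' : ∀ l : Ln q V, ∑ P : Pt q V, inc k P l * z.1 P = - z.2 := by
        intro l
        have := congrFun hz l
        rw [TL_apply] at this
        exact add_eq_zero_iff_eq_neg.1 this
      have hconst := const_of_line_sums hqk hn z.1 _ hz'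
      set c := z.1 (mkP b hb) with hc
      have hz1 : ∀ P, z.1 P = c := fun P => hconst P _
      have h2 := hz' (mkL a b hb hab)
      simp only [hz1] at h2
      rw [← Finset.sum_mul, sum_inc_line_k] at h2
      refine ⟨c, ?_⟩
      ext P
      · simp [hz1]
      · simp only [Prod.smul_mk, smul_eq_mul]
        linear_combination -h2
    · rintro ⟨c, rfl⟩
      ext l
      rw [TL_apply]
      simp only [Prod.smul_fst, Prod.smul_snd, Pi.smul_apply, smul_eq_mul, mul_one, Pi.zero_apply]
      rw [← Finset.sum_mul, sum_inc_line_k]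
      ring
  rw [h1, finrank_span_singleton]
  intro h
  have := congrFun (congrArg Prod.fst h) (mkP b hb)
  exact one_ne_zero this

theorem finrank_W0L (hqk : (q : k) ≠ 0) (hn : 3 ≤ finrank (ZMod q) V) :
    finrank k (W0L k q V) = Fintype.card (Pt q V) := by
  have h := LinearMap.finrank_range_add_finrank_ker (TL k q V)
  rw [ker_TL hqk hn, Module.finrank_prod, Module.finrank_fintype_fun_eq_card, Module.finrank_self]
    at h
  unfold W0L
  omega

theorem TL_mem_perp_iff (z : (Pt q V → k) × k) :
    TL k q V z ∈ perp (W0L k q V) ↔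
      (∀ P : Pt q V, (((∑ i ∈ Finset.range (finrank (ZMod q) V - 1), q ^ i : ℕ) : k) - 1) * z.1 P +
        ∑ Q : Pt q V, z.1 Q +
          ((∑ i ∈ Finset.range (finrank (ZMod q) V - 1), q ^ i : ℕ) : k) * z.2 = 0) ∧
      ((∑ i ∈ Finset.range (finrank (ZMod q) V - 1), q ^ i : ℕ) : k) * ∑ Q : Pt q V, z.1 Q +
        (Fintype.card (Ln q V) : k) * z.2 = 0 := by
  classical
  set r : k := ((∑ i ∈ Finset.range (finrank (ZMod q) V - 1), q ^ i : ℕ) : k) with hr
  have hE : ∀ P : Pt q V, ∑ l : Ln q V, inc k P l * TL k q V z l =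
      (r - 1) * z.1 P + ∑ Q : Pt q V, z.1 Q + r * z.2 := by
    intro P
    simp only [TL_apply, mul_add, Finset.sum_add_distrib]
    rw [sum_inc_lineSum, ← Finset.sum_mul, sum_inc_point_k]
  have hF : ∑ l : Ln q V, TL k q V z l = r * ∑ Q : Pt q V, z.1 Q + (Fintype.card (Ln q V) : k) * z.2 := by
    simp only [TL_apply, Finset.sum_add_distrib]
    rw [Finset.sum_comm]
    simp only [← Finset.sum_mul, sum_inc_point_k, ← hr]
    rw [← Finset.mul_sum]
    simp
  rw [mem_perp]
  constructor
  · intro h
    constructor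
    · intro P
      rw [← hE]
      have := h (TL k q V (Pi.single P 1, 0)) ⟨_, rfl⟩
      rw [← this]
      refine Finset.sum_congr rfl fun l _ => ?_
      rw [TL_apply (Pi.single P 1, 0)]
      simp [Pi.single_apply]
    · rw [← hF]
      have := h (TL k q V (0, 1)) ⟨_, rfl⟩
      rw [← this]
      refine Finset.sum_congr rfl fun l _ => ?_
      rw [TL_apply (0, 1)]
      simp
  · rintro ⟨h1, h2⟩ _ ⟨z', rfl⟩
    have h3 : ∑ l : Ln q V, TL k q V z' l * TL k q V z l =
        ∑ P : Pt q V, z'.1 P * (∑ l : Ln q V, inc k P l * TL k q V z l) +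
          z'.2 * ∑ l : Ln q V, TL k q V z l := by
      simp_rw [TL_apply z', add_mul, Finset.sum_add_distrib, Finset.sum_mul, Finset.mul_sum]
      rw [Finset.sum_comm]
      congr 1
      refine Finset.sum_congr rfl fun P _ => Finset.sum_congr rfl fun l _ => by ring
    rw [h3, hF, h2, mul_zero, add_zero]
    refine Finset.sum_eq_zero fun P _ => ?_
    rw [hE, h1, mul_zero]

end

end Pool.Agent.Helper255.PPart
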