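import Pool.Agent.Helper255.PPart.Flags
import Pool.Agent.Helper255.PPart.LinesDim

/-!
Dimension of the irreducible section of the permutation module on flags.
-/

namespace Pool.Agent.Helper255.PPart

open Module

attribute [local instance 10] Fintype.ofFinite

noncomputable section

universe u

variable {q : ℕ} [Fact q.Prime] {k : Type u} [Field k]
variable {V : Type} [AddCommGroup V] [Module (ZMod q) V] [Finite V]

theorem sum_Fl {M : Type*} [Semiring M] (F : Pt q V → Ln q V → M) :
    ∑ ω : Fl q V, F ω.1.1 ω.1.2 = ∑ P : Pt q V, ∑ l : Ln q V, inc M P l * F P l := by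
  classical
  have h1 : ∑ ω : Fl q V, F ω.1.1 ω.1.2 =
      ∑ x ∈ (Finset.univ : Finset (Pt q V × Ln q V)).filter (fun x => x.1.1 ≤ x.2.1), F x.1 x.2 := by
    rw [Finset.sum_subtype (p := fun x : Pt q V × Ln q V => x.1.1 ≤ x.2.1)
      (F := (Fintype.ofFinite (Fl q V) : Fintype (Fl q V)))
      (Finset.univ.filter fun x : Pt q V × Ln q V => x.1.1 ≤ x.2.1) (by simp)
      (fun x => F x.1 x.2)]
    rfl
  rw [h1, Finset.sum_filter, ← Finset.univ_product_univ, Finset.sum_product]
  refine Finset.sum_congr rfl fun P _ => Finset.sum_congr rfl fun l _ => ?_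
  by_cases h : P.1 ≤ l.1
  · simp only [h, if_true, inc_of_le h, one_mul]
  · simp only [h, if_false, inc_of_not_le h, zero_mul]

theorem card_Fl : Fintype.card (Fl q V) = Fintype.card (Ln q V) * (q + 1) := by
  have h := sum_Fl (q := q) (V := V) (M := ℕ) (fun _ _ => 1)
  rw [Finset.sum_comm] at h
  simp only [mul_one] at h
  rw [Finset.sum_congr rfl fun l _ => sum_inc_line l] at h
  simpa using h

theorem ker_TF (hn : 2 ≤ finrank (ZMod q) V) : finrank k (LinearMap.ker (TF k q V)) = 1 := by
  obtain ⟨b0, hb0, a0, hab0⟩ := exists_two_points (q := q) (V := V) hn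
  have h1 : LinearMap.ker (TF k q V) = Submodule.span k {((fun _ => 1, fun _ => -1) :
      (Pt q V → k) × (Ln q V → k))} := by
    ext z
    rw [LinearMap.mem_ker, Submodule.mem_span_singleton]
    constructor
    · intro hz
      have hz' : ∀ ω : Fl q V, z.1 ω.1.1 + z.2 ω.1.2 = 0 := fun ω => congrFun hz ω
      have hconst : ∀ P Q : Pt q V, z.1 P = z.1 Q := by
        intro P Q
        by_cases hPQ : P = Q
        · rw [hPQ]
        obtain ⟨a, ha, rfl⟩ := P.exists_rep
        obtain ⟨b, hb, rfl⟩ := Q.exists_rep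
        have hab : a ∉ Submodule.span (ZMod q) {b} := fun h' => hPQ ((mkP_eq_iff ha hb).2 h')
        have e1 := hz' ⟨(mkP a ha, mkL a b hb hab), (mkP_le_iff ha _).2 (mem_span_pair_left a b)⟩
        have e2 := hz' ⟨(mkP b hb, mkL a b hb hab), (mkP_le_iff hb _).2 (mem_span_pair_right a b)⟩
        simp only at e1 e2
        linear_combination e1 - e2
      set c := z.1 (mkP b0 hb0) with hc
      refine ⟨c, ?_⟩
      refine Prod.ext ?_ ?_
      · ext P
        simp [hconst P (mkP b0 hb0), hc]
      · ext l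
        obtain ⟨b, hb, hb0'⟩ := l.exists_ne_zero
        have e1 := hz' ⟨(mkP b hb0', l), (mkP_le_iff hb0' _).2 hb⟩
        simp only at e1
        rw [hconst (mkP b hb0') (mkP b0 hb0), ← hc] at e1
        simp only [Prod.smul_mk, Pi.smul_apply, smul_eq_mul]
        linear_combination -e1
    · rintro ⟨c, rfl⟩
      ext ω
      rw [TF_apply]
      simp
  rw [h1, finrank_span_singleton]
  intro h
  have := congrFun (congrArg Prod.fst h) (mkP b0 hb0)
  exact one_ne_zero this

theorem finrank_W0F (hn : 2 ≤ finrank (ZMod q) V) :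
    finrank k (W0F k q V) + 1 = Fintype.card (Pt q V) + Fintype.card (Ln q V) := by
  have h := LinearMap.finrank_range_add_finrank_ker (TF k q V)
  rw [ker_TF hn, Module.finrank_prod, Module.finrank_fintype_fun_eq_card,
    Module.finrank_fintype_fun_eq_card] at h
  exact h

theorem TF_mem_perp_iff (z : (Pt q V → k) × (Ln q V → k)) :
    TF k q V z ∈ perp (W0F k q V) ↔
      (∀ P : Pt q V, ((∑ i ∈ Finset.range (finrank (ZMod q) V - 1), q ^ i : ℕ) : k) * z.1 P +
        ∑ l : Ln q V, inc k P l * z.2 l = 0) ∧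
      (∀ l : Ln q V, ∑ P : Pt q V, inc k P l * z.1 P + ((q : k) + 1) * z.2 l = 0) := by
  classical
  have hE : ∀ P : Pt q V, ∑ l : Ln q V, inc k P l * (z.1 P + z.2 l) =
      ((∑ i ∈ Finset.range (finrank (ZMod q) V - 1), q ^ i : ℕ) : k) * z.1 P +
        ∑ l : Ln q V, inc k P l * z.2 l := by
    intro P
    simp only [mul_add, Finset.sum_add_distrib]
    rw [← Finset.sum_mul, sum_inc_point_k]
  have hF : ∀ l : Ln q V, ∑ P : Pt q V, inc k P l * (z.1 P + z.2 l) =
      ∑ P : Pt q V, inc k P l * z.1 P + ((q : k) + 1) * z.2 l := by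
    intro l
    simp only [mul_add, Finset.sum_add_distrib]
    rw [← Finset.sum_mul, sum_inc_line_k]
  have hdot : ∀ z' : (Pt q V → k) × (Ln q V → k),
      ∑ ω : Fl q V, TF k q V z' ω * TF k q V z ω =
        ∑ P : Pt q V, z'.1 P * (∑ l : Ln q V, inc k P l * (z.1 P + z.2 l)) +
          ∑ l : Ln q V, z'.2 l * (∑ P : Pt q V, inc k P l * (z.1 P + z.2 l)) := by
    intro z'
    have h1 := sum_Fl (q := q) (V := V) (M := k) (fun P l => (z'.1 P + z'.2 l) * (z.1 P + z.2 l))
    have h2 : ∑ ω : Fl q V, TF k q V z' ω * TF k q V z ω =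
        ∑ P : Pt q V, ∑ l : Ln q V, inc k P l * ((z'.1 P + z'.2 l) * (z.1 P + z.2 l)) := h1
    rw [h2]
    have h3 : ∑ l : Ln q V, z'.2 l * (∑ P : Pt q V, inc k P l * (z.1 P + z.2 l)) =
        ∑ P : Pt q V, ∑ l : Ln q V, z'.2 l * (inc k P l * (z.1 P + z.2 l)) := by
      simp_rw [Finset.mul_sum]
      rw [Finset.sum_comm]
    rw [h3, ← Finset.sum_add_distrib]
    refine Finset.sum_congr rfl fun P _ => ?_
    rw [Finset.mul_sum, ← Finset.sum_add_distrib]
    refine Finset.sum_congr rfl fun l _ => ?_
    ring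
  rw [mem_perp]
  constructor
  · intro h
    constructor
    · intro P
      rw [← hE]
      have h1 := h (TF k q V (Pi.single P 1, 0)) ⟨_, rfl⟩
      rw [hdot] at h1
      simpa [Pi.single_apply] using h1
    · intro l
      rw [← hF]
      have h1 := h (TF k q V (0, Pi.single l 1)) ⟨_, rfl⟩
      rw [hdot] at h1
      simpa [Pi.single_apply] using h1
  · rintro ⟨h1, h2⟩ _ ⟨z', rfl⟩
    rw [hdot]
    simp only [hE, hF, h1, h2, mul_zero, Finset.sum_const_zero, add_zero]

/-- The irreducible section when `q + 1 ≠ 0` and the number of points vanishes in `k`. -/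
theorem exists_irr_flags (ζ : AddChar (ZMod q) k) (hζ : ζ 1 ≠ 1) (hqk : (q : k) ≠ 0)
    (hn : 3 ≤ finrank (ZMod q) V) (hq5 : 5 ≤ q) (hq1 : (q : k) + 1 ≠ 0)
    (hP : (Fintype.card (Pt q V) : k) = 0)
    (hlt : 2 * Fintype.card (Pt q V) ≤ q * Fintype.card (Ln q V)) :
    ∃ (M' : Type u) (_ : AddCommGroup M') (_ : Module k M')
      (ρ' : Representation k (V ≃ₗ[ZMod q] V) M'), FiniteDimensional k M' ∧ ρ'.IsIrreducible ∧
        finrank k M' + 2 * Fintype.card (Pt q V) = q * Fintype.card (Ln q V) + 3 := by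
  classical
  have hW := finrank_W0F (k := k) (q := q) (V := V) (by omega)
  have hPerp := finrank_perp (W0F k q V)
  have hR := finrank_inf_range (TF k q V) (perp (W0F k q V))
  rw [ker_TF (by omega)] at hR
  obtain ⟨b, hb, a, hab⟩ := exists_two_points (q := q) (V := V) (by omega)
  set r : k := ((∑ i ∈ Finset.range (finrank (ZMod q) V - 1), q ^ i : ℕ) : k) with hr
  have hrP : r * q + 1 = 0 := by
    have h1 := congrArg (Nat.cast (R := k)) (sum_inc_point_aux (mkP (q := q) b hb))
    rw [sum_inc_point, hP] at h1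
    push_cast at h1
    rw [hr]
    push_cast
    exact h1
  have hZ : finrank k ((perp (W0F k q V)).comap (TF k q V)) + 1 = Fintype.card (Pt q V) := by
    let sg : (Pt q V → k) →ₗ[k] k := ∑ Q : Pt q V, LinearMap.proj Q
    have hsg : ∀ y : Pt q V → k, sg y = ∑ Q : Pt q V, y Q := by
      intro y
      show (∑ Q : Pt q V, (LinearMap.proj Q : (Pt q V → k) →ₗ[k] k)) y = _
      simp
    let ψ : (Pt q V → k) →ₗ[k] ((Pt q V → k) × (Ln q V → k)) :=
      { toFun := fun y => (y, fun l => -(((q : k) + 1)⁻¹ * ∑ P : Pt q V, inc k P l * y P))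
        map_add' := fun y y' => by
          refine Prod.ext rfl ?_
          ext l
          simp only [Pi.add_apply, mul_add, Finset.sum_add_distrib, Prod.mk_add_mk]
          ring
        map_smul' := fun c y => by
          refine Prod.ext rfl ?_
          ext l
          simp only [Pi.smul_apply, smul_eq_mul, RingHom.id_apply, Prod.smul_mk]
          rw [show (∑ P : Pt q V, inc k P l * (c * y P)) = c * ∑ P : Pt q V, inc k P l * y P by
            rw [Finset.mul_sum]; exact Finset.sum_congr rfl fun P _ => by ring]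
          ring }
    have hψ : ∀ y, ψ y = (y, fun l => -(((q : k) + 1)⁻¹ * ∑ P : Pt q V, inc k P l * y P)) :=
      fun y => rfl
    have hinj : Function.Injective ψ := fun y y' h => congrArg Prod.fst h
    have hsurj : LinearMap.range sg = ⊤ := by
      rw [LinearMap.range_eq_top]
      intro c
      refine ⟨Pi.single (mkP b hb) c, ?_⟩
      rw [hsg]
      simp
    have hmap : (LinearMap.ker sg).map ψ = (perp (W0F k q V)).comap (TF k q V) := by
      ext z
      rw [Submodule.mem_comap, TF_mem_perp_iff, ← hr]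
      have hcalc : ∀ (y : Pt q V → k) (P : Pt q V),
          r * y P + ∑ l : Ln q V, inc k P l * -(((q : k) + 1)⁻¹ * ∑ Q : Pt q V, inc k Q l * y Q) =
            -(((q : k) + 1)⁻¹ * ∑ Q : Pt q V, y Q) := by
        intro y P
        have h1 : ∑ l : Ln q V, inc k P l * -(((q : k) + 1)⁻¹ * ∑ Q : Pt q V, inc k Q l * y Q) =
            -(((q : k) + 1)⁻¹ * ∑ l : Ln q V, inc k P l * ∑ Q : Pt q V, inc k Q l * y Q) := by
          rw [Finset.mul_sum, ← Finset.sum_neg_distrib]
          exact Finset.sum_congr rfl fun l _ => by ring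
        rw [h1, sum_inc_lineSum, ← hr]
        field_simp
        linear_combination (y P) * hrP
      constructor
      · rintro ⟨y, hy, rfl⟩
        have hy' : ∑ Q : Pt q V, y Q = 0 := by rw [← hsg]; exact hy
        rw [hψ]
        refine ⟨fun P => ?_, fun l => ?_⟩
        · simp only
          rw [hcalc, hy', mul_zero, neg_zero]
        · simp only
          field_simp
          ring
      · rintro ⟨h1, h2⟩
        have hz2 : z.2 = fun l => -(((q : k) + 1)⁻¹ * ∑ P : Pt q V, inc k P l * z.1 P) := by
          ext l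
          have := h2 l
          field_simp
          linear_combination this
        refine ⟨z.1, ?_, ?_⟩
        · have h3 := h1 (mkP b hb)
          rw [hz2] at h3
          simp only at h3
          rw [hcalc] at h3
          have h4 : ((q : k) + 1)⁻¹ * ∑ Q : Pt q V, z.1 Q = 0 := neg_eq_zero.1 h3
          have h5 := (mul_eq_zero.1 h4).resolve_left (inv_ne_zero hq1)
          show sg z.1 = 0
          rw [hsg, h5]
        · rw [hψ]
          exact Prod.ext rfl hz2.symm
    have h := LinearMap.finrank_range_add_finrank_ker sg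
    rw [hsurj, finrank_top, Module.finrank_self, Module.finrank_fintype_fun_eq_card] at h
    have hmf : finrank k ((LinearMap.ker sg).map ψ) = finrank k (LinearMap.ker sg) :=
      (LinearEquiv.finrank_eq (Submodule.equivMapOfInjective ψ hinj _)).symm
    rw [← hmap, hmf]
    omega
  have hR' : finrank k (perp (W0F k q V) ⊓ W0F k q V : Submodule k (Fl q V → k)) + 2 =
      Fintype.card (Pt q V) := by
    have : (perp (W0F k q V) ⊓ LinearMap.range (TF k q V)) = perp (W0F k q V) ⊓ W0F k q V := rfl
    rw [this] at hR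
    omega
  have hFl := card_Fl (q := q) (V := V)
  have hmul : Fintype.card (Ln q V) * (q + 1) = q * Fintype.card (Ln q V) +
    Fintype.card (Ln q V) := by ring
  obtain ⟨M', i1, i2, ρ', h1, h2, h3⟩ := exists_irreducible_of_key (G := V ≃ₗ[ZMod q] V)
    (W0F k q V) invt_W0F (key_flags ζ hζ hqk (by omega) hq5) (by omega)
  refine ⟨M', i1, i2, ρ', h1, h2, ?_⟩
  omega

end

end Pool.Agent.Helper255.PPart
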