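import Pool.Agent.Helper255.PPart.LinesIrr

/-!
Irreducible representations of `GL_n(q)` with degree of large `p`-part: `p = 2`, `n = 5` and
`p ≥ 5`, `n = 2 (p - 2)`.
-/

namespace Pool.Agent.Helper255.PPart

open Module Polynomial

attribute [local instance 10] Fintype.ofFinite

noncomputable section

universe u

/-- A nontrivial additive character of `ZMod q` with values in an algebraically closed field of
characteristic different from `q`. -/
theorem exists_zeta (q : ℕ) [hq : Fact q.Prime] (k : Type u) [Field k] [IsAlgClosed k]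
    (hqk : (q : k) ≠ 0) : ∃ ζ : AddChar (ZMod q) k, ζ 1 ≠ 1 := by
  have : NeZero (q : k) := ⟨hqk⟩
  obtain ⟨z, hz⟩ := HasEnoughRootsOfUnity.exists_primitiveRoot k q
  refine ⟨AddChar.zmodChar q hz.pow_eq_one, ?_⟩
  intro h
  have h1 := AddChar.zmodChar_apply hz.pow_eq_one (1 : ZMod q)
  rw [h] at h1
  have h2 : (1 : ZMod q).val = 1 := ZMod.val_one'' hq.out.one_lt.ne'
  rw [h2, pow_one] at h1
  exact hz.ne_one hq.out.one_lt h1.symm

theorem natCast_ne_zero_of_prime {k : Type u} [Field k] {p q : ℕ} [CharP k p] (hp : p.Prime)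
    (hq : q.Prime) (h : p ≠ q) : (q : k) ≠ 0 := by
  rw [Ne, CharP.cast_eq_zero_iff k p, Nat.prime_dvd_prime_iff_eq hp hq]
  exact h

/-- `p = 2`: representations of `GL_5(q)`. -/
theorem lines_two (k : Type u) [Field k] [IsAlgClosed k] [CharP k 2] (N : ℕ) :
    ∃ (G : Type) (_ : Group G) (_ : Finite G) (M : Type u) (_ : AddCommGroup M) (_ : Module k M)
      (ρ : Representation k G M), FiniteDimensional k M ∧ ρ.IsIrreducible ∧
        padicValNat 2 (Nat.card G) = 10 ∧ 0 < finrank k M ∧ 2 ^ N ∣ finrank k M := by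
  set P : ℤ[X] := X ^ 5 + X ^ 3 + X - 1 with hP
  have hPe : ∀ x : ℤ, P.eval x = x ^ 5 + x ^ 3 + x - 1 := by intro x; simp [hP]
  have hPd : ∀ x : ℤ, P.derivative.eval x = 5 * x ^ 4 + 3 * x ^ 2 + 1 := by
    intro x; simp [hP]
  obtain ⟨q, hq, hq5, hqa, hqN⟩ := exists_prime_near_root P 2 Nat.prime_two 1
    (by rw [hPe]; norm_num) (by rw [hPd]; norm_num) (by norm_num) (N + 3) 5 (by omega)
  have hfq : Fact q.Prime := ⟨hq⟩
  have h2q : (2 : ℕ) ≠ q := by omega
  have hqk : (q : k) ≠ 0 := natCast_ne_zero_of_prime Nat.prime_two hq h2q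
  obtain ⟨ζ, hζ⟩ := exists_zeta q k hqk
  -- q ≡ 3 mod 8
  have hmod : q % 8 = 3 := by
    have h8 : ((8 : ℕ) : ℤ) ∣ P.eval (q : ℤ) := by
      have h := (pow_dvd_pow (2 : ℤ) (show 3 ≤ N + 3 by omega)).trans hqN
      have e : (2 : ℤ) ^ 3 = ((8 : ℕ) : ℤ) := by norm_num
      rwa [e] at h
    rw [← ZMod.intCast_zmod_eq_zero_iff_dvd, hPe] at h8
    push_cast at h8
    have hdec : ∀ x : ZMod 8, x ^ 5 + x ^ 3 + x - 1 = 0 → x = 3 := by decide
    have h9 := hdec _ h8
    have h10 : ((q : ℕ) : ZMod 8) = ((3 : ℕ) : ZMod 8) := by rw [h9]; rfl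
    rw [ZMod.natCast_eq_natCast_iff'] at h10
    exact h10
  set V := Fin 5 → ZMod q with hV
  have hfr : finrank (ZMod q) V = 5 := Module.finrank_fin_fun (ZMod q)
  have hcP : Fintype.card (Pt q V) = 1 + q + q ^ 2 + q ^ 3 + q ^ 4 := by
    rw [card_Pt, hfr]
    simp [Finset.sum_range_succ]
  have hcL : Fintype.card (Ln q V) = (1 + q + q ^ 2 + q ^ 3 + q ^ 4) * (1 + q ^ 2) := by
    have h := card_Ln_mul (q := q) (V := V)
    rw [hcP, hfr] at h
    have h3 : ∑ i ∈ Finset.range (5 - 1), q ^ i = (1 + q ^ 2) * (q + 1) := by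
      simp [Finset.sum_range_succ]
      ring
    rw [h3, ← mul_assoc] at h
    exact Nat.eq_of_mul_eq_mul_right (by omega) h
  have hqpar : ∃ m, q = 8 * m + 3 := ⟨q / 8, by omega⟩
  obtain ⟨m, hm⟩ := hqpar
  have h2k : (2 : k) = 0 := by exact_mod_cast CharP.cast_eq_zero k 2
  have hqk1 : (q : k) = 1 := by
    rw [hm]
    push_cast
    linear_combination (4 * (m : k) + 1) * h2k
  have hr : ((∑ i ∈ Finset.range (finrank (ZMod q) V - 1), q ^ i : ℕ) : k) = 0 := by
    rw [hfr]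
    simp only [Finset.sum_range_succ, Finset.sum_range_zero, Nat.reduceSub]
    push_cast
    rw [hqk1]
    linear_combination 2 * h2k
  have hP1 : (Fintype.card (Pt q V) : k) = 1 := by
    rw [hcP]
    push_cast
    rw [hqk1]
    linear_combination 2 * h2k
  have hL0 : (Fintype.card (Ln q V) : k) = 0 := by
    rw [hcL]
    push_cast
    rw [hqk1]
    linear_combination 5 * h2k
  have hlt : Fintype.card (Pt q V) + 1 < Fintype.card (Ln q V) := by
    rw [hcL, hcP]
    have h3 : 1 < 1 + q + q ^ 2 + q ^ 3 + q ^ 4 := by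
      have : 0 < q := hq.pos
      have : 0 ≤ q ^ 2 + q ^ 3 + q ^ 4 := by positivity
      omega
    have h4 : 2 ≤ q ^ 2 := by nlinarith
    nlinarith
  obtain ⟨M, i1, i2, ρ, h1, h2, h3⟩ := exists_irr_lines_A (V := V) ζ hζ hqk (by omega)
    (by omega) hr hP1 hL0 hlt
  have hdim : (finrank k M : ℤ) = ((q : ℤ) + 1) * P.eval (q : ℤ) := by
    rw [h3, hPe, hcP, hcL]
    have h5 : 1 + q + q ^ 2 + q ^ 3 + q ^ 4 ≤ (1 + q + q ^ 2 + q ^ 3 + q ^ 4) * (1 + q ^ 2) := by
      nlinarith [Nat.zero_le (q ^ 2), Nat.zero_le ((1 + q + q ^ 2 + q ^ 3 + q ^ 4) * q ^ 2)]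
    have h6 : 1 ≤ (1 + q + q ^ 2 + q ^ 3 + q ^ 4) * (1 + q ^ 2) -
        (1 + q + q ^ 2 + q ^ 3 + q ^ 4) := by
      rw [hcP, hcL] at hlt
      omega
    push_cast [Nat.cast_sub h6, Nat.cast_sub h5]
    ring
  refine ⟨V ≃ₗ[ZMod q] V, inferInstance, inferInstance, M, i1, i2, ρ, h1, h2, ?_, ?_, ?_⟩
  · refine (padicValNat_card_aut 2 q h2q 5).trans ?_
    have hq0 : 0 < q := hq.pos
    have e1 : padicValNat 2 (q ^ 1 - 1) = 1 := by
      rw [pow_one, hm]
      apply padicValNat_eq_of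
      · omega
      · omega
      · omega
    have e2 : padicValNat 2 (q ^ 2 - 1) = 3 := by
      have h4 : q ^ 2 - 1 = 8 * (8 * m ^ 2 + 6 * m + 1) := by
        rw [hm]
        have : (8 * m + 3) ^ 2 = 8 * (8 * m ^ 2 + 6 * m + 1) + 1 := by ring
        omega
      rw [h4]
      apply padicValNat_eq_of
      · positivity
      · exact dvd_mul_right _ _
      · intro h
        have : 2 ∣ 8 * m ^ 2 + 6 * m + 1 := by
          have h5 : 8 * 2 ∣ 8 * (8 * m ^ 2 + 6 * m + 1) := by simpa using h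
          exact Nat.dvd_of_mul_dvd_mul_left (by norm_num) h5
        omega
    have e3 : padicValNat 2 (q ^ 3 - 1) = 1 := by
      have h4 : q ^ 3 - 1 = 2 * (256 * m ^ 3 + 288 * m ^ 2 + 108 * m + 13) := by
        rw [hm]
        have : (8 * m + 3) ^ 3 = 2 * (256 * m ^ 3 + 288 * m ^ 2 + 108 * m + 13) + 1 := by ring
        omega
      rw [h4]
      apply padicValNat_eq_of
      · positivity
      · exact dvd_mul_right _ _
      · intro h
        have : 2 ∣ 256 * m ^ 3 + 288 * m ^ 2 + 108 * m + 13 := by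
          have h5 : 2 * 2 ∣ 2 * (256 * m ^ 3 + 288 * m ^ 2 + 108 * m + 13) := by simpa using h
          exact Nat.dvd_of_mul_dvd_mul_left (by norm_num) h5
        omega
    have e4 : padicValNat 2 (q ^ 4 - 1) = 4 := by
      have h4 : q ^ 4 - 1 = 16 * (256 * m ^ 4 + 384 * m ^ 3 + 216 * m ^ 2 + 54 * m + 5) := by
        rw [hm]
        have : (8 * m + 3) ^ 4 = 16 * (256 * m ^ 4 + 384 * m ^ 3 + 216 * m ^ 2 + 54 * m + 5) + 1 := by
          ring
        omega
      rw [h4]
      apply padicValNat_eq_of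
      · positivity
      · exact dvd_mul_right _ _
      · intro h
        have : 2 ∣ 256 * m ^ 4 + 384 * m ^ 3 + 216 * m ^ 2 + 54 * m + 5 := by
          have h5 : 16 * 2 ∣ 16 * (256 * m ^ 4 + 384 * m ^ 3 + 216 * m ^ 2 + 54 * m + 5) := by
            simpa using h
          exact Nat.dvd_of_mul_dvd_mul_left (by norm_num) h5
        omega
    have e5 : padicValNat 2 (q ^ 5 - 1) = 1 := by
      have h4 : q ^ 5 - 1 = 2 * (16384 * m ^ 5 + 30720 * m ^ 4 + 23040 * m ^ 3 + 8640 * m ^ 2 +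
          1620 * m + 121) := by
        rw [hm]
        have : (8 * m + 3) ^ 5 = 2 * (16384 * m ^ 5 + 30720 * m ^ 4 + 23040 * m ^ 3 + 8640 * m ^ 2 +
          1620 * m + 121) + 1 := by ring
        omega
      rw [h4]
      apply padicValNat_eq_of
      · positivity
      · exact dvd_mul_right _ _
      · intro h
        have : 2 ∣ 16384 * m ^ 5 + 30720 * m ^ 4 + 23040 * m ^ 3 + 8640 * m ^ 2 +
          1620 * m + 121 := by
          have h5 : 2 * 2 ∣ 2 * (16384 * m ^ 5 + 30720 * m ^ 4 + 23040 * m ^ 3 + 8640 * m ^ 2 +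
            1620 * m + 121) := by simpa using h
          exact Nat.dvd_of_mul_dvd_mul_left (by norm_num) h5
        omega
    simp only [Finset.sum_range_succ, Finset.sum_range_zero, Nat.zero_add, Nat.reduceAdd]
    rw [e1, e2, e3, e4, e5]
  · rw [h3]
    omega
  · have h5 : (2 : ℤ) ^ N ∣ (finrank k M : ℤ) := by
      rw [hdim]
      exact Dvd.dvd.mul_left ((pow_dvd_pow (2 : ℤ) (by omega)).trans hqN) _
    exact_mod_cast h5

end

end Pool.Agent.Helper255.PPart
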