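import Pool.Agent.Helper255.PPart.FlagsDim
import Pool.Agent.Helper255.PPart.LinesNum

/-!
`p = 3`: irreducible representations of `GL_21(q)` of degree divisible by a large power of `3`.
-/

namespace Pool.Agent.Helper255.PPart

open Module Polynomial

attribute [local instance 10] Fintype.ofFinite

noncomputable section

universe u

/-- Hensel's lemma for integer polynomials, general form. -/
theorem hensel_int_gen (P : ℤ[X]) (p : ℕ) (hp : p.Prime) (a : ℤ) (e : ℕ)
    (h0 : (p : ℤ) ^ (2 * e + 1) ∣ P.eval a) (h1 : (p : ℤ) ^ e ∣ P.derivative.eval a)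
    (h1' : ¬ (p : ℤ) ^ (e + 1) ∣ P.derivative.eval a) (N : ℕ) :
    ∃ b : ℤ, (p : ℤ) ^ (e + 1) ∣ b - a ∧ (p : ℤ) ^ N ∣ P.eval b := by
  have hpi : Prime (p : ℤ) := Nat.prime_iff_prime_int.1 hp
  have hp0 : (p : ℤ) ≠ 0 := hpi.ne_zero
  have key : ∀ N : ℕ, ∃ b : ℤ, (p : ℤ) ^ (e + 1) ∣ b - a ∧
      (p : ℤ) ^ (2 * e + 1 + N) ∣ P.eval b := by
    intro N
    induction N with
    | zero => exact ⟨a, by simp, by simpa using h0⟩
    | succ N ih =>
      obtain ⟨b, hb, hPb⟩ := ih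
      have hdd : (p : ℤ) ^ (e + 1) ∣ P.derivative.eval b - P.derivative.eval a :=
        hb.trans (Polynomial.sub_dvd_eval_sub b a _)
      have hd1 : (p : ℤ) ^ e ∣ P.derivative.eval b := by
        have h2 := dvd_add ((pow_dvd_pow (p : ℤ) (Nat.le_succ e)).trans hdd) h1
        simpa using h2
      obtain ⟨u, hu⟩ := hd1
      have hd : ¬ (p : ℤ) ∣ u := by
        intro h
        apply h1'
        have h2 : (p : ℤ) ^ (e + 1) ∣ P.derivative.eval b := by
          rw [hu, pow_succ]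
          exact mul_dvd_mul_left _ h
        have h3 := dvd_sub h2 hdd
        simpa using h3
      obtain ⟨c, hc⟩ := hPb
      have hcop : IsCoprime u (p : ℤ) := ((Prime.coprime_iff_not_dvd hpi).2 hd).symm
      obtain ⟨s, v, hsv⟩ := hcop
      obtain ⟨w, hw⟩ := P.binomExpansion b ((p : ℤ) ^ (e + 1 + N) * (-(s * c)))
      refine ⟨b + (p : ℤ) ^ (e + 1 + N) * (-(s * c)), ?_, ?_⟩
      · have : b + (p : ℤ) ^ (e + 1 + N) * (-(s * c)) - a =
          (b - a) + (p : ℤ) ^ (e + 1) * ((p : ℤ) ^ N * (-(s * c))) := by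
          rw [pow_add]; ring
        rw [this]
        exact dvd_add hb (dvd_mul_right _ _)
      · rw [hw, hc, hu]
        refine ⟨v * c + w * (s * c) ^ 2 * (p : ℤ) ^ N, ?_⟩
        have h6 : 1 - s * u = v * p := by
          rw [← hsv]; ring
        have h5 : (p : ℤ) ^ (2 * e + 1 + N) * c +
            (p : ℤ) ^ e * u * ((p : ℤ) ^ (e + 1 + N) * (-(s * c))) =
            (p : ℤ) ^ (2 * e + 1 + N) * c * (1 - s * u) := by
          have : (p : ℤ) ^ (2 * e + 1 + N) = (p : ℤ) ^ e * (p : ℤ) ^ (e + 1 + N) := by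
            rw [← pow_add]; congr 1; ring
          rw [this]; ring
        rw [h5, h6]
        have h7 : ((p : ℤ) ^ (e + 1 + N)) ^ 2 = (p : ℤ) ^ (2 * e + 1 + (N + 1)) * (p : ℤ) ^ N := by
          rw [← pow_add, ← pow_mul]; congr 1; ring
        have h8 : (p : ℤ) ^ (2 * e + 1 + (N + 1)) = (p : ℤ) ^ (2 * e + 1 + N) * p := by
          rw [← pow_succ]; congr 1
        rw [mul_pow, h7, h8]
        ring
  rcases Nat.lt_or_ge N (2 * e + 1) with h | h
  · obtain ⟨b, hb, hPb⟩ := key 0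
    exact ⟨b, hb, (pow_dvd_pow (p : ℤ) (by omega)).trans hPb⟩
  · obtain ⟨M, rfl⟩ := Nat.exists_eq_add_of_le h
    exact key M

theorem exists_prime_near_root_gen (P : ℤ[X]) (p : ℕ) (hp : p.Prime) (a : ℤ) (e : ℕ)
    (h0 : (p : ℤ) ^ (2 * e + 1) ∣ P.eval a) (h1 : (p : ℤ) ^ e ∣ P.derivative.eval a)
    (h1' : ¬ (p : ℤ) ^ (e + 1) ∣ P.derivative.eval a) (ha : ¬ (p : ℤ) ∣ a)
    (N B : ℕ) (hN : e + 1 ≤ N) :
    ∃ q : ℕ, q.Prime ∧ B < q ∧ (p : ℤ) ^ (e + 1) ∣ (q : ℤ) - a ∧
      (p : ℤ) ^ N ∣ P.eval (q : ℤ) := by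
  obtain ⟨b, hb, hPb⟩ := hensel_int_gen P p hp a e h0 h1 h1' N
  have hpi : Prime (p : ℤ) := Nat.prime_iff_prime_int.1 hp
  have hb1 : (p : ℤ) ∣ b - a := (dvd_pow_self (p : ℤ) (Nat.succ_ne_zero e)).trans hb
  have hbp : ¬ (p : ℤ) ∣ b := fun h => ha (by simpa using dvd_sub h hb1)
  have : NeZero (p ^ N) := ⟨pow_ne_zero _ hp.ne_zero⟩
  have hunit : IsUnit ((b : ZMod (p ^ N))) := by
    have hcop : IsCoprime b ((p ^ N : ℕ) : ℤ) := by
      push_cast
      exact IsCoprime.pow_right ((Prime.coprime_iff_not_dvd hpi).2 hbp).symm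
    obtain ⟨u, v, huv⟩ := hcop
    refine IsUnit.of_mul_eq_one (u : ZMod (p ^ N)) ?_
    have h2 := congrArg (Int.cast (R := ZMod (p ^ N))) huv
    push_cast at h2
    rw [show ((p : ZMod (p ^ N)) ^ N) = ((p ^ N : ℕ) : ZMod (p ^ N)) by push_cast; rfl,
      ZMod.natCast_self, mul_zero, add_zero] at h2
    rw [mul_comm]
    exact h2
  obtain ⟨q, hqB, hq, hqb⟩ := Nat.forall_exists_prime_gt_and_eq_mod hunit B
  have hdvd : ((p ^ N : ℕ) : ℤ) ∣ (q : ℤ) - b := by
    rw [← ZMod.intCast_zmod_eq_zero_iff_dvd]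
    push_cast
    rw [hqb, sub_self]
  have hdvd' : (p : ℤ) ^ N ∣ (q : ℤ) - b := by exact_mod_cast hdvd
  refine ⟨q, hq, hqB, ?_, ?_⟩
  · have h3 : (p : ℤ) ^ (e + 1) ∣ (q : ℤ) - b := (pow_dvd_pow (p : ℤ) hN).trans hdvd'
    have h4 := dvd_add h3 hb
    simpa using h4
  · have h3 : (p : ℤ) ^ N ∣ P.eval (q : ℤ) - P.eval b :=
      hdvd'.trans (Polynomial.sub_dvd_eval_sub _ _ _)
    have h4 := dvd_add h3 hPb
    simpa using h4

/-- The degree polynomial for flags in dimension `21`. -/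
def PolyF : ℤ[X] :=
  X * ((∑ i ∈ Finset.range 21, X ^ i) * ∑ i ∈ Finset.range 10, X ^ (2 * i)) -
    2 * (∑ i ∈ Finset.range 21, X ^ i) + 3

theorem PolyF_eval (x : ℤ) : PolyF.eval x =
    x * ((∑ i ∈ Finset.range 21, x ^ i) * ∑ i ∈ Finset.range 10, x ^ (2 * i)) -
      2 * (∑ i ∈ Finset.range 21, x ^ i) + 3 := by
  simp [PolyF, eval_finsetSum]

theorem PolyF_derivative (x : ℤ) : PolyF.derivative.eval x =
    (∑ i ∈ Finset.range 21, x ^ i) * (∑ i ∈ Finset.range 10, x ^ (2 * i)) +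
    x * ((∑ i ∈ Finset.range 21, (i : ℤ) * x ^ (i - 1)) * (∑ i ∈ Finset.range 10, x ^ (2 * i)) +
      (∑ i ∈ Finset.range 21, x ^ i) * (∑ i ∈ Finset.range 10, ((2 * i : ℕ) : ℤ) * x ^ (2 * i - 1))) -
      2 * (∑ i ∈ Finset.range 21, (i : ℤ) * x ^ (i - 1)) := by
  simp [PolyF, eval_finsetSum, derivative_X_pow, derivative_mul]

theorem padic_three_small (i : ℕ) (hi : i < 21) : padicValNat 3 (i + 1) =
    (if i + 1 = 9 ∨ i + 1 = 18 then 2 else if (i + 1) % 3 = 0 then 1 else 0) := by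
  have : Fact (Nat.Prime 3) := ⟨Nat.prime_three⟩
  split_ifs with h1 h2
  · apply padicValNat_eq_of
    · omega
    · omega
    · omega
  · apply padicValNat_eq_of
    · omega
    · omega
    · omega
  · apply padicValNat.eq_zero_of_not_dvd
    omega

/-- `p = 3`: representations of `GL_21(q)`. -/
theorem flags_three (k : Type u) [Field k] [IsAlgClosed k] [CharP k 3] (N : ℕ) :
    ∃ (G : Type) (_ : Group G) (_ : Finite G) (M : Type u) (_ : AddCommGroup M) (_ : Module k M)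
      (ρ : Representation k G M), FiniteDimensional k M ∧ ρ.IsIrreducible ∧
        padicValNat 3 (Nat.card G) = 30 ∧ 0 < finrank k M ∧ 3 ^ N ∣ finrank k M := by
  have hf3 : Fact (Nat.Prime 3) := ⟨Nat.prime_three⟩
  obtain ⟨q, hq, hq5, hqa, hqN⟩ := exists_prime_near_root_gen PolyF 3 Nat.prime_three 4 1
    (by
      rw [PolyF_eval]
      norm_num [Finset.sum_range_succ])
    (by
      rw [PolyF_derivative]
      norm_num [Finset.sum_range_succ])
    (by
      rw [PolyF_derivative]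
      norm_num [Finset.sum_range_succ])
    (by norm_num) (N + 2) 5 (by omega)
  have hfq : Fact q.Prime := ⟨hq⟩
  have h3q : (3 : ℕ) ≠ q := by omega
  have hqk : (q : k) ≠ 0 := natCast_ne_zero_of_prime Nat.prime_three hq h3q
  obtain ⟨ζ, hζ⟩ := exists_zeta q k hqk
  have hmod : q % 9 = 4 := by
    have h : (9 : ℤ) ∣ (q : ℤ) - 4 := by
      have e : ((3 : ℕ) : ℤ) ^ (1 + 1) = 9 := by norm_num
      rwa [e] at hqa
    omega
  obtain ⟨m, hm⟩ : ∃ m, q = 9 * m + 4 := ⟨q / 9, by omega⟩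
  have h3k : (3 : k) = 0 := by exact_mod_cast CharP.cast_eq_zero k 3
  have hqk1 : (q : k) = 1 := by
    rw [hm]
    push_cast
    linear_combination (3 * (m : k) + 1) * h3k
  have hfr : finrank (ZMod q) (Fin 21 → ZMod q) = 21 := Module.finrank_fin_fun (ZMod q)
  set S : ℕ := ∑ i ∈ Finset.range 21, q ^ i with hS
  set E : ℕ := ∑ i ∈ Finset.range 10, q ^ (2 * i) with hE
  have hcP : Fintype.card (Pt q (Fin 21 → ZMod q)) = S := by
    rw [card_Pt, hfr]
  have hcL : Fintype.card (Ln q (Fin 21 → ZMod q)) = S * E := by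
    have h := card_Ln_mul (q := q) (V := Fin 21 → ZMod q)
    rw [hcP, hfr] at h
    have h3 : ∑ i ∈ Finset.range (21 - 1), q ^ i = E * (q + 1) := by
      rw [hE]
      simp only [Finset.sum_range_succ, Finset.sum_range_zero, Nat.reduceSub]
      ring
    rw [h3, ← mul_assoc] at h
    exact Nat.eq_of_mul_eq_mul_right (by omega) h
  have hP0 : (Fintype.card (Pt q (Fin 21 → ZMod q)) : k) = 0 := by
    rw [hcP, hS]
    push_cast
    rw [hqk1]
    simp only [one_pow, Finset.sum_const, Finset.card_range, nsmul_eq_mul, mul_one]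
    push_cast
    linear_combination 7 * h3k
  have hq1 : (q : k) + 1 ≠ 0 := by
    rw [hqk1]
    intro h
    have : (1 : k) = 0 := by linear_combination h3k - h
    exact one_ne_zero this
  have hE2 : 2 ≤ E := by
    have h1 : q ^ (2 * 1) ≤ E := by
      rw [hE]
      exact Finset.single_le_sum (f := fun i => q ^ (2 * i)) (fun i _ => Nat.zero_le _)
        (Finset.mem_range.2 (by omega))
    have h2 : 2 ≤ q ^ 2 := by nlinarith
    exact h2.trans h1
  have hlt : 2 * Fintype.card (Pt q (Fin 21 → ZMod q)) ≤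
      q * Fintype.card (Ln q (Fin 21 → ZMod q)) := by
    rw [hcP, hcL]
    have h1 : 1 * (S * 2) ≤ q * (S * E) :=
      Nat.mul_le_mul (by omega) (Nat.mul_le_mul_left S hE2)
    omega
  obtain ⟨M, i1, i2, ρ, h1, h2, h3⟩ := exists_irr_flags (V := Fin 21 → ZMod q) ζ hζ hqk
    (by rw [hfr]; norm_num) (by omega) hq1 hP0 hlt
  have hdim : (finrank k M : ℤ) = PolyF.eval (q : ℤ) := by
    rw [hcP, hcL] at h3
    rw [PolyF_eval]
    have e1 : (S : ℤ) = ∑ i ∈ Finset.range 21, (q : ℤ) ^ i := by rw [hS]; push_cast; rfl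
    have e2 : (E : ℤ) = ∑ i ∈ Finset.range 10, (q : ℤ) ^ (2 * i) := by rw [hE]; push_cast; rfl
    rw [← e1, ← e2]
    have h4 : (finrank k M : ℤ) + 2 * S = q * (S * E) + 3 := by exact_mod_cast h3
    linear_combination h4
  refine ⟨(Fin 21 → ZMod q) ≃ₗ[ZMod q] (Fin 21 → ZMod q), inferInstance, inferInstance, M, i1, i2,
    ρ, h1, h2, ?_, ?_, ?_⟩
  · rw [padicValNat_card_aut 3 q h3q 21]
    have hq1v : padicValNat 3 (q - 1) = 1 := by
      rw [hm]
      apply padicValNat_eq_of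
      · omega
      · omega
      · omega
    have hterm : ∀ i ∈ Finset.range 21, padicValNat 3 (q ^ (i + 1) - 1) =
        1 + (if i + 1 = 9 ∨ i + 1 = 18 then 2 else if (i + 1) % 3 = 0 then 1 else 0) := by
      intro i hi
      have h4 := padicValNat.pow_sub_pow (p := 3) (x := q) (y := 1) (by decide) (by omega)
        (by rw [hm]; omega) (by rw [hm]; omega) (n := i + 1) (by omega)
      rw [one_pow, hq1v, padic_three_small i (Finset.mem_range.1 hi)] at h4
      exact h4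
    rw [Finset.sum_congr rfl hterm]
    decide
  · rw [hcP, hcL] at *
    omega
  · have h5 : (3 : ℤ) ^ N ∣ (finrank k M : ℤ) := by
      rw [hdim]
      exact (pow_dvd_pow (3 : ℤ) (by omega)).trans hqN
    exact_mod_cast h5

end

end Pool.Agent.Helper255.PPart
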