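import Pool.Agent.Helper255.PPart.Basic

/-!
The generation lemma for lines, at the level of functions of two vectors.
-/

namespace Pool.Agent.Helper255.PPart

open Module

attribute [local instance 10] Fintype.ofFinite

noncomputable section

variable {q : ℕ} [Fact q.Prime] {k : Type*} [Field k]
variable {V : Type*} [AddCommGroup V] [Module (ZMod q) V]

/-- A function of two vectors that depends only on the span of the two vectors. -/
structure PairFun (A : V → V → k) : Prop where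
  symm : ∀ a b, A a b = A b a
  add : ∀ (a b : V) (t : ZMod q), A a (b + t • a) = A a b
  smul : ∀ (a b : V) (c : ZMod q), c ≠ 0 → A a (c • b) = A a b

namespace PairFun

variable {A : V → V → k}

theorem add' (hA : PairFun (q := q) A) (a b : V) (t : ZMod q) : A (a + t • b) b = A a b := by
  rw [hA.symm, hA.add, hA.symm]

theorem smul' (hA : PairFun (q := q) A) (a b : V) (c : ZMod q) (hc : c ≠ 0) :
    A (c • a) b = A a b := by
  rw [hA.symm, hA.smul _ _ _ hc, hA.symm]

end PairFun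

/-- The difference of the sums over the lines through `a`, resp. `b`, in the plane `⟨a, b, c⟩`. -/
def DD (q : ℕ) [Fact q.Prime] {k : Type*} [Field k] {V : Type*} [AddCommGroup V]
    [Module (ZMod q) V] (A : V → V → k) (a b c : V) : k :=
  (A a c + ∑ t : ZMod q, A a (b + t • c)) - (A b c + ∑ t : ZMod q, A b (a + t • c))

theorem DD_eq {A : V → V → k} (hA : PairFun (q := q) A) (f : Dual (ZMod q) V) (g d : V → k)
    (hgd : ∀ x ρ : V, f x = 1 → f ρ = 0 → ρ ≠ 0 → A x ρ = d ρ + ∑ t : ZMod q, g (x + t • ρ))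
    {a b c : V} (ha : f a = 1) (hb : f b = 1) (hc : f c = 0) (hc0 : c ≠ 0)
    (hne : ∀ t : ZMod q, (b - a) + t • c ≠ 0) :
    DD q A a b c = (q : k) * (g a - g b) := by
  classical
  set e : V := b - a with he
  have hfe : ∀ t : ZMod q, f (e + t • c) = 0 := by
    intro t
    simp [he, ha, hb, hc]
  set R : ZMod q → k := fun s => ∑ u : ZMod q, g (a + s • e + u • c) with hR
  have h1 : A a c = d c + R 0 := by
    rw [hgd a c ha hc hc0]
    simp [hR]
  have h2 : A b c = d c + R 1 := by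
    rw [hgd b c hb hc hc0]
    simp [hR, he]
  have h3 : ∑ t : ZMod q, A a (b + t • c)
      = ∑ t : ZMod q, d (e + t • c) + ∑ t : ZMod q, ∑ s : ZMod q, g (a + s • (e + t • c)) := by
    rw [← Finset.sum_add_distrib]
    refine Finset.sum_congr rfl fun t _ => ?_
    rw [← hgd a (e + t • c) ha (hfe t) (hne t)]
    have : b + t • c = (e + t • c) + (1 : ZMod q) • a := by rw [he]; module
    rw [this, hA.add]
  have h4 : ∑ t : ZMod q, A b (a + t • c)
      = ∑ t : ZMod q, d (e + t • c) + ∑ t : ZMod q, ∑ s : ZMod q, g (b + s • (e + t • c)) := by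
    rw [← Finset.sum_add_distrib, ← Equiv.sum_comp (Equiv.neg (ZMod q))]
    refine Finset.sum_congr rfl fun t _ => ?_
    rw [← hgd b (e + t • c) hb (hfe t) (hne t)]
    have : a + (Equiv.neg (ZMod q) t) • c = (-1 : ZMod q) • (e + t • c) + (1 : ZMod q) • b := by
      rw [he, Equiv.neg_apply]; module
    rw [this, hA.add, hA.smul _ _ _ (neg_ne_zero.2 one_ne_zero)]
  have h5 : ∑ t : ZMod q, ∑ s : ZMod q, g (a + s • (e + t • c))
      = (q : k) * g a + ∑ s : ZMod q, R s - R 0 := by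
    rw [Finset.sum_comm, ← Finset.add_sum_erase _ _ (Finset.mem_univ (0 : ZMod q)),
      ← Finset.add_sum_erase _ R (Finset.mem_univ (0 : ZMod q))]
    have h6 : ∀ s ∈ (Finset.univ : Finset (ZMod q)).erase 0,
        ∑ t : ZMod q, g (a + s • (e + t • c)) = R s := by
      intro s hs
      have hs0 : s ≠ 0 := (Finset.mem_erase.1 hs).1
      rw [hR]
      simp only
      rw [← Equiv.sum_comp (Equiv.mulLeft₀ s hs0) (fun u => g (a + s • e + u • c))]
      refine Finset.sum_congr rfl fun t _ => ?_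
      congr 1
      rw [Equiv.mulLeft₀_apply]
      module
    rw [Finset.sum_congr rfl h6]
    simp
    ring
  have h7 : ∑ t : ZMod q, ∑ s : ZMod q, g (b + s • (e + t • c))
      = (q : k) * g b + ∑ s : ZMod q, R s - R 1 := by
    rw [Finset.sum_comm, ← Finset.add_sum_erase _ _ (Finset.mem_univ (0 : ZMod q)),
      ← Equiv.sum_comp (Equiv.addRight (1 : ZMod q)) R,
      ← Finset.add_sum_erase _ (fun s => R (Equiv.addRight (1 : ZMod q) s))
        (Finset.mem_univ (0 : ZMod q))]
    have h6 : ∀ s ∈ (Finset.univ : Finset (ZMod q)).erase 0,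
        ∑ t : ZMod q, g (b + s • (e + t • c)) = R (Equiv.addRight (1 : ZMod q) s) := by
      intro s hs
      have hs0 : s ≠ 0 := (Finset.mem_erase.1 hs).1
      rw [hR]
      simp only
      rw [← Equiv.sum_comp (Equiv.mulLeft₀ s hs0)
        (fun u => g (a + (Equiv.addRight (1 : ZMod q) s) • e + u • c))]
      refine Finset.sum_congr rfl fun t _ => ?_
      congr 1
      rw [Equiv.mulLeft₀_apply, Equiv.coe_addRight, he]
      module
    rw [Finset.sum_congr rfl h6]
    simp
    ring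
  unfold DD
  rw [h1, h2, h3, h4, h5, h7]
  ring

theorem DD_anti (A : V → V → k) (a b c : V) : DD q A a b c = - DD q A b a c := by
  unfold DD; ring

theorem DD_smul_left {A : V → V → k} (hA : PairFun (q := q) A) (a b c : V) (s : ZMod q)
    (hs : s ≠ 0) : DD q A (s • a) b c = DD q A a b c := by
  unfold DD
  rw [hA.smul' _ _ _ hs]
  have h1 : ∑ t : ZMod q, A (s • a) (b + t • c) = ∑ t : ZMod q, A a (b + t • c) :=
    Finset.sum_congr rfl fun t _ => hA.smul' _ _ _ hs
  have h2 : ∑ t : ZMod q, A b (s • a + t • c) = ∑ t : ZMod q, A b (a + t • c) := by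
    rw [← Equiv.sum_comp (Equiv.mulLeft₀ s hs)]
    refine Finset.sum_congr rfl fun t _ => ?_
    rw [Equiv.mulLeft₀_apply, mul_smul, ← smul_add, hA.smul _ _ _ hs]
  rw [h1, h2]

theorem DD_smul_mid {A : V → V → k} (hA : PairFun (q := q) A) (a b c : V) (s : ZMod q)
    (hs : s ≠ 0) : DD q A a (s • b) c = DD q A a b c := by
  rw [DD_anti, DD_smul_left hA _ _ _ _ hs, ← DD_anti]

/-- In dimension at least four there is a vector of `ker f ⊓ ker f'` outside `span {a, b}`, if
`f a ≠ 0`. -/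
theorem exists_ker_notMem [Finite V] (hn : 4 ≤ finrank (ZMod q) V) (f f' : Dual (ZMod q) V)
    (a b : V) (ha : f a ≠ 0) :
    ∃ c : V, f c = 0 ∧ f' c = 0 ∧ c ∉ Submodule.span (ZMod q) {a, b} := by
  by_contra hcon
  push Not at hcon
  have h1 : LinearMap.ker (f.prod f') ≤ Submodule.span (ZMod q) {a, b} ⊓ LinearMap.ker f := by
    intro c hc
    rw [LinearMap.mem_ker, LinearMap.prod_apply, Function.prod_apply, Prod.mk_eq_zero] at hc
    exact ⟨hcon c hc.1 hc.2, LinearMap.mem_ker.2 hc.1⟩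
  have h2 : Submodule.span (ZMod q) {a, b} ⊓ LinearMap.ker f < Submodule.span (ZMod q) {a, b} := by
    refine lt_of_le_of_ne inf_le_left fun h => ?_
    have ha' : a ∈ Submodule.span (ZMod q) {a, b} :=
      Submodule.subset_span (Set.mem_insert _ _)
    rw [← h] at ha'
    exact ha (LinearMap.mem_ker.1 ha'.2)
  have h3 := Submodule.finrank_mono h1
  have h4 := Submodule.finrank_lt_finrank_of_lt h2
  have h5 : finrank (ZMod q) (Submodule.span (ZMod q) {a, b}) ≤ 2 := by
    classical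
    have := finrank_span_finset_le_card (R := ZMod q) ({a, b} : Finset V)
    rw [Finset.coe_pair] at this
    exact this.trans Finset.card_le_two
  have h6 := LinearMap.finrank_range_add_finrank_ker (f.prod f')
  have h7 : finrank (ZMod q) (LinearMap.range (f.prod f')) ≤ 2 := by
    refine (Submodule.finrank_le _).trans ?_
    rw [Module.finrank_prod, Module.finrank_self]
  omega

/-- `G f a = g f (a / f a)`. -/
def GG (g : Dual (ZMod q) V → V → k) (f : Dual (ZMod q) V) (a : V) : k := g f ((f a)⁻¹ • a)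

theorem GG_smul (g : Dual (ZMod q) V → V → k) (f : Dual (ZMod q) V) (a : V) {s : ZMod q}
    (hs : s ≠ 0) : GG g f (s • a) = GG g f a := by
  unfold GG
  rw [map_smul, smul_smul, smul_eq_mul, mul_inv]
  congr 2
  field_simp

section

variable [Finite V] {A : V → V → k} (hA : PairFun (q := q) A) (hn : 4 ≤ finrank (ZMod q) V)
  (hq5 : 5 ≤ q) (hqk : (q : k) ≠ 0) (g d : Dual (ZMod q) V → V → k)
  (hgd : ∀ (f : Dual (ZMod q) V) (x ρ : V), f x = 1 → f ρ = 0 → ρ ≠ 0 →
    A x ρ = d f ρ + ∑ t : ZMod q, g f (x + t • ρ))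

include hA hn hqk hgd in
theorem GG_diff (a b : V) (f f' : Dual (ZMod q) V) (ha : f a ≠ 0) (hb : f b ≠ 0)
    (ha' : f' a ≠ 0) (hb' : f' b ≠ 0) : GG g f a - GG g f b = GG g f' a - GG g f' b := by
  by_cases hab : b ∈ Submodule.span (ZMod q) {a}
  · obtain ⟨s, rfl⟩ := Submodule.mem_span_singleton.1 hab
    have hs : s ≠ 0 := by
      rintro rfl
      simp at hb
    rw [GG_smul g f a hs, GG_smul g f' a hs, sub_self, sub_self]
  obtain ⟨c, hc, hc', hcn⟩ := exists_ker_notMem hn f f' a b ha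
  have hc0 : c ≠ 0 := by
    rintro rfl
    exact hcn (Submodule.zero_mem _)
  have key : ∀ F : Dual (ZMod q) V, F a ≠ 0 → F b ≠ 0 → F c = 0 →
      (q : k) * (GG g F a - GG g F b) = DD q A a b c := by
    intro F hFa hFb hFc
    unfold GG
    rw [← DD_eq hA F (g F) (d F) (hgd F) (a := (F a)⁻¹ • a) (b := (F b)⁻¹ • b) (c := c) (by simp [hFa])
      (by simp [hFb]) hFc hc0 ?_, DD_smul_left hA _ _ _ _ (inv_ne_zero hFa),
      DD_smul_mid hA _ _ _ _ (inv_ne_zero hFb)]
    intro t ht
    by_cases ht0 : t = 0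
    · rw [ht0, zero_smul, add_zero, sub_eq_zero] at ht
      apply hab
      have : b = (F b * (F a)⁻¹) • a := by
        rw [mul_smul, ← ht, smul_smul, mul_inv_cancel₀ hFb, one_smul]
      rw [this]
      exact Submodule.smul_mem _ _ (Submodule.mem_span_singleton_self _)
    · apply hcn
      have h1 : c = t⁻¹ • ((F a)⁻¹ • a - (F b)⁻¹ • b) := by
        have h2 : t • c = (F a)⁻¹ • a - (F b)⁻¹ • b := by
          rw [eq_sub_iff_add_eq, ← sub_eq_zero, ← ht]
          abel
        rw [← h2, smul_smul, inv_mul_cancel₀ ht0, one_smul]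
      rw [h1]
      refine Submodule.smul_mem _ _ (Submodule.sub_mem _ (Submodule.smul_mem _ _ ?_)
        (Submodule.smul_mem _ _ ?_))
      · exact Submodule.subset_span (by simp)
      · exact Submodule.subset_span (by simp)
  have h1 := (key f ha hb hc).trans (key f' ha' hb' hc').symm
  exact mul_left_cancel₀ hqk h1

theorem lineSum_symm (X : V → k) (hX : ∀ (s : ZMod q) (v : V), s ≠ 0 → X (s • v) = X v) (a b : V) :
    X b + ∑ t : ZMod q, X (a + t • b) = X a + ∑ t : ZMod q, X (b + t • a) := by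
  classical
  rw [← Finset.add_sum_erase _ _ (Finset.mem_univ (0 : ZMod q)),
    ← Finset.add_sum_erase _ (fun t : ZMod q => X (b + t • a)) (Finset.mem_univ (0 : ZMod q))]
  have h : ∑ t ∈ (Finset.univ : Finset (ZMod q)).erase 0, X (a + t • b)
      = ∑ t ∈ (Finset.univ : Finset (ZMod q)).erase 0, X (b + t • a) := by
    refine Finset.sum_bij' (fun t _ => t⁻¹) (fun t _ => t⁻¹) ?_ ?_ ?_ ?_ ?_
    · intro t ht
      simpa using ht
    · intro t ht
      simpa using ht
    · intro t _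
      simp
    · intro t _
      simp
    · intro t ht
      have ht0 : t ≠ 0 := (Finset.mem_erase.1 ht).1
      rw [← hX t⁻¹ _ (inv_ne_zero ht0), smul_add, smul_smul, inv_mul_cancel₀ ht0, one_smul, add_comm]
  rw [h]
  simp
  ring

theorem lineSum_smul (X : V → k) (hX : ∀ (s : ZMod q) (v : V), s ≠ 0 → X (s • v) = X v) (a b : V)
    (s : ZMod q) (hs : s ≠ 0) :
    ∑ t : ZMod q, X (s • a + t • b) = ∑ t : ZMod q, X (a + t • b) := by
  rw [← Equiv.sum_comp (Equiv.mulLeft₀ s hs)]
  refine Finset.sum_congr rfl fun t _ => ?_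
  rw [Equiv.mulLeft₀_apply, mul_smul, ← smul_add, hX _ _ hs]

include hA hn hq5 hqk hgd in
/-- The geometric half of the generation lemma for lines. -/
theorem gen_lines_geom : ∃ (X : V → k) (C : k), (∀ (s : ZMod q) (v : V), s ≠ 0 → X (s • v) = X v) ∧
    ∀ a b : V, b ≠ 0 → a ∉ Submodule.span (ZMod q) {b} →
      A a b = X b + ∑ t : ZMod q, X (a + t • b) + C := by
  classical
  have hnt : Nontrivial V := by
    apply Module.nontrivial_of_finrank_pos (R := ZMod q)
    omega
  obtain ⟨o, ho⟩ := exists_ne (0 : V)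
  have hex : ∀ v : V, ∃ f : Dual (ZMod q) V, v ≠ 0 → f v ≠ 0 ∧ f o ≠ 0 := by
    intro v
    by_cases hv : v = 0
    · exact ⟨0, fun h => absurd hv h⟩
    · obtain ⟨f, h1, h2, _⟩ := exists_dual_three hq5 hv ho ho
      exact ⟨f, fun _ => ⟨h1, h2⟩⟩
  choose F hF using hex
  set X : V → k := fun v => if v = 0 then 0 else GG g (F v) v - GG g (F v) o with hXdef
  have W := fun a b f f' h1 h2 h3 h4 => GG_diff hA hn hqk g d hgd a b f f' h1 h2 h3 h4
  have X1 : ∀ (v : V) (f : Dual (ZMod q) V), f v ≠ 0 → f o ≠ 0 → X v = GG g f v - GG g f o := by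
    intro v f h1 h2
    have hv : v ≠ 0 := by
      rintro rfl
      simp at h1
    simp only [hXdef, hv, if_false]
    exact W v o _ _ (hF v hv).1 (hF v hv).2 h1 h2
  have X2 : ∀ (a b : V) (f : Dual (ZMod q) V), f a ≠ 0 → f b ≠ 0 →
      GG g f a - GG g f b = X a - X b := by
    intro a b f h1 h2
    have ha : a ≠ 0 := by
      rintro rfl
      simp at h1
    have hb : b ≠ 0 := by
      rintro rfl
      simp at h2
    obtain ⟨f', h3, h4, h5⟩ := exists_dual_three hq5 ha hb ho
    rw [X1 a f' h3 h5, X1 b f' h4 h5, W a b f f' h1 h2 h3 h4]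
    ring
  have hX : ∀ (s : ZMod q) (v : V), s ≠ 0 → X (s • v) = X v := by
    intro s v hs
    by_cases hv : v = 0
    · rw [hv, smul_zero]
    · rw [X1 v (F v) (hF v hv).1 (hF v hv).2, X1 (s • v) (F v)
        (by simpa [hs] using (hF v hv).1) (hF v hv).2, GG_smul g _ _ hs]
  set B : V → V → k := fun a b => A a b - (X b + ∑ t : ZMod q, X (a + t • b)) with hB
  have B1 : ∀ (f : Dual (ZMod q) V) (x x' ρ : V), f x ≠ 0 → f x' ≠ 0 → f ρ = 0 → ρ ≠ 0 →
      B x ρ = B x' ρ := by
    intro f x x' ρ hx hx' hρ hρ0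
    have h1 : ∀ y : V, f y ≠ 0 → B y ρ = B ((f y)⁻¹ • y) ρ := by
      intro y hy
      simp only [hB]
      rw [hA.smul' _ _ _ (inv_ne_zero hy), lineSum_smul X hX _ _ _ (inv_ne_zero hy)]
    have h2 : ∀ y : V, f y = 1 → B y ρ = d f ρ - X ρ + ∑ t : ZMod q, (g f (y + t • ρ) - X (y + t • ρ)) := by
      intro y hy
      simp only [hB]
      rw [hgd f y ρ hy hρ hρ0, Finset.sum_sub_distrib]
      ring
    rw [h1 x hx, h1 x' hx', h2 _ (by simp [hx]), h2 _ (by simp [hx'])]
    congr 1
    refine Finset.sum_congr rfl fun t _ => ?_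
    set y := (f x)⁻¹ • x + t • ρ with hy
    set y' := (f x')⁻¹ • x' + t • ρ with hy'
    have hfy : f y = 1 := by simp [hy, hx, hρ]
    have hfy' : f y' = 1 := by simp [hy', hx', hρ]
    have h3 := X2 y y' f (by rw [hfy]; exact one_ne_zero) (by rw [hfy']; exact one_ne_zero)
    unfold GG at h3
    rw [hfy, hfy', inv_one, one_smul, one_smul] at h3
    linear_combination h3
  have B2 : ∀ x x' ρ : V, ρ ≠ 0 → x ∉ Submodule.span (ZMod q) {ρ} →
      x' ∉ Submodule.span (ZMod q) {ρ} → B x ρ = B x' ρ := by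
    intro x x' ρ hρ hx hx'
    have h1 : (Submodule.span (ZMod q) {ρ}).mkQ x ≠ 0 := by
      rwa [Ne, ← LinearMap.mem_ker, Submodule.ker_mkQ]
    have h2 : (Submodule.span (ZMod q) {ρ}).mkQ x' ≠ 0 := by
      rwa [Ne, ← LinearMap.mem_ker, Submodule.ker_mkQ]
    obtain ⟨f, h3, h4, _⟩ := exists_dual_three hq5 h1 h2 h2
    refine B1 (f ∘ₗ (Submodule.span (ZMod q) {ρ}).mkQ) x x' ρ h3 h4 ?_ hρ
    have h5 : (Submodule.span (ZMod q) {ρ}).mkQ ρ = 0 := by
      rw [← LinearMap.mem_ker, Submodule.ker_mkQ]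
      exact Submodule.mem_span_singleton_self _
    rw [LinearMap.comp_apply, h5, map_zero]
  have B3 : ∀ x ρ : V, B x ρ = B ρ x := by
    intro x ρ
    simp only [hB]
    rw [hA.symm, lineSum_symm X hX]
  have hproper : ∀ ρ : V, Submodule.span (ZMod q) {ρ} ≠ ⊤ := by
    intro ρ h
    have h1 := finrank_span_singleton_le_one (q := q) ρ
    rw [h, finrank_top] at h1
    omega
  have hsw : ∀ z ρ : V, ρ ≠ 0 → z ∉ Submodule.span (ZMod q) {ρ} →
      ρ ∉ Submodule.span (ZMod q) {z} := by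
    intro z ρ hρ hz h
    obtain ⟨s, hs⟩ := Submodule.mem_span_singleton.1 h
    have hs0 : s ≠ 0 := by
      rintro rfl
      exact hρ (by simpa using hs.symm)
    apply hz
    rw [← hs]
    refine Submodule.mem_span_singleton.2 ⟨s⁻¹, ?_⟩
    rw [smul_smul, inv_mul_cancel₀ hs0, one_smul]
  have B4 : ∀ x ρ x' ρ' : V, ρ ≠ 0 → ρ' ≠ 0 → x ∉ Submodule.span (ZMod q) {ρ} →
      x' ∉ Submodule.span (ZMod q) {ρ'} → B x ρ = B x' ρ' := by
    intro x ρ x' ρ' hρ hρ' hx hx'
    obtain ⟨z, hz, hz'⟩ := exists_notMem_two (hproper ρ) (hproper ρ')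
    have hz0 : z ≠ 0 := by
      rintro rfl
      exact hz (Submodule.zero_mem _)
    rw [B2 x z ρ hρ hx hz, B3 z ρ, B2 ρ ρ' z hz0 (hsw z ρ hρ hz) (hsw z ρ' hρ' hz'), B3 ρ' z,
      B2 z x' ρ' hρ' hz' hx']
  by_cases hpair : ∃ x ρ : V, ρ ≠ 0 ∧ x ∉ Submodule.span (ZMod q) {ρ}
  · obtain ⟨x, ρ, hρ, hx⟩ := hpair
    refine ⟨X, B x ρ, hX, fun a b hb hab => ?_⟩
    have := B4 a b x ρ hb hρ hab hx
    rw [← this]
    simp only [hB]
    ring
  · exact ⟨X, 0, hX, fun a b hb hab => absurd ⟨a, b, hb, hab⟩ hpair⟩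

end

end

end Pool.Agent.Helper255.PPart
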