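import Pool.Agent.Helper255.PPart.GenLines

/-!
The generation lemma for lines: the Fourier half.
-/

namespace Pool.Agent.Helper255.PPart

open Module

attribute [local instance 10] Fintype.ofFinite

noncomputable section

variable {q : ℕ} [Fact q.Prime] {k : Type*} [Field k]
variable {V : Type*} [AddCommGroup V] [Module (ZMod q) V]

/-- A dual system of vectors and functionals. -/
def DualSys {q : ℕ} {V : Type*} [AddCommGroup V] [Module (ZMod q) V] {m : ℕ}
    (f : Fin m → Dual (ZMod q) V) (v : Fin m → V) : Prop :=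
  ∀ i j, f i (v j) = if i = j then 1 else 0

/-- Two independent vectors admit a functional equal to one on both. -/
theorem exists_dual_pair_one {F V : Type*} [Field F] [AddCommGroup V] [Module F V] {a b : V}
    (ha : a ≠ 0) (hab : b ∉ Submodule.span F {a}) : ∃ f : Dual F V, f a = 1 ∧ f b = 1 := by
  obtain ⟨f1, h1⟩ := exists_dual_eq_one (F := F) ha
  have h2 : (Submodule.span F {a}).mkQ b ≠ 0 := by
    rwa [Ne, ← LinearMap.mem_ker, Submodule.ker_mkQ]
  obtain ⟨f2, h3⟩ := exists_dual_eq_one (F := F) h2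
  have h4 : (Submodule.span F {a}).mkQ a = 0 := by
    rw [← LinearMap.mem_ker, Submodule.ker_mkQ]
    exact Submodule.mem_span_singleton_self _
  refine ⟨f1 + (1 - f1 b) • (f2 ∘ₗ (Submodule.span F {a}).mkQ), ?_, ?_⟩
  · simp [h1, h4]
  · rw [LinearMap.add_apply, LinearMap.smul_apply, LinearMap.comp_apply, h3, smul_eq_mul]
    ring

/-- The functional `L` attached to a dual system. -/
def Lline (ζ : AddChar (ZMod q) k) [Finite V] (f0 f1 f2 f3 : Dual (ZMod q) V) (v0 v2 : V)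
    (A : V → V → k) : k :=
  ∑ κ : ↥(LinearMap.ker f0 ⊓ LinearMap.ker f1 ⊓ LinearMap.ker f2), ∑ h : ↥(LinearMap.ker f0),
    ζ (f1 h) * ζ (f3 κ) * A (v0 + h) (v2 + κ)

theorem stepF_lines (ζ : AddChar (ZMod q) k) (hζ : ζ 1 ≠ 1) (hqk : (q : k) ≠ 0) [Finite V]
    {A : V → V → k} (hA : PairFun (q := q) A)
    (hyp : ∀ f0 f1 f2 f3 : Dual (ZMod q) V, ∀ v0 v1 v2 v3 : V,
      DualSys ![f0, f1, f2, f3] ![v0, v1, v2, v3] → Lline ζ f0 f1 f2 f3 v0 v2 A = 0)
    (f0 : Dual (ZMod q) V) : ∃ g d : V → k, ∀ x ρ : V, f0 x = 1 → f0 ρ = 0 → ρ ≠ 0 →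
      A x ρ = d ρ + ∑ t : ZMod q, g (x + t • ρ) := by
  classical
  by_cases hv0 : ∃ v0 : V, f0 v0 = 1
  swap
  · exact ⟨0, 0, fun x ρ hx => absurd ⟨x, hx⟩ hv0⟩
  obtain ⟨v0, hv0⟩ := hv0
  have main := fourier_lines ζ hζ hqk (H := ↥(LinearMap.ker f0)) (fun h ρ => A (v0 + h) ρ)
    (fun h ρ t => by
      show A (v0 + ((h + t • ρ : ↥(LinearMap.ker f0)) : V)) (ρ : V) = A (v0 + (h : V)) (ρ : V)
      rw [Submodule.coe_add, Submodule.coe_smul, ← add_assoc, hA.add']) ?_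
  · obtain ⟨g, d, hgd⟩ := main
    -- the projection to the kernel
    let π : V →ₗ[ZMod q] ↥(LinearMap.ker f0) :=
      (LinearMap.id - f0.smulRight v0).codRestrict (LinearMap.ker f0) (fun x => by
        simp [hv0])
    have hπ : ∀ x : V, ((π x : ↥(LinearMap.ker f0)) : V) = x - f0 x • v0 := fun x => rfl
    refine ⟨fun x => g (π x), fun x => d (π x), fun x ρ hx hρ hρ0 => ?_⟩
    have h1 : ((π ρ : ↥(LinearMap.ker f0)) : V) = ρ := by
      rw [hπ, hρ, zero_smul, sub_zero]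
    have h2 : v0 + ((π x : ↥(LinearMap.ker f0)) : V) = x := by
      rw [hπ, hx, one_smul]; abel
    have h3 := hgd (π x) (π ρ) (fun h => hρ0 (by rw [← h1, h]; rfl))
    rw [h1, h2] at h3
    rw [h3]
    simp only [map_add, map_smul]
  · intro φ hφ ρ ρ' hρ hρ' hφρ hφρ'
    by_cases hdep : ρ' ∈ Submodule.span (ZMod q) {ρ}
    · obtain ⟨s, rfl⟩ := Submodule.mem_span_singleton.1 hdep
      have hs : s ≠ 0 := by
        rintro rfl
        simp at hρ'
      unfold FT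
      refine Finset.sum_congr rfl fun h _ => ?_
      simp only
      rw [Submodule.coe_smul, hA.smul _ _ _ hs]
    -- independent case
    have hρV : (ρ : V) ≠ 0 := fun h => hρ (by ext; exact h)
    have hdepV : (ρ' : V) ∉ Submodule.span (ZMod q) {(ρ : V)} := by
      intro h
      obtain ⟨s, hs⟩ := Submodule.mem_span_singleton.1 h
      exact hdep (Submodule.mem_span_singleton.2 ⟨s, by ext; exact hs⟩)
    obtain ⟨f, hfρ, hfρ'⟩ := exists_dual_pair_one hρV hdepV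
    obtain ⟨e1, he1⟩ := LinearMap.exists_extend φ
    have he1' : ∀ h : ↥(LinearMap.ker f0), e1 h = φ h := fun h => by
      rw [← he1]; rfl
    obtain ⟨u1, hu1⟩ : ∃ u1 : ↥(LinearMap.ker f0), φ u1 ≠ 0 := by
      by_contra hcon
      push Not at hcon
      exact hφ (LinearMap.ext hcon)
    set v1 : ↥(LinearMap.ker f0) := (φ u1)⁻¹ • u1 with hv1
    have hφv1 : φ v1 = 1 := by simp [hv1, hu1]
    set f1 : Dual (ZMod q) V := e1 - e1 v0 • f0 with hf1
    have hf1v0 : f1 v0 = 0 := by simp [hf1, hv0]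
    have hf0h : ∀ h : ↥(LinearMap.ker f0), f0 h = 0 := fun h => LinearMap.mem_ker.1 h.2
    have hf1h : ∀ h : ↥(LinearMap.ker f0), f1 h = φ h := by
      intro h
      simp [hf1, he1']
    set f2 : Dual (ZMod q) V := f - f v0 • f0 - f v1 • f1 with hf2
    have hf2v0 : f2 v0 = 0 := by simp [hf2, hv0, hf1v0]
    have hf2v1 : f2 v1 = 0 := by simp [hf2, hf1h, hφv1]
    have hf2ρ : f2 ρ = 1 := by simp [hf2, hf1h, hφρ, hfρ]
    have hf2ρ' : f2 ρ' = 1 := by simp [hf2, hf1h, hφρ', hfρ']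
    set J := LinearMap.ker f0 ⊓ LinearMap.ker f1 ⊓ LinearMap.ker f2 with hJ
    have hκ0 : (ρ' : V) - ρ ∈ J := by
      refine ⟨⟨?_, ?_⟩, ?_⟩
      · simp
      · simp [hf1h, hφρ, hφρ']
      · simp [hf2ρ, hf2ρ']
    have hJ0 : ∀ κ : J, f0 κ = 0 := fun κ => LinearMap.mem_ker.1 κ.2.1.1
    have hJ1 : ∀ κ : J, f1 κ = 0 := fun κ => LinearMap.mem_ker.1 κ.2.1.2
    have hJ2 : ∀ κ : J, f2 κ = 0 := fun κ => LinearMap.mem_ker.1 κ.2.2
    have hconst := const_of_FT ζ hζ hqk (H := J)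
      (fun κ => FT ζ (fun h : ↥(LinearMap.ker f0) => A (v0 + h) (ρ + κ)) φ) ?_ 0 ⟨_, hκ0⟩
    · simpa using hconst
    · intro ψ hψ
      obtain ⟨e3, he3⟩ := LinearMap.exists_extend ψ
      have he3' : ∀ κ : J, e3 κ = ψ κ := fun κ => by
        rw [← he3]; rfl
      obtain ⟨u3, hu3⟩ : ∃ u3 : J, ψ u3 ≠ 0 := by
        by_contra hcon
        push Not at hcon
        exact hψ (LinearMap.ext hcon)
      set v3 : J := (ψ u3)⁻¹ • u3 with hv3
      have hψv3 : ψ v3 = 1 := by simp [hv3, hu3]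
      set f3 : Dual (ZMod q) V := e3 - e3 v0 • f0 - e3 v1 • f1 - e3 ρ • f2 with hf3
      have hf3v0 : f3 v0 = 0 := by simp [hf3, hv0, hf1v0, hf2v0]
      have hf3v1 : f3 v1 = 0 := by simp [hf3, hf1h, hφv1, hf2v1]
      have hf3v2 : f3 ρ = 0 := by simp [hf3, hf1h, hφρ, hf2ρ]
      have hf3κ : ∀ κ : J, f3 κ = ψ κ := by
        intro κ
        simp [hf3, he3', hJ0, hJ1, hJ2]
      have hsys : DualSys ![f0, f1, f2, f3] ![v0, (v1 : V), (ρ : V), (v3 : V)] := by
        intro i j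
        fin_cases i <;> fin_cases j <;>
          simp [hv0, hf1v0, hf2v0, hf3v0, hf1h, hφv1, hf2v1, hf3v1, hφρ, hf2ρ, hf3v2, hJ0, hJ1,
            hJ2, hf3κ, hψv3]
      have h := hyp f0 f1 f2 f3 v0 v1 ρ v3 hsys
      unfold Lline at h
      rw [← h]
      unfold FT
      refine Finset.sum_congr rfl fun κ _ => ?_
      rw [Finset.mul_sum]
      refine Finset.sum_congr rfl fun h _ => ?_
      rw [hf1h, hf3κ]
      ring

/-- The generation lemma for lines. -/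
theorem gen_lines (ζ : AddChar (ZMod q) k) (hζ : ζ 1 ≠ 1) (hqk : (q : k) ≠ 0) [Finite V]
    (hn : 4 ≤ finrank (ZMod q) V) (hq5 : 5 ≤ q)
    {A : V → V → k} (hA : PairFun (q := q) A)
    (hyp : ∀ f0 f1 f2 f3 : Dual (ZMod q) V, ∀ v0 v1 v2 v3 : V,
      DualSys ![f0, f1, f2, f3] ![v0, v1, v2, v3] → Lline ζ f0 f1 f2 f3 v0 v2 A = 0) :
    ∃ (X : V → k) (C : k), (∀ (s : ZMod q) (v : V), s ≠ 0 → X (s • v) = X v) ∧
    ∀ a b : V, b ≠ 0 → a ∉ Submodule.span (ZMod q) {b} →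
      A a b = X b + ∑ t : ZMod q, X (a + t • b) + C := by
  choose g d hgd using stepF_lines ζ hζ hqk hA hyp
  exact gen_lines_geom hA hn hq5 hqk g d hgd

end

end Pool.Agent.Helper255.PPart
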