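import Pool.Agent.Helper255.PPart.Avg

/-!
Points and lines of a finite projective space, as one- and two-dimensional subspaces.
-/

namespace Pool.Agent.Helper255.PPart

open Module

attribute [local instance 10] Fintype.ofFinite

noncomputable section

universe u

/-- One-dimensional subspaces. -/
def Pt (q : ℕ) (V : Type) [AddCommGroup V] [Module (ZMod q) V] : Type :=
  {W : Submodule (ZMod q) V // finrank (ZMod q) W = 1}

/-- Two-dimensional subspaces. -/
def Ln (q : ℕ) (V : Type) [AddCommGroup V] [Module (ZMod q) V] : Type :=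
  {W : Submodule (ZMod q) V // finrank (ZMod q) W = 2}

variable {q : ℕ} [Fact q.Prime] {k : Type u} [Field k]
variable {V : Type} [AddCommGroup V] [Module (ZMod q) V]

theorem Pt.ext {P Q : Pt q V} (h : P.1 = Q.1) : P = Q := Subtype.ext h
theorem Ln.ext {P Q : Ln q V} (h : P.1 = Q.1) : P = Q := Subtype.ext h

instance instFiniteSubmodule [Finite V] : Finite (Submodule (ZMod q) V) :=
  Finite.of_injective (fun W : Submodule (ZMod q) V => (W : Set V)) SetLike.coe_injective

instance instFinitePt [Finite V] : Finite (Pt q V) := by unfold Pt; infer_instance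
instance instFiniteLn [Finite V] : Finite (Ln q V) := by unfold Ln; infer_instance

/-- Action on points. -/
instance instActPt : MulAction (V ≃ₗ[ZMod q] V) (Pt q V) where
  smul g P := ⟨P.1.map (g : V →ₗ[ZMod q] V), by
    rw [LinearEquiv.finrank_map_eq]; exact P.2⟩
  one_smul P := by
    apply Pt.ext
    show P.1.map ((1 : V ≃ₗ[ZMod q] V) : V →ₗ[ZMod q] V) = P.1
    exact Submodule.map_id _
  mul_smul g h P := by
    apply Pt.ext
    show P.1.map ((g * h : V ≃ₗ[ZMod q] V) : V →ₗ[ZMod q] V) =
      (P.1.map (h : V →ₗ[ZMod q] V)).map (g : V →ₗ[ZMod q] V)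
    rw [← Submodule.map_comp]
    rfl

/-- Action on lines. -/
instance instActLn : MulAction (V ≃ₗ[ZMod q] V) (Ln q V) where
  smul g P := ⟨P.1.map (g : V →ₗ[ZMod q] V), by
    rw [LinearEquiv.finrank_map_eq]; exact P.2⟩
  one_smul P := by
    apply Ln.ext
    show P.1.map ((1 : V ≃ₗ[ZMod q] V) : V →ₗ[ZMod q] V) = P.1
    exact Submodule.map_id _
  mul_smul g h P := by
    apply Ln.ext
    show P.1.map ((g * h : V ≃ₗ[ZMod q] V) : V →ₗ[ZMod q] V) =
      (P.1.map (h : V →ₗ[ZMod q] V)).map (g : V →ₗ[ZMod q] V)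
    rw [← Submodule.map_comp]
    rfl

theorem Pt.smul_coe (g : V ≃ₗ[ZMod q] V) (P : Pt q V) :
    (g • P).1 = P.1.map (g : V →ₗ[ZMod q] V) := rfl
theorem Ln.smul_coe (g : V ≃ₗ[ZMod q] V) (P : Ln q V) :
    (g • P).1 = P.1.map (g : V →ₗ[ZMod q] V) := rfl

theorem smul_le_smul (g : V ≃ₗ[ZMod q] V) (P : Pt q V) (l : Ln q V) :
    (g • P).1 ≤ (g • l).1 ↔ P.1 ≤ l.1 := by
  rw [Pt.smul_coe, Ln.smul_coe]
  constructor
  · intro h x hx
    obtain ⟨y, hy, hxy⟩ := h (Submodule.mem_map_of_mem hx)
    rw [← g.injective hxy]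
    exact hy
  · exact fun h => Submodule.map_mono h

/-! ### Spans -/

theorem finrank_span_one {v : V} (hv : v ≠ 0) :
    finrank (ZMod q) (Submodule.span (ZMod q) {v}) = 1 := finrank_span_singleton hv

/-- The point spanned by a nonzero vector. -/
def mkP (v : V) (hv : v ≠ 0) : Pt q V := ⟨Submodule.span (ZMod q) {v}, finrank_span_one hv⟩

theorem finrank_span_pair [Finite V] {a b : V} (hb : b ≠ 0)
    (hab : a ∉ Submodule.span (ZMod q) {b}) :
    finrank (ZMod q) (Submodule.span (ZMod q) {a, b}) = 2 := by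
  classical
  have h5 : finrank (ZMod q) (Submodule.span (ZMod q) {a, b}) ≤ 2 := by
    have := finrank_span_finset_le_card (R := ZMod q) ({a, b} : Finset V)
    rw [Finset.coe_pair] at this
    exact this.trans Finset.card_le_two
  have h1 : Submodule.span (ZMod q) {b} < Submodule.span (ZMod q) {a, b} := by
    refine lt_of_le_of_ne (Submodule.span_mono (by simp)) fun h => hab ?_
    rw [h]
    exact Submodule.subset_span (by simp)
  have h2 := Submodule.finrank_lt_finrank_of_lt h1
  rw [finrank_span_one hb] at h2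
  omega

/-- The line spanned by two vectors. -/
def mkL [Finite V] (a b : V) (hb : b ≠ 0) (hab : a ∉ Submodule.span (ZMod q) {b}) : Ln q V :=
  ⟨Submodule.span (ZMod q) {a, b}, finrank_span_pair hb hab⟩

theorem mem_span_pair_left (a b : V) : a ∈ Submodule.span (ZMod q) {a, b} :=
  Submodule.subset_span (by simp)

theorem mem_span_pair_right (a b : V) : b ∈ Submodule.span (ZMod q) {a, b} :=
  Submodule.subset_span (by simp)

theorem span_pair_le {a b : V} {W : Submodule (ZMod q) V} :
    Submodule.span (ZMod q) {a, b} ≤ W ↔ a ∈ W ∧ b ∈ W := by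
  rw [Submodule.span_le, Set.insert_subset_iff, Set.singleton_subset_iff]
  rfl

theorem span_pair_add (a b : V) (t : ZMod q) :
    Submodule.span (ZMod q) {a, b + t • a} = Submodule.span (ZMod q) {a, b} := by
  apply le_antisymm
  · rw [span_pair_le]
    exact ⟨mem_span_pair_left _ _, Submodule.add_mem _ (mem_span_pair_right _ _)
      (Submodule.smul_mem _ _ (mem_span_pair_left _ _))⟩
  · rw [span_pair_le]
    refine ⟨mem_span_pair_left _ _, ?_⟩
    have h : b = (b + t • a) - t • a := by abel
    rw [h]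
    refine Submodule.sub_mem _ ?_ (Submodule.smul_mem _ _ (mem_span_pair_left _ _))
    rw [← h]
    exact mem_span_pair_right _ _

theorem span_pair_smul (a b : V) {t : ZMod q} (ht : t ≠ 0) :
    Submodule.span (ZMod q) {a, t • b} = Submodule.span (ZMod q) {a, b} := by
  apply le_antisymm
  · rw [span_pair_le]
    exact ⟨mem_span_pair_left _ _, Submodule.smul_mem _ _ (mem_span_pair_right _ _)⟩
  · rw [span_pair_le]
    refine ⟨mem_span_pair_left _ _, ?_⟩
    have h : b = t⁻¹ • (t • b) := by rw [smul_smul, inv_mul_cancel₀ ht, one_smul]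
    rw [h]
    refine Submodule.smul_mem _ _ ?_
    rw [← h]
    exact mem_span_pair_right _ _

theorem span_single_smul (b : V) {t : ZMod q} (ht : t ≠ 0) :
    Submodule.span (ZMod q) {t • b} = Submodule.span (ZMod q) {b} :=
  Submodule.span_singleton_smul_eq (IsUnit.mk0 t ht) b

/-- Every line containing a nonzero vector `b` is spanned by `b` and another vector. -/
theorem Ln.exists_basis [Finite V] (l : Ln q V) {b : V} (hb : b ∈ l.1) (hb0 : b ≠ 0) :
    ∃ a ∈ l.1, ∃ hab : a ∉ Submodule.span (ZMod q) {b}, l = mkL a b hb0 hab := by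
  have h1 : Submodule.span (ZMod q) {b} < l.1 := by
    refine lt_of_le_of_ne (by rw [Submodule.span_le]; simpa using hb) fun h => ?_
    have h2 := finrank_span_one (q := q) hb0
    rw [h, l.2] at h2
    omega
  obtain ⟨a, ha, hab⟩ := SetLike.exists_of_lt h1
  refine ⟨a, ha, hab, Ln.ext ?_⟩
  refine (Submodule.eq_of_le_of_finrank_eq (span_pair_le.2 ⟨ha, hb⟩) ?_).symm
  rw [finrank_span_pair hb0 hab, l.2]

theorem Ln.exists_ne_zero (l : Ln q V) : ∃ b ∈ l.1, b ≠ 0 := by
  have h : l.1 ≠ ⊥ := by
    intro h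
    have h2 := l.2
    rw [h, finrank_bot] at h2
    omega
  exact Submodule.exists_mem_ne_zero_of_ne_bot h

theorem Pt.exists_rep (P : Pt q V) : ∃ (v : V) (hv : v ≠ 0), P = mkP v hv := by
  obtain ⟨v, hv, h⟩ := finrank_eq_one_iff'.1 P.2
  have hv0 : (v : V) ≠ 0 := fun h' => hv (Subtype.ext h')
  refine ⟨v, hv0, Pt.ext ?_⟩
  apply le_antisymm
  · intro x hx
    obtain ⟨c, hc⟩ := h ⟨x, hx⟩
    exact Submodule.mem_span_singleton.2 ⟨c, congrArg Subtype.val hc⟩
  · show Submodule.span (ZMod q) {(v : V)} ≤ P.1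
    rw [Submodule.span_le, Set.singleton_subset_iff]
    exact v.2

theorem mkP_le_iff {v : V} (hv : v ≠ 0) (W : Submodule (ZMod q) V) :
    (mkP (q := q) v hv).1 ≤ W ↔ v ∈ W := by
  show Submodule.span (ZMod q) {v} ≤ W ↔ v ∈ W
  rw [Submodule.span_le, Set.singleton_subset_iff]
  rfl

theorem mkP_eq_iff {v w : V} (hv : v ≠ 0) (hw : w ≠ 0) :
    mkP (q := q) v hv = mkP w hw ↔ v ∈ Submodule.span (ZMod q) {w} := by
  constructor
  · intro h
    have h1 : Submodule.span (ZMod q) {v} = Submodule.span (ZMod q) {w} := congrArg Subtype.val h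
    rw [← h1]
    exact Submodule.mem_span_singleton_self v
  · intro h
    obtain ⟨c, hc⟩ := Submodule.mem_span_singleton.1 h
    have hc0 : c ≠ 0 := by
      rintro rfl
      exact hv (by simpa using hc.symm)
    apply Pt.ext
    show Submodule.span (ZMod q) {v} = Submodule.span (ZMod q) {w}
    rw [← hc, span_single_smul _ hc0]

theorem add_smul_ne_zero {a b : V} (hab : a ∉ Submodule.span (ZMod q) {b}) (t : ZMod q) :
    a + t • b ≠ 0 := by
  intro h
  apply hab
  rw [add_eq_zero_iff_eq_neg] at h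
  rw [h]
  exact Submodule.neg_mem _ (Submodule.smul_mem _ _ (Submodule.mem_span_singleton_self b))

/-- The incidence function. -/
def inc (R : Type*) [Zero R] [One R] (P : Pt q V) (l : Ln q V) : R := by
  classical
  exact if P.1 ≤ l.1 then 1 else 0

theorem inc_of_le {R : Type*} [Zero R] [One R] {P : Pt q V} {l : Ln q V} (h : P.1 ≤ l.1) :
    inc R P l = 1 := by
  unfold inc; rw [if_pos h]

theorem inc_of_not_le {R : Type*} [Zero R] [One R] {P : Pt q V} {l : Ln q V} (h : ¬ P.1 ≤ l.1) :
    inc R P l = 0 := by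
  unfold inc; rw [if_neg h]

theorem inc_cast (R : Type*) [NonAssocSemiring R] (P : Pt q V) (l : Ln q V) :
    ((inc ℕ P l : ℕ) : R) = inc R P l := by
  by_cases h : P.1 ≤ l.1
  · rw [inc_of_le h, inc_of_le h, Nat.cast_one]
  · rw [inc_of_not_le h, inc_of_not_le h, Nat.cast_zero]

theorem inc_smul (R : Type*) [Zero R] [One R] (g : V ≃ₗ[ZMod q] V) (P : Pt q V) (l : Ln q V) :
    inc R (g • P) (g • l) = inc R P l := by
  by_cases h : P.1 ≤ l.1
  · rw [inc_of_le h, inc_of_le ((smul_le_smul g P l).2 h)]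
  · rw [inc_of_not_le h, inc_of_not_le fun h' => h ((smul_le_smul g P l).1 h')]

/-- The sum over the points of a line. -/
theorem sum_points_on_line [Finite V] {M : Type*} [Semiring M] (Y : Pt q V → M) {a b : V}
    (hb : b ≠ 0) (hab : a ∉ Submodule.span (ZMod q) {b}) :
    ∑ P : Pt q V, inc M P (mkL a b hb hab) * Y P =
      Y (mkP b hb) + ∑ t : ZMod q, Y (mkP (a + t • b) (add_smul_ne_zero hab t)) := by
  classical
  let emb : Option (ZMod q) → Pt q V := fun o =>
    o.elim (mkP b hb) (fun t => mkP (a + t • b) (add_smul_ne_zero hab t))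
  have hinj : Function.Injective emb := by
    intro o o' h
    rcases o with _ | t <;> rcases o' with _ | s
    · rfl
    · exfalso
      have h1 : mkP b hb = mkP (q := q) (a + s • b) (add_smul_ne_zero hab s) := h
      rw [eq_comm, mkP_eq_iff] at h1
      apply hab
      have : a = (a + s • b) - s • b := by abel
      rw [this]
      exact Submodule.sub_mem _ h1 (Submodule.smul_mem _ _ (Submodule.mem_span_singleton_self b))
    · exfalso
      have h1 : mkP (q := q) (a + t • b) (add_smul_ne_zero hab t) = mkP b hb := h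
      rw [mkP_eq_iff] at h1
      apply hab
      have : a = (a + t • b) - t • b := by abel
      rw [this]
      exact Submodule.sub_mem _ h1 (Submodule.smul_mem _ _ (Submodule.mem_span_singleton_self b))
    · have h1 : mkP (q := q) (a + t • b) (add_smul_ne_zero hab t) =
        mkP (a + s • b) (add_smul_ne_zero hab s) := h
      rw [mkP_eq_iff] at h1
      obtain ⟨c, hc⟩ := Submodule.mem_span_singleton.1 h1
      have h2 : (c - 1) • a = (t - c * s) • b := by
        rw [sub_smul, sub_smul, one_smul, mul_smul, sub_eq_sub_iff_add_eq_add, ← smul_add, hc]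
        abel
      have hc1 : c = 1 := by
        by_contra hne
        apply hab
        have h3 : a = ((c - 1)⁻¹ * (t - c * s)) • b := by
          rw [mul_smul, ← h2, smul_smul, inv_mul_cancel₀ (sub_ne_zero.2 hne), one_smul]
        rw [h3]
        exact Submodule.smul_mem _ _ (Submodule.mem_span_singleton_self b)
      rw [hc1, sub_self, zero_smul, one_mul, eq_comm, smul_eq_zero] at h2
      have h4 := h2.resolve_right hb
      rw [sub_eq_zero.1 h4]
  have hrange : ∀ P : Pt q V, P.1 ≤ (mkL a b hb hab).1 ↔ P ∈ Finset.univ.image emb := by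
    intro P
    rw [Finset.mem_image]
    constructor
    · intro h
      obtain ⟨v, hv, rfl⟩ := P.exists_rep
      rw [mkP_le_iff] at h
      obtain ⟨α, β, hαβ⟩ := Submodule.mem_span_pair.1 h
      by_cases hα : α = 0
      · refine ⟨none, Finset.mem_univ _, ?_⟩
        show mkP b hb = mkP v hv
        rw [eq_comm, mkP_eq_iff, ← hαβ, hα, zero_smul, zero_add]
        exact Submodule.smul_mem _ _ (Submodule.mem_span_singleton_self b)
      · refine ⟨some (α⁻¹ * β), Finset.mem_univ _, ?_⟩
        show mkP (a + (α⁻¹ * β) • b) (add_smul_ne_zero hab _) = mkP v hv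
        rw [mkP_eq_iff, ← hαβ]
        have : a + (α⁻¹ * β) • b = α⁻¹ • (α • a + β • b) := by
          rw [smul_add, smul_smul, smul_smul, inv_mul_cancel₀ hα, one_smul]
        rw [this]
        exact Submodule.smul_mem _ _ (Submodule.mem_span_singleton_self _)
    · rintro ⟨o, _, rfl⟩
      rcases o with _ | t
      · show (mkP b hb).1 ≤ _
        rw [mkP_le_iff]
        exact mem_span_pair_right a b
      · show (mkP (a + t • b) (add_smul_ne_zero hab t)).1 ≤ _
        rw [mkP_le_iff]
        exact Submodule.add_mem _ (mem_span_pair_left a b)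
          (Submodule.smul_mem _ _ (mem_span_pair_right a b))
  have h1 : ∑ P : Pt q V, inc M P (mkL a b hb hab) * Y P =
      ∑ P ∈ Finset.univ.image emb, Y P := by
    rw [← Finset.sum_subset (Finset.subset_univ (Finset.univ.image emb))]
    · refine Finset.sum_congr rfl fun P hP => ?_
      rw [inc_of_le ((hrange P).2 hP), one_mul]
    · intro P _ hP
      rw [inc_of_not_le fun h => hP ((hrange P).1 h), zero_mul]
  rw [h1, Finset.sum_image fun i _ j _ h => hinj h, Fintype.sum_option]
  rfl

variable [Finite V]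

theorem sum_inc_line (l : Ln q V) : ∑ P : Pt q V, inc ℕ P l = q + 1 := by
  obtain ⟨b, hb, hb0⟩ := l.exists_ne_zero
  obtain ⟨a, ha, hab, rfl⟩ := l.exists_basis hb hb0
  have h := sum_points_on_line (M := ℕ) (fun _ => 1) hb0 hab
  simp only [mul_one] at h
  rw [h]
  simp [add_comm]

/-- Two distinct points lie on exactly one line. -/
theorem sum_inc_inc {M : Type*} [Semiring M] (x : Ln q V → M) {a b : V} (hb : b ≠ 0)
    (hab : a ∉ Submodule.span (ZMod q) {b}) (ha : a ≠ 0) :
    ∑ l : Ln q V, inc M (mkP a ha) l * inc M (mkP b hb) l * x l = x (mkL a b hb hab) := by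
  classical
  rw [Finset.sum_eq_single (mkL a b hb hab)]
  · rw [inc_of_le, inc_of_le, one_mul, one_mul]
    · rw [mkP_le_iff]; exact mem_span_pair_right a b
    · rw [mkP_le_iff]; exact mem_span_pair_left a b
  · intro l _ hl
    by_cases h1 : (mkP (q := q) a ha).1 ≤ l.1
    · by_cases h2 : (mkP (q := q) b hb).1 ≤ l.1
      · exfalso
        apply hl
        apply Ln.ext
        rw [mkP_le_iff] at h1 h2
        refine (Submodule.eq_of_le_of_finrank_eq (span_pair_le.2 ⟨h1, h2⟩) ?_).symm
        rw [finrank_span_pair hb hab, l.2]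
      · rw [inc_of_not_le h2, mul_zero, zero_mul]
    · rw [inc_of_not_le h1, zero_mul, zero_mul]
  · intro h
    exact absurd (Finset.mem_univ _) h

theorem sum_inc_inc_one (P Q : Pt q V) (h : P ≠ Q) :
    ∑ l : Ln q V, inc ℕ P l * inc ℕ Q l = 1 := by
  obtain ⟨a, ha, rfl⟩ := P.exists_rep
  obtain ⟨b, hb, rfl⟩ := Q.exists_rep
  have hab : a ∉ Submodule.span (ZMod q) {b} := fun h' => h ((mkP_eq_iff ha hb).2 h')
  have := sum_inc_inc (M := ℕ) (fun _ => 1) hb hab ha
  simpa using this

theorem inc_mul_self (P : Pt q V) (l : Ln q V) : inc ℕ P l * inc ℕ P l = inc ℕ P l := by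
  by_cases h : P.1 ≤ l.1
  · simp [inc_of_le h]
  · simp [inc_of_not_le h]

/-- The number of lines through a point. -/
theorem sum_inc_point_aux (P : Pt q V) :
    (∑ l : Ln q V, inc ℕ P l) * q + 1 = Fintype.card (Pt q V) := by
  classical
  have h1 : ∑ l : Ln q V, inc ℕ P l * ∑ Q : Pt q V, inc ℕ Q l = (∑ l : Ln q V, inc ℕ P l) * (q + 1) := by
    rw [Finset.sum_mul]
    exact Finset.sum_congr rfl fun l _ => by rw [sum_inc_line]
  have h2 : ∑ l : Ln q V, inc ℕ P l * ∑ Q : Pt q V, inc ℕ Q l =
      ∑ Q : Pt q V, ∑ l : Ln q V, inc ℕ P l * inc ℕ Q l := by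
    rw [Finset.sum_comm]
    exact Finset.sum_congr rfl fun l _ => by rw [Finset.mul_sum]
  rw [← Finset.add_sum_erase _ _ (Finset.mem_univ P)] at h2
  have h3 : ∑ Q ∈ (Finset.univ : Finset (Pt q V)).erase P, ∑ l : Ln q V, inc ℕ P l * inc ℕ Q l =
      Fintype.card (Pt q V) - 1 := by
    rw [Finset.sum_congr rfl fun Q hQ => sum_inc_inc_one P Q (Finset.ne_of_mem_erase hQ).symm]
    simp [Finset.card_erase_of_mem, Finset.card_univ]
  have h4 : ∑ l : Ln q V, inc ℕ P l * inc ℕ P l = ∑ l : Ln q V, inc ℕ P l :=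
    Finset.sum_congr rfl fun l _ => inc_mul_self P l
  rw [h3, h4, h1] at h2
  have h5 : 0 < Fintype.card (Pt q V) := Fintype.card_pos_iff.2 ⟨P⟩
  have h6 : (∑ l : Ln q V, inc ℕ P l) * (q + 1) = (∑ l : Ln q V, inc ℕ P l) * q +
    ∑ l : Ln q V, inc ℕ P l := by ring
  omega

theorem card_Pt : Fintype.card (Pt q V) = ∑ i ∈ Finset.range (finrank (ZMod q) V), q ^ i := by
  have h := Projectivization.card_of_finrank (ZMod q) V rfl
  rw [Nat.card_zmod] at h
  rw [← h, ← Nat.card_eq_fintype_card]
  exact Nat.card_congr (Projectivization.equivSubmodule (ZMod q) V).symm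

theorem sum_inc_point (P : Pt q V) :
    ∑ l : Ln q V, inc ℕ P l = ∑ i ∈ Finset.range (finrank (ZMod q) V - 1), q ^ i := by
  have h1 := sum_inc_point_aux P
  have hpos : 0 < Fintype.card (Pt q V) := Fintype.card_pos_iff.2 ⟨P⟩
  rw [card_Pt] at h1 hpos
  have hn : finrank (ZMod q) V ≠ 0 := by
    intro h
    rw [h] at hpos
    simp at hpos
  obtain ⟨n, hn⟩ := Nat.exists_eq_succ_of_ne_zero hn
  rw [hn, Nat.succ_eq_add_one, Finset.sum_range_succ'] at h1
  rw [hn, Nat.succ_eq_add_one, Nat.add_sub_cancel]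
  have hq : 0 < q := (Fact.out : q.Prime).pos
  apply Nat.eq_of_mul_eq_mul_right hq
  rw [Finset.sum_mul (Finset.range n)]
  simp only [pow_succ] at h1
  simpa using h1

theorem card_Ln_mul : Fintype.card (Ln q V) * (q + 1) =
    Fintype.card (Pt q V) * ∑ i ∈ Finset.range (finrank (ZMod q) V - 1), q ^ i := by
  have h1 : ∑ l : Ln q V, ∑ P : Pt q V, inc ℕ P l = Fintype.card (Ln q V) * (q + 1) := by
    rw [Finset.sum_congr rfl fun l _ => sum_inc_line l]
    simp
  rw [← h1, Finset.sum_comm, Finset.sum_congr rfl fun P _ => sum_inc_point P]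
  simp

end

end Pool.Agent.Helper255.PPart
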