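import Pool.Agent.Helper255.PPart.Geom

/-!
The permutation module on lines: every invariant subspace lies in `W0` or contains `W0^⊥`.
-/

namespace Pool.Agent.Helper255.PPart

open Module

attribute [local instance 10] Fintype.ofFinite

noncomputable section

universe u

variable {q : ℕ} [Fact q.Prime] {k : Type u} [Field k]
variable {V : Type} [AddCommGroup V] [Module (ZMod q) V]

/-- The value of a function on lines at the span of two vectors. -/
def valL (w : Ln q V → k) (a b : V) : k := by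
  classical
  exact if h : finrank (ZMod q) (Submodule.span (ZMod q) {a, b}) = 2 then w ⟨_, h⟩ else 0

theorem valL_congr (w : Ln q V → k) {a b a' b' : V}
    (h : Submodule.span (ZMod q) {a, b} = Submodule.span (ZMod q) {a', b'}) :
    valL w a b = valL w a' b' := by
  by_cases h2 : finrank (ZMod q) (Submodule.span (ZMod q) {a, b}) = 2
  · have h3 : finrank (ZMod q) (Submodule.span (ZMod q) {a', b'}) = 2 := by rw [← h]; exact h2
    unfold valL
    rw [dif_pos h2, dif_pos h3]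
    congr 1
    exact Ln.ext h
  · have h3 : ¬ finrank (ZMod q) (Submodule.span (ZMod q) {a', b'}) = 2 := by rw [← h]; exact h2
    unfold valL
    rw [dif_neg h2, dif_neg h3]

theorem pairFun_valL (w : Ln q V → k) : PairFun (q := q) (valL w) where
  symm a b := valL_congr w (by rw [Set.pair_comm])
  add a b t := valL_congr w (span_pair_add a b t)
  smul a b c hc := valL_congr w (span_pair_smul a b hc)

theorem valL_of_eq (w : Ln q V → k) {a b : V} {l : Ln q V}
    (h : l.1 = Submodule.span (ZMod q) {a, b}) : valL w a b = w l := by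
  unfold valL
  have h2 : finrank (ZMod q) (Submodule.span (ZMod q) {a, b}) = 2 := by rw [← h]; exact l.2
  rw [dif_pos h2]
  congr 1
  exact Ln.ext h.symm

theorem valL_mkL [Finite V] (w : Ln q V → k) {a b : V} (hb : b ≠ 0)
    (hab : a ∉ Submodule.span (ZMod q) {b}) : valL w a b = w (mkL a b hb hab) :=
  valL_of_eq w rfl

theorem map_span_pair (g : V ≃ₗ[ZMod q] V) (a b : V) :
    (Submodule.span (ZMod q) {a, b}).map (g : V →ₗ[ZMod q] V) =
      Submodule.span (ZMod q) {g a, g b} := by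
  rw [Submodule.map_span, Set.image_pair]
  rfl

theorem valL_smul (w : Ln q V → k) (g : V ≃ₗ[ZMod q] V) (a b : V) :
    valL w (g a) (g b) = valL (fun l => w (g • l)) a b := by
  classical
  by_cases h : finrank (ZMod q) (Submodule.span (ZMod q) {a, b}) = 2
  · let l : Ln q V := ⟨_, h⟩
    have h1 : valL (fun l => w (g • l)) a b = w (g • l) :=
      valL_of_eq (fun l => w (g • l)) rfl
    rw [h1]
    apply valL_of_eq
    rw [Ln.smul_coe, map_span_pair]
  · have h2 : ¬ finrank (ZMod q) (Submodule.span (ZMod q) {g a, g b}) = 2 := by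
      rw [← map_span_pair, LinearEquiv.finrank_map_eq]
      exact h
    unfold valL
    rw [dif_neg h, dif_neg h2]

variable [Finite V]

/-- The map `(y, t) ↦ (ℓ ↦ ∑_{P ≤ ℓ} y P + t)`. -/
def TL (k : Type u) [Field k] (q : ℕ) [Fact q.Prime] (V : Type) [AddCommGroup V]
    [Module (ZMod q) V] [Finite V] : ((Pt q V → k) × k) →ₗ[k] (Ln q V → k) where
  toFun z l := ∑ P : Pt q V, inc k P l * z.1 P + z.2
  map_add' z z' := by
    ext l
    simp only [Prod.fst_add, Prod.snd_add, Pi.add_apply, mul_add, Finset.sum_add_distrib]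
    ring
  map_smul' c z := by
    ext l
    simp only [Prod.smul_fst, Prod.smul_snd, Pi.smul_apply, smul_eq_mul, RingHom.id_apply,
      Finset.mul_sum, mul_add]
    congr 1
    exact Finset.sum_congr rfl fun P _ => by ring

theorem TL_apply (z : (Pt q V → k) × k) (l : Ln q V) :
    TL k q V z l = ∑ P : Pt q V, inc k P l * z.1 P + z.2 := rfl

/-- The image of `TL`. -/
def W0L (k : Type u) [Field k] (q : ℕ) [Fact q.Prime] (V : Type) [AddCommGroup V]
    [Module (ZMod q) V] [Finite V] : Submodule k (Ln q V → k) := LinearMap.range (TL k q V)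

theorem invt_W0L : Invt (V ≃ₗ[ZMod q] V) (W0L k q V) := by
  rintro g _ ⟨z, rfl⟩
  refine ⟨(fun P => z.1 (g • P), z.2), ?_⟩
  ext l
  rw [TL_apply, TL_apply, ← Equiv.sum_comp (MulAction.toPerm g) (fun P => inc k P (g • l) * z.1 P)]
  simp only [MulAction.toPerm_apply, inc_smul]

/-- The generation lemma for lines. -/
theorem mem_W0L_of_Lline (ζ : AddChar (ZMod q) k) (hζ : ζ 1 ≠ 1) (hqk : (q : k) ≠ 0)
    (hn : 4 ≤ finrank (ZMod q) V) (hq5 : 5 ≤ q) (w : Ln q V → k)
    (hyp : ∀ f0 f1 f2 f3 : Dual (ZMod q) V, ∀ v0 v1 v2 v3 : V,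
      DualSys ![f0, f1, f2, f3] ![v0, v1, v2, v3] → Lline ζ f0 f1 f2 f3 v0 v2 (valL w) = 0) :
    w ∈ W0L k q V := by
  obtain ⟨X, C, hX, hA⟩ := gen_lines ζ hζ hqk hn hq5 (pairFun_valL w) hyp
  have hrep : ∀ P : Pt q V, ∃ v : V, ∃ hv : v ≠ 0, P = mkP v hv := fun P => P.exists_rep
  choose r hr0 hr using hrep
  have hy : ∀ (v : V) (hv : v ≠ 0), X (r (mkP v hv)) = X v := by
    intro v hv
    have h1 := hr (mkP v hv)
    rw [eq_comm, mkP_eq_iff] at h1
    obtain ⟨c, hc⟩ := Submodule.mem_span_singleton.1 h1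
    have hc0 : c ≠ 0 := by
      rintro rfl
      exact hr0 (mkP v hv) (by simpa using hc.symm)
    rw [← hc, hX c v hc0]
  refine ⟨(fun P => X (r P), C), ?_⟩
  ext l
  obtain ⟨b, hb, hb0⟩ := l.exists_ne_zero
  obtain ⟨a, ha, hab, rfl⟩ := l.exists_basis hb hb0
  rw [TL_apply, sum_points_on_line (fun P => X (r P)) hb0 hab, ← valL_mkL w hb0 hab,
    hA a b hb0 hab]
  simp only [hy]

theorem zeta_neg_one_ne (ζ : AddChar (ZMod q) k) (hζ : ζ 1 ≠ 1) : ζ (-1) ≠ 1 := by
  intro h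
  apply hζ
  have h1 : ζ (1 + -1) = ζ 1 * ζ (-1) := AddChar.map_add_eq_mul _ _ _
  rw [add_neg_cancel, AddChar.map_zero_eq_one, h, mul_one] at h1
  exact h1.symm

theorem eq_zero_of_zeta {ζ : AddChar (ZMod q) k} (hζ : ζ 1 ≠ 1) {x : k} (h : x = ζ (-1) * x) :
    x = 0 := by
  by_contra hx
  apply zeta_neg_one_ne ζ hζ
  have h1 : (ζ (-1) - 1) * x = 0 := by
    rw [sub_mul, one_mul, ← h, sub_self]
  exact sub_eq_zero.1 ((mul_eq_zero.1 h1).resolve_right hx)

omit [Finite V] in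
/-- A line on which the functional `f` does not vanish. -/
theorem Ln.exists_adapted [Finite V] (l : Ln q V) (f : Dual (ZMod q) V) (hl : ∃ x ∈ l.1, f x ≠ 0) :
    ∃ (a b : V) (hb : b ≠ 0) (hab : a ∉ Submodule.span (ZMod q) {b}), l = mkL a b hb hab ∧
      f a = 1 ∧ f b = 0 := by
  obtain ⟨x, hx, hfx⟩ := hl
  have hx0 : x ≠ 0 := by
    rintro rfl
    simp at hfx
  obtain ⟨y, hy, hyx, hl'⟩ := l.exists_basis hx hx0
  set a := (f x)⁻¹ • x with ha
  set b := y - f y • a with hb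
  have hfa : f a = 1 := by simp [ha, hfx]
  have hfb : f b = 0 := by simp [hb, hfa]
  have hal : a ∈ l.1 := Submodule.smul_mem _ _ hx
  have hbl : b ∈ l.1 := Submodule.sub_mem _ hy (Submodule.smul_mem _ _ hal)
  have hb0 : b ≠ 0 := by
    intro h
    apply hyx
    rw [hb, sub_eq_zero, ha] at h
    rw [h]
    exact Submodule.smul_mem _ _ (Submodule.smul_mem _ _ (Submodule.mem_span_singleton_self x))
  have hab : a ∉ Submodule.span (ZMod q) {b} := by
    intro h
    obtain ⟨c, hc⟩ := Submodule.mem_span_singleton.1 h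
    rw [← hc, map_smul, hfb, smul_zero] at hfa
    exact zero_ne_one hfa
  refine ⟨a, b, hb0, hab, Ln.ext ?_, hfa, hfb⟩
  refine (Submodule.eq_of_le_of_finrank_eq (span_pair_le.2 ⟨hal, hbl⟩) ?_).symm
  rw [finrank_span_pair hb0 hab, l.2]

/-- Support of the eigenfunctions. -/
theorem eig_support_lines (ζ : AddChar (ZMod q) k) (hζ : ζ 1 ≠ 1)
    {f0 f1 f2 f3 : Dual (ZMod q) V} {v0 v1 v2 v3 : V}
    (hsys : DualSys ![f0, f1, f2, f3] ![v0, v1, v2, v3]) (y : Ln q V → k)
    (h1 : ∀ (h : V) (hh : f0 h = 0) (ω : Ln q V), y (tv f0 h hh • ω) = ζ (-(f1 h)) * y ω)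
    (h2 : ∀ (κ : V) (_ : f0 κ = 0) (_ : f1 κ = 0) (hκ : f2 κ = 0) (ω : Ln q V),
      y (tv f2 κ hκ • ω) = ζ (-(f3 κ)) * y ω) (l : Ln q V) (hy : y l ≠ 0) :
    ∃ h κ : V, f0 h = 0 ∧ f2 h = 0 ∧ f0 κ = 0 ∧ f1 κ = 0 ∧ f2 κ = 0 ∧
      l.1 = Submodule.span (ZMod q) {v0 + h, v2 + κ} := by
  have hs : ∀ i j, (![f0, f1, f2, f3] i) (![v0, v1, v2, v3] j) = if i = j then 1 else 0 := hsys
  have h00 : f0 v0 = 1 := by simpa using hs 0 0
  have h01 : f0 v1 = 0 := by simpa using hs 0 1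
  have h02 : f0 v2 = 0 := by simpa using hs 0 2
  have h03 : f0 v3 = 0 := by simpa using hs 0 3
  have h11 : f1 v1 = 1 := by simpa using hs 1 1
  have h12 : f1 v2 = 0 := by simpa using hs 1 2
  have h13 : f1 v3 = 0 := by simpa using hs 1 3
  have h20 : f2 v0 = 0 := by simpa using hs 2 0
  have h22 : f2 v2 = 1 := by simpa using hs 2 2
  have h23 : f2 v3 = 0 := by simpa using hs 2 3
  have h33 : f3 v3 = 1 := by simpa using hs 3 3
  have hY := pairFun_valL (k := k) y
  set Y := valL y with hYdef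
  have e1 : ∀ (h : V) (hh : f0 h = 0) (a b : V),
      Y (a + f0 a • h) (b + f0 b • h) = ζ (-(f1 h)) * Y a b := by
    intro h hh a b
    have h3 := valL_smul y (tv f0 h hh) a b
    rw [tv_apply, tv_apply] at h3
    rw [hYdef, h3]
    have h4 : (fun l => y (tv f0 h hh • l)) = fun l => ζ (-(f1 h)) * y l := funext (h1 h hh)
    rw [h4]
    unfold valL
    split_ifs
    · rfl
    · rw [mul_zero]
  have e2 : ∀ (κ : V) (_ : f0 κ = 0) (_ : f1 κ = 0) (hκ : f2 κ = 0) (a b : V),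
      Y (a + f2 a • κ) (b + f2 b • κ) = ζ (-(f3 κ)) * Y a b := by
    intro κ g0 g1 hκ a b
    have h3 := valL_smul y (tv f2 κ hκ) a b
    rw [tv_apply, tv_apply] at h3
    rw [hYdef, h3]
    have h4 : (fun l => y (tv f2 κ hκ • l)) = fun l => ζ (-(f3 κ)) * y l := funext (h2 κ g0 g1 hκ)
    rw [h4]
    unfold valL
    split_ifs
    · rfl
    · rw [mul_zero]
  have hex : ∃ x ∈ l.1, f0 x ≠ 0 := by
    by_contra hcon
    push Not at hcon
    apply hy
    obtain ⟨b, hb, hb0⟩ := l.exists_ne_zero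
    obtain ⟨a, ha, hab, hl⟩ := l.exists_basis hb hb0
    have h3 := e1 v1 h01 a b
    rw [hcon a ha, hcon b hb, zero_smul, add_zero, add_zero, h11] at h3
    have h4 : Y a b = y l := by rw [hl]; exact valL_mkL y hb0 hab
    rw [← h4]
    exact eq_zero_of_zeta hζ h3
  obtain ⟨a, b, hb0, hab, hl, hfa, hfb⟩ := l.exists_adapted f0 hex
  have hYab : Y a b ≠ 0 := by
    have h4 : Y a b = y l := by rw [hl]; exact valL_mkL y hb0 hab
    rwa [h4]
  have hf1b : f1 b = 0 := by
    by_contra hne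
    apply hYab
    have h3 := e1 ((f1 b)⁻¹ • b) (by rw [map_smul, hfb, smul_zero]) a b
    rw [hfa, hfb, one_smul, zero_smul, add_zero, hY.add', map_smul, smul_eq_mul,
      inv_mul_cancel₀ hne] at h3
    exact eq_zero_of_zeta hζ h3
  have hf2b : f2 b ≠ 0 := by
    intro hz
    apply hYab
    have h3 := e2 v3 h03 h13 h23 a b
    rw [hz, zero_smul, add_zero, h33] at h3
    have h4 := e1 (-(f2 a • v3)) (by rw [map_neg, map_smul, h03, smul_zero, neg_zero])
      (a + f2 a • v3) b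
    have hz1 : f1 (-(f2 a • v3)) = 0 := by rw [map_neg, map_smul, h13, smul_zero, neg_zero]
    rw [hfb, zero_smul, add_zero, map_add, map_smul, h03, smul_zero, add_zero, hfa, one_smul,
      add_neg_cancel_right, hz1, neg_zero,
      AddChar.map_zero_eq_one, one_mul, h3] at h4
    exact eq_zero_of_zeta hζ h4
  set b' := (f2 b)⁻¹ • b with hb'
  have hf2b' : f2 b' = 1 := by simp [hb', hf2b]
  have hf0b' : f0 b' = 0 := by simp [hb', hfb]
  have hf1b' : f1 b' = 0 := by simp [hb', hf1b]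
  refine ⟨(a - f2 a • b') - v0, b' - v2, ?_, ?_, ?_, ?_, ?_, ?_⟩
  · simp [hf0b', hfa, h00]
  · simp [hf2b', h20]
  · simp [hf0b', h02]
  · simp [hf1b', h12]
  · simp [hf2b', h22]
  · have e3 : v0 + (a - f2 a • b' - v0) = a + (-(f2 a)) • b' := by rw [neg_smul]; abel
    have e4 : v2 + (b' - v2) = b' := by abel
    rw [e3, e4, Set.pair_comm, span_pair_add, hb', Set.pair_comm, span_pair_smul a b (inv_ne_zero hf2b),
      hl]
    rfl

/-- The invariant subspaces of the space of functions on lines. -/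
theorem key_lines (ζ : AddChar (ZMod q) k) (hζ : ζ 1 ≠ 1) (hqk : (q : k) ≠ 0)
    (hn : 4 ≤ finrank (ZMod q) V) (hq5 : 5 ≤ q) (U : Submodule k (Ln q V → k))
    (hU : Invt (V ≃ₗ[ZMod q] V) U) : U ≤ W0L k q V ∨ perp (W0L k q V) ≤ U := by
  by_cases hcase : ∀ u ∈ U, ∀ f0 f1 f2 f3 : Dual (ZMod q) V, ∀ v0 v1 v2 v3 : V,
      DualSys ![f0, f1, f2, f3] ![v0, v1, v2, v3] → Lline ζ f0 f1 f2 f3 v0 v2 (valL u) = 0
  · exact Or.inl fun u hu => mem_W0L_of_Lline ζ hζ hqk hn hq5 u (hcase u hu)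
  right
  push Not at hcase
  obtain ⟨u, hu, f0, f1, f2, f3, v0, v1, v2, v3, hsys, hL⟩ := hcase
  have hs : ∀ i j, (![f0, f1, f2, f3] i) (![v0, v1, v2, v3] j) = if i = j then 1 else 0 := hsys
  have h00 : f0 v0 = 1 := by simpa using hs 0 0
  have h02 : f0 v2 = 0 := by simpa using hs 0 2
  have h20 : f2 v0 = 0 := by simpa using hs 2 0
  have h22 : f2 v2 = 1 := by simpa using hs 2 2
  have hv2 : v2 ≠ 0 := by
    rintro rfl
    simp at h22
  have hv02 : v0 ∉ Submodule.span (ZMod q) {v2} := by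
    intro h
    obtain ⟨c, hc⟩ := Submodule.mem_span_singleton.1 h
    rw [← hc, map_smul, h02, smul_zero] at h00
    exact zero_ne_one h00
  set ω0 : Ln q V := mkL v0 v2 hv2 hv02 with hω0
  -- the orbit
  have horb : ∀ (h κ : V) (hh : f0 h = 0) (_ : f0 κ = 0) (hκ : f2 κ = 0),
      (tv f0 h hh • (tv f2 κ hκ • ω0)).1 = Submodule.span (ZMod q) {v0 + h, v2 + κ} := by
    intro h κ hh hκ0 hκ
    rw [Ln.smul_coe, Ln.smul_coe]
    show Submodule.map _ (Submodule.map _ (Submodule.span (ZMod q) {v0, v2})) = _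
    rw [map_span_pair, map_span_pair]
    simp only [tv_apply, h20, h22, h00, h02, hκ0, zero_smul, one_smul, add_zero, map_add,
      map_smul, smul_zero]
  have hLavg : ∀ (ξ : AddChar (ZMod q) k) (w : Ln q V → k),
      avg ξ f0 f1 f2 f3 w ω0 = Lline ξ f0 f1 f2 f3 v0 v2 (valL w) := by
    intro ξ w
    unfold avg Lline
    refine Finset.sum_congr rfl fun κ _ => Finset.sum_congr rfl fun h _ => ?_
    rw [valL_of_eq w (horb h κ (LinearMap.mem_ker.1 h.2) (LinearMap.mem_ker.1 κ.2.1.1)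
      (LinearMap.mem_ker.1 κ.2.2))]
  -- the orthogonality argument
  have hort : ∀ w ∈ perp U, Lline ζ⁻¹ f0 f1 f2 f3 v0 v2 (valL w) = 0 := by
    intro w hw
    have hy : avg ζ f0 f1 f2 f3 u ∈ U := avg_mem ζ f0 f1 f2 f3 hU hu
    have hy' : avg ζ⁻¹ f0 f1 f2 f3 w ∈ perp U := avg_mem ζ⁻¹ f0 f1 f2 f3 (invt_perp hU) hw
    have h3 := (mem_perp U _).1 hy' _ hy
    let ι := ↥(LinearMap.ker f0 ⊓ LinearMap.ker f2) ×
      ↥(LinearMap.ker f0 ⊓ LinearMap.ker f1 ⊓ LinearMap.ker f2)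
    let emb : ι → Ln q V := fun i =>
      tv f0 (i.1 : V) (LinearMap.mem_ker.1 i.1.2.1) •
        (tv f2 (i.2 : V) (LinearMap.mem_ker.1 i.2.2.2) • ω0)
    have hemb1 : ∀ i : ι, (emb i).1 = Submodule.span (ZMod q) {v0 + (i.1 : V), v2 + (i.2 : V)} :=
      fun i => horb _ _ _ (LinearMap.mem_ker.1 i.2.2.1.1) _
    have h4 := orth_eval (k := k) (Ω := Ln q V) emb ?_ ?_ _ _ ?_
      (avg ζ f0 f1 f2 f3 u ω0 * avg ζ⁻¹ f0 f1 f2 f3 w ω0) ?_ h3
    · rw [hLavg, hLavg] at h4
      exact (mul_eq_zero.1 h4).resolve_left hL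
    · -- injectivity
      rintro ⟨h, κ⟩ ⟨h', κ'⟩ heq
      have h5 : Submodule.span (ZMod q) {v0 + (h : V), v2 + (κ : V)} =
          Submodule.span (ZMod q) {v0 + (h' : V), v2 + (κ' : V)} := by
        rw [← hemb1 (h, κ), ← hemb1 (h', κ'), heq]
      have g0h : f0 h = 0 := LinearMap.mem_ker.1 h.2.1
      have g2h : f2 h = 0 := LinearMap.mem_ker.1 h.2.2
      have g0h' : f0 h' = 0 := LinearMap.mem_ker.1 h'.2.1
      have g2h' : f2 h' = 0 := LinearMap.mem_ker.1 h'.2.2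
      have g0κ : f0 κ = 0 := LinearMap.mem_ker.1 κ.2.1.1
      have g2κ : f2 κ = 0 := LinearMap.mem_ker.1 κ.2.2
      have g0κ' : f0 κ' = 0 := LinearMap.mem_ker.1 κ'.2.1.1
      have g2κ' : f2 κ' = 0 := LinearMap.mem_ker.1 κ'.2.2
      have h6 : v0 + (h : V) ∈ Submodule.span (ZMod q) {v0 + (h' : V), v2 + (κ' : V)} := by
        rw [← h5]; exact mem_span_pair_left _ _
      have h7 : v2 + (κ : V) ∈ Submodule.span (ZMod q) {v0 + (h' : V), v2 + (κ' : V)} := by
        rw [← h5]; exact mem_span_pair_right _ _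
      obtain ⟨α, β, hαβ⟩ := Submodule.mem_span_pair.1 h6
      obtain ⟨γ, δ, hγδ⟩ := Submodule.mem_span_pair.1 h7
      have hα : α = 1 := by
        have := congrArg f0 hαβ
        simpa [g0h, g0h', g0κ', h00, h02] using this
      have hβ : β = 0 := by
        have := congrArg f2 hαβ
        simpa [g2h, g2h', g2κ', h20, h22] using this
      have hγ : γ = 0 := by
        have := congrArg f0 hγδ
        simpa [g0h', g0κ, g0κ', h00, h02] using this
      have hδ : δ = 1 := by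
        have := congrArg f2 hγδ
        simpa [g2h', g2κ, g2κ', h20, h22] using this
      rw [hα, hβ, one_smul, zero_smul, add_zero] at hαβ
      rw [hγ, hδ, one_smul, zero_smul, zero_add] at hγδ
      have e1 : h' = h := Subtype.ext (add_left_cancel hαβ)
      have e2 : κ' = κ := Subtype.ext (add_left_cancel hγδ)
      rw [e1, e2]
    · -- cardinality
      have hc1 : Nat.card ι = q ^ finrank (ZMod q) ι := by
        rw [Module.natCard_eq_pow_finrank (K := ZMod q), Nat.card_zmod]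
      rw [hc1]
      push_cast
      exact pow_ne_zero _ hqk
    · -- support
      intro l hl
      obtain ⟨h, κ, g0, g2, k0, k1, k2, hlspan⟩ := eig_support_lines ζ hζ hsys
        (avg ζ f0 f1 f2 f3 u) (fun h hh ω => avg_tv ζ f0 f1 f2 f3 u ω h hh)
        (fun κ a b c ω => avg_cv ζ f0 f1 f2 f3 u ω κ a b c) l hl
      refine ⟨(⟨h, ⟨LinearMap.mem_ker.2 g0, LinearMap.mem_ker.2 g2⟩⟩,
        ⟨κ, ⟨⟨LinearMap.mem_ker.2 k0, LinearMap.mem_ker.2 k1⟩, LinearMap.mem_ker.2 k2⟩⟩), ?_⟩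
      apply Ln.ext
      rw [hemb1, hlspan]
    · -- constancy
      rintro ⟨h, κ⟩
      show avg ζ f0 f1 f2 f3 u (tv f0 (h : V) _ • (tv f2 (κ : V) _ • ω0)) *
        avg ζ⁻¹ f0 f1 f2 f3 w (tv f0 (h : V) _ • (tv f2 (κ : V) _ • ω0)) = _
      rw [avg_tv, avg_tv, avg_cv _ _ _ _ _ _ _ _ (LinearMap.mem_ker.1 κ.2.1.1)
        (LinearMap.mem_ker.1 κ.2.1.2), avg_cv _ _ _ _ _ _ _ _ (LinearMap.mem_ker.1 κ.2.1.1)
        (LinearMap.mem_ker.1 κ.2.1.2)]
      rw [AddChar.inv_apply, AddChar.inv_apply, neg_neg, neg_neg]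
      have e1 : ∀ x : ZMod q, ζ (-x) * ζ x = 1 := by
        intro x
        rw [← AddChar.map_add_eq_mul, neg_add_cancel, AddChar.map_zero_eq_one]
      linear_combination (ζ (-(f3 (κ : V))) * ζ (f3 (κ : V)) * avg ζ f0 f1 f2 f3 u ω0 *
        avg ζ⁻¹ f0 f1 f2 f3 w ω0) * e1 (f1 (h : V)) +
        (avg ζ f0 f1 f2 f3 u ω0 * avg ζ⁻¹ f0 f1 f2 f3 w ω0) * e1 (f3 (κ : V))
  -- conclusion
  have hperp : perp U ≤ W0L k q V := by
    intro w hw
    refine mem_W0L_of_Lline ζ⁻¹ ?_ hqk hn hq5 w ?_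
    · rw [AddChar.inv_apply]
      exact zeta_neg_one_ne ζ hζ
    · intro f0' f1' f2' f3' v0' v1' v2' v3' hsys'
      obtain ⟨g, hg1, hg2⟩ := exists_aut_of_dualSys hsys hsys'
      have hgv0 : g v0 = v0' := by simpa using hg1 0
      have hgv2 : g v2 = v2' := by simpa using hg1 2
      have hgf0 : ∀ x, f0' (g x) = f0 x := fun x => by simpa using hg2 0 x
      have hgf1 : ∀ x, f1' (g x) = f1 x := fun x => by simpa using hg2 1 x
      have hgf2 : ∀ x, f2' (g x) = f2 x := fun x => by simpa using hg2 2 x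
      have hgf3 : ∀ x, f3' (g x) = f3 x := fun x => by simpa using hg2 3 x
      rw [Lline_transport ζ⁻¹ f0 f1 f2 f3 f0' f1' f2' f3' v0 v2 v0' v2' g hgf0 hgf1 hgf2 hgf3
        hgv0 hgv2]
      have h8 : (fun a b => valL w (g a) (g b)) = valL (fun l => w (g • l)) := by
        ext a b
        exact valL_smul w g a b
      rw [h8]
      exact hort _ (invt_perp hU g w hw)
  have := perp_anti hperp
  rwa [perp_perp] at this

end

end Pool.Agent.Helper255.PPart
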