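import Mathlib

/-!
Arithmetic: Hensel lifting over the integers, primes near a `p`-adic root, the order of `GL_n(q)`.
-/

namespace Pool.Agent.Helper255.PPart

open Polynomial

noncomputable section

/-- Hensel's lemma for integer polynomials at a simple root modulo `p`. -/
theorem hensel_int (P : ℤ[X]) (p : ℕ) (hp : p.Prime) (a : ℤ) (h0 : (p : ℤ) ∣ P.eval a)
    (h1 : ¬ (p : ℤ) ∣ P.derivative.eval a) (N : ℕ) :
    ∃ b : ℤ, (p : ℤ) ∣ b - a ∧ (p : ℤ) ^ N ∣ P.eval b := by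
  have hpi : Prime (p : ℤ) := Nat.prime_iff_prime_int.1 hp
  have key : ∀ N : ℕ, ∃ b : ℤ, (p : ℤ) ∣ b - a ∧ (p : ℤ) ^ (N + 1) ∣ P.eval b := by
    intro N
    induction N with
    | zero => exact ⟨a, by simp, by simpa using h0⟩
    | succ N ih =>
      obtain ⟨b, hb, hPb⟩ := ih
      have hd : ¬ (p : ℤ) ∣ P.derivative.eval b := by
        intro h
        apply h1
        have h2 : (p : ℤ) ∣ P.derivative.eval b - P.derivative.eval a :=
          hb.trans (Polynomial.sub_dvd_eval_sub b a _)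
        have h3 := dvd_sub h h2
        simpa using h3
      obtain ⟨c, hc⟩ := hPb
      have hcop : IsCoprime (P.derivative.eval b) (p : ℤ) :=
        ((Prime.coprime_iff_not_dvd hpi).2 hd).symm
      obtain ⟨u, v, huv⟩ := hcop
      -- t = - u * c
      obtain ⟨e, he⟩ := P.binomExpansion b ((p : ℤ) ^ (N + 1) * (-(u * c)))
      refine ⟨b + (p : ℤ) ^ (N + 1) * (-(u * c)), ?_, ?_⟩
      · have : b + (p : ℤ) ^ (N + 1) * (-(u * c)) - a =
          (b - a) + (p : ℤ) * ((p : ℤ) ^ N * (-(u * c))) := by ring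
        rw [this]
        exact dvd_add hb (dvd_mul_right _ _)
      · rw [he, hc]
        refine ⟨v * c + e * (u * c) ^ 2 * (p : ℤ) ^ N, ?_⟩
        have h5 : (p : ℤ) ^ (N + 1) * c + P.derivative.eval b * ((p : ℤ) ^ (N + 1) * (-(u * c))) =
            (p : ℤ) ^ (N + 1) * c * (1 - u * P.derivative.eval b) := by ring
        have h6 : 1 - u * P.derivative.eval b = v * p := by
          rw [← huv]; ring
        rw [h5, h6]
        ring
  rcases N with _ | N
  · exact ⟨a, by simp, by simp⟩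
  · exact key N

/-- Primes `q` at which an integer polynomial is divisible by a high power of `p`. -/
theorem exists_prime_near_root (P : ℤ[X]) (p : ℕ) (hp : p.Prime) (a : ℤ)
    (h0 : (p : ℤ) ∣ P.eval a) (h1 : ¬ (p : ℤ) ∣ P.derivative.eval a) (ha : ¬ (p : ℤ) ∣ a)
    (N B : ℕ) (hN : 0 < N) :
    ∃ q : ℕ, q.Prime ∧ B < q ∧ (p : ℤ) ∣ (q : ℤ) - a ∧ (p : ℤ) ^ N ∣ P.eval (q : ℤ) := by
  obtain ⟨b, hb, hPb⟩ := hensel_int P p hp a h0 h1 N
  have hbp : ¬ (p : ℤ) ∣ b := fun h => ha (by simpa using dvd_sub h hb)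
  have hpi : Prime (p : ℤ) := Nat.prime_iff_prime_int.1 hp
  have : NeZero (p ^ N) := ⟨pow_ne_zero _ hp.ne_zero⟩
  have hunit : IsUnit ((b : ZMod (p ^ N))) := by
    have hcop : IsCoprime b ((p ^ N : ℕ) : ℤ) := by
      push_cast
      exact IsCoprime.pow_right ((Prime.coprime_iff_not_dvd hpi).2 hbp).symm
    obtain ⟨u, v, huv⟩ := hcop
    refine IsUnit.of_mul_eq_one (u : ZMod (p ^ N)) ?_
    have h2 := congrArg (Int.cast (R := ZMod (p ^ N))) huv
    push_cast at h2
    rw [show ((p : ZMod (p ^ N)) ^ N) = ((p ^ N : ℕ) : ZMod (p ^ N)) by push_cast; rfl,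
      ZMod.natCast_self, mul_zero, add_zero] at h2
    rw [mul_comm]
    exact h2
  obtain ⟨q, hqB, hq, hqb⟩ := Nat.forall_exists_prime_gt_and_eq_mod hunit B
  have hdvd : ((p ^ N : ℕ) : ℤ) ∣ (q : ℤ) - b := by
    rw [← ZMod.intCast_zmod_eq_zero_iff_dvd]
    push_cast
    rw [hqb, sub_self]
  have hdvd' : (p : ℤ) ^ N ∣ (q : ℤ) - b := by exact_mod_cast hdvd
  refine ⟨q, hq, hqB, ?_, ?_⟩
  · have h3 : (p : ℤ) ∣ (q : ℤ) - b := (dvd_pow_self (p : ℤ) hN.ne').trans hdvd'
    have h4 := dvd_add h3 hb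
    simpa using h4
  · have h3 : (p : ℤ) ^ N ∣ P.eval (q : ℤ) - P.eval b :=
      hdvd'.trans (Polynomial.sub_dvd_eval_sub _ _ _)
    have h4 := dvd_add h3 hPb
    simpa using h4

/-- The order of the general linear group. -/
theorem card_aut (q : ℕ) [Fact q.Prime] (n : ℕ) :
    Nat.card ((Fin n → ZMod q) ≃ₗ[ZMod q] (Fin n → ZMod q)) =
      ∏ i ∈ Finset.range n, (q ^ i * (q ^ (n - i) - 1)) := by
  have h1 : Nat.card ((Fin n → ZMod q) ≃ₗ[ZMod q] (Fin n → ZMod q)) =
      Nat.card (Matrix.GeneralLinearGroup (Fin n) (ZMod q)) := by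
    refine Nat.card_congr ?_
    exact ((Matrix.GeneralLinearGroup.toLin (n := Fin n) (R := ZMod q)).trans
      (LinearMap.GeneralLinearGroup.generalLinearEquiv (ZMod q) (Fin n → ZMod q))).toEquiv.symm
  rw [h1, Matrix.card_GL_field, Finset.prod_range, ZMod.card]
  refine Finset.prod_congr rfl fun i _ => ?_
  rw [Nat.mul_sub, mul_one, ← pow_add, Nat.add_sub_cancel' i.2.le]

theorem padicValNat_eq_of {p : ℕ} [Fact p.Prime] {x v : ℕ} (h0 : x ≠ 0) (h1 : p ^ v ∣ x)
    (h2 : ¬ p ^ (v + 1) ∣ x) : padicValNat p x = v := by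
  have h3 := (padicValNat_dvd_iff_le h0).1 h1
  have h4 : ¬ v + 1 ≤ padicValNat p x := fun h => h2 ((padicValNat_dvd_iff_le h0).2 h)
  omega

/-- The valuation of the order of `GL_n(q)`. -/
theorem padicValNat_card_aut (p q : ℕ) [Fact p.Prime] [Fact q.Prime] (hpq : p ≠ q) (n : ℕ) :
    padicValNat p (Nat.card ((Fin n → ZMod q) ≃ₗ[ZMod q] (Fin n → ZMod q))) =
      ∑ i ∈ Finset.range n, padicValNat p (q ^ (i + 1) - 1) := by
  have hq : q.Prime := Fact.out
  have hp : p.Prime := Fact.out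
  have hq1 : ∀ j : ℕ, q ^ (j + 1) - 1 ≠ 0 := by
    intro j
    have : 1 < q ^ (j + 1) := Nat.one_lt_pow (by omega) hq.one_lt
    omega
  rw [card_aut, Finset.prod_mul_distrib]
  have h1 : ∏ i ∈ Finset.range n, (q ^ (n - i) - 1) = ∏ i ∈ Finset.range n, (q ^ (i + 1) - 1) := by
    rw [← Finset.prod_range_reflect]
    refine Finset.prod_congr rfl fun i hi => ?_
    have := Finset.mem_range.1 hi
    congr 2
    omega
  have h2 : padicValNat p (∏ i ∈ Finset.range n, q ^ i) = 0 := by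
    apply padicValNat.eq_zero_of_not_dvd
    rw [Finset.prod_pow_eq_pow_sum]
    intro h
    have h3 := hp.dvd_of_dvd_pow h
    rw [Nat.prime_dvd_prime_iff_eq hp hq] at h3
    exact hpq h3
  have h3 : ∏ i ∈ Finset.range n, (q ^ (i + 1) - 1) ≠ 0 :=
    Finset.prod_ne_zero_iff.2 fun i _ => hq1 i
  have h4 : ∏ i ∈ Finset.range n, q ^ i ≠ 0 :=
    Finset.prod_ne_zero_iff.2 fun i _ => pow_ne_zero _ hq.ne_zero
  rw [h1, padicValNat.mul h4 h3, h2, zero_add]
  clear h1 h2 h3 h4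
  induction n with
  | zero => simp
  | succ n ih =>
    rw [Finset.prod_range_succ, Finset.sum_range_succ, padicValNat.mul _ (hq1 n), ih]
    exact Finset.prod_ne_zero_iff.2 fun i _ => hq1 i

end

end Pool.Agent.Helper255.PPart
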