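import Pool.Agent.Helper255.PPart.LinesDim
import Pool.Agent.Helper255.PPart.Num

/-!
The irreducible section of the permutation module on lines, in the two cases used.
-/

namespace Pool.Agent.Helper255.PPart

open Module

attribute [local instance 10] Fintype.ofFinite

noncomputable section

universe u

variable {q : ℕ} [Fact q.Prime] {k : Type u} [Field k]
variable {V : Type} [AddCommGroup V] [Module (ZMod q) V] [Finite V]

/-- Case A: the radical of the form on `W0` is spanned by the constants. -/
theorem exists_irr_lines_A (ζ : AddChar (ZMod q) k) (hζ : ζ 1 ≠ 1) (hqk : (q : k) ≠ 0)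
    (hn : 4 ≤ finrank (ZMod q) V) (hq5 : 5 ≤ q)
    (hr : ((∑ i ∈ Finset.range (finrank (ZMod q) V - 1), q ^ i : ℕ) : k) = 0)
    (hP : (Fintype.card (Pt q V) : k) = 1) (hL : (Fintype.card (Ln q V) : k) = 0)
    (hlt : Fintype.card (Pt q V) + 1 < Fintype.card (Ln q V)) :
    ∃ (M' : Type u) (_ : AddCommGroup M') (_ : Module k M')
      (ρ' : Representation k (V ≃ₗ[ZMod q] V) M'), FiniteDimensional k M' ∧ ρ'.IsIrreducible ∧
        finrank k M' = Fintype.card (Ln q V) - Fintype.card (Pt q V) - 1 := by
  have hW := finrank_W0L (k := k) (q := q) (V := V) hqk (by omega)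
  have hPerp := finrank_perp (W0L k q V)
  rw [hW] at hPerp
  have hR := finrank_inf_range (TL k q V) (perp (W0L k q V))
  rw [ker_TL hqk (by omega)] at hR
  obtain ⟨b, hb, a, hab⟩ := exists_two_points (q := q) (V := V) (by omega)
  have hZ : finrank k ((perp (W0L k q V)).comap (TL k q V)) = 2 := by
    let φ : (k × k) →ₗ[k] ((Pt q V → k) × k) :=
      LinearMap.prodMap (LinearMap.pi fun _ => LinearMap.id) LinearMap.id
    have hφ : ∀ c : k × k, φ c = (fun _ => c.1, c.2) := fun c => rfl
    have hinj : Function.Injective φ := by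
      intro c c' h
      rw [hφ, hφ] at h
      have h1 := congrFun (congrArg Prod.fst h) (mkP b hb)
      have h2 := congrArg Prod.snd h
      exact Prod.ext h1 h2
    have hrange : LinearMap.range φ = (perp (W0L k q V)).comap (TL k q V) := by
      ext z
      rw [Submodule.mem_comap, TL_mem_perp_iff, hr, hL]
      constructor
      · rintro ⟨c, rfl⟩
        rw [hφ]
        refine ⟨fun P => ?_, by simp⟩
        simp only [Finset.sum_const, Finset.card_univ, nsmul_eq_mul, hP]
        ring
      · rintro ⟨h, _⟩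
        refine ⟨(∑ Q : Pt q V, z.1 Q, z.2), ?_⟩
        rw [hφ]
        refine Prod.ext (funext fun P => ?_) rfl
        have := h P
        simp only
        linear_combination this
    rw [← hrange, LinearMap.finrank_range_of_inj hinj, Module.finrank_prod, Module.finrank_self]
  rw [hZ] at hR
  have hR' : finrank k (perp (W0L k q V) ⊓ W0L k q V : Submodule k (Ln q V → k)) = 1 := by
    have : (perp (W0L k q V) ⊓ LinearMap.range (TL k q V)) = perp (W0L k q V) ⊓ W0L k q V := rfl
    rw [this] at hR
    omega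
  obtain ⟨M', i1, i2, ρ', h1, h2, h3⟩ := exists_irreducible_of_key (G := V ≃ₗ[ZMod q] V)
    (W0L k q V) invt_W0L (key_lines ζ hζ hqk hn hq5) (by rw [hR', hPerp]; omega)
  refine ⟨M', i1, i2, ρ', h1, h2, ?_⟩
  rw [h3, hR', hPerp]

/-- Case B: the form vanishes on a hyperplane. -/
theorem exists_irr_lines_B (ζ : AddChar (ZMod q) k) (hζ : ζ 1 ≠ 1) (hqk : (q : k) ≠ 0)
    (hn : 4 ≤ finrank (ZMod q) V) (hq5 : 5 ≤ q)
    (hr : ((∑ i ∈ Finset.range (finrank (ZMod q) V - 1), q ^ i : ℕ) : k) = 1)
    (hL : (Fintype.card (Ln q V) : k) ≠ 1)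
    (hlt : 2 * Fintype.card (Pt q V) < Fintype.card (Ln q V) + 2) :
    ∃ (M' : Type u) (_ : AddCommGroup M') (_ : Module k M')
      (ρ' : Representation k (V ≃ₗ[ZMod q] V) M'), FiniteDimensional k M' ∧ ρ'.IsIrreducible ∧
        finrank k M' + 2 * Fintype.card (Pt q V) = Fintype.card (Ln q V) + 2 := by
  classical
  have hW := finrank_W0L (k := k) (q := q) (V := V) hqk (by omega)
  have hPerp := finrank_perp (W0L k q V)
  rw [hW] at hPerp
  have hR := finrank_inf_range (TL k q V) (perp (W0L k q V))
  rw [ker_TL hqk (by omega)] at hR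
  obtain ⟨b, hb, a, hab⟩ := exists_two_points (q := q) (V := V) (by omega)
  have hZ : finrank k ((perp (W0L k q V)).comap (TL k q V)) + 1 = Fintype.card (Pt q V) := by
    let φ : ((Pt q V → k) × k) →ₗ[k] (k × k) :=
      LinearMap.prodMap (∑ Q : Pt q V, LinearMap.proj Q) LinearMap.id
    have hφ : ∀ z : (Pt q V → k) × k, φ z = (∑ Q : Pt q V, z.1 Q, z.2) := by
      intro z
      refine Prod.ext ?_ rfl
      show (∑ Q : Pt q V, (LinearMap.proj Q : (Pt q V → k) →ₗ[k] k)) z.1 = _
      simp
    have hsurj : LinearMap.range φ = ⊤ := by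
      rw [LinearMap.range_eq_top]
      rintro ⟨c, t⟩
      refine ⟨(Pi.single (mkP b hb) c, t), ?_⟩
      rw [hφ]
      simp
    have hker : LinearMap.ker φ = (perp (W0L k q V)).comap (TL k q V) := by
      ext z
      rw [Submodule.mem_comap, TL_mem_perp_iff, hr, LinearMap.mem_ker, hφ, Prod.mk_eq_zero]
      constructor
      · rintro ⟨h1, h2⟩
        rw [h1, h2]
        exact ⟨fun P => by ring, by ring⟩
      · rintro ⟨h1, h2⟩
        have h3 := h1 (mkP b hb)
        have h4 : ((Fintype.card (Ln q V) : k) - 1) * z.2 = 0 := by linear_combination h2 - h3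
        have h5 := (mul_eq_zero.1 h4).resolve_left (sub_ne_zero.2 hL)
        rw [h5] at h3
        refine ⟨?_, h5⟩
        linear_combination h3
    have h := LinearMap.finrank_range_add_finrank_ker φ
    rw [hsurj, hker, finrank_top, Module.finrank_prod, Module.finrank_prod, Module.finrank_self,
      Module.finrank_fintype_fun_eq_card] at h
    omega
  have hR' : finrank k (perp (W0L k q V) ⊓ W0L k q V : Submodule k (Ln q V → k)) + 2 =
      Fintype.card (Pt q V) := by
    have : (perp (W0L k q V) ⊓ LinearMap.range (TL k q V)) = perp (W0L k q V) ⊓ W0L k q V := rfl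
    rw [this] at hR
    omega
  obtain ⟨M', i1, i2, ρ', h1, h2, h3⟩ := exists_irreducible_of_key (G := V ≃ₗ[ZMod q] V)
    (W0L k q V) invt_W0L (key_lines ζ hζ hqk hn hq5) (by rw [hPerp]; omega)
  refine ⟨M', i1, i2, ρ', h1, h2, ?_⟩
  rw [h3, hPerp]
  omega

end

end Pool.Agent.Helper255.PPart
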