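import Pool.Agent.Helper255.PPart.LinesNum

/-!
Irreducible representations of `GL_{2(p-2)}(q)` with degree of large `p`-part, for `p ≥ 5`.
-/

namespace Pool.Agent.Helper255.PPart

open Module Polynomial

attribute [local instance 10] Fintype.ofFinite

noncomputable section

universe u

/-- The polynomial `1 + X^2 + ... + X^{2(m-1)} - 2X`. -/
def PolyB (m : ℕ) : ℤ[X] := ∑ i ∈ Finset.range m, X ^ (2 * i) - 2 * X

theorem PolyB_eval (m : ℕ) (x : ℤ) :
    (PolyB m).eval x = ∑ i ∈ Finset.range m, x ^ (2 * i) - 2 * x := by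
  simp [PolyB, eval_finsetSum]

theorem PolyB_eval_neg_one (m : ℕ) : (PolyB m).eval (-1) = m + 2 := by
  rw [PolyB_eval]
  simp [pow_mul]

theorem PolyB_derivative (m : ℕ) : (PolyB m).derivative.eval (-1) = -((m : ℤ) * (m - 1)) - 2 := by
  have h1 : (PolyB m).derivative.eval (-1) =
      ∑ i ∈ Finset.range m, ((2 * i : ℕ) : ℤ) * (-1) ^ (2 * i - 1) - 2 := by
    simp [PolyB, eval_finsetSum, derivative_X_pow]
  have h2 : ∀ i : ℕ, ((2 * i : ℕ) : ℤ) * (-1) ^ (2 * i - 1) = -(2 * (i : ℤ)) := by
    intro i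
    rcases i with _ | i
    · simp
    · have h3 : 2 * (i + 1) - 1 = 2 * i + 1 := by omega
      rw [h3, pow_succ, pow_mul]
      push_cast
      simp
  rw [h1, Finset.sum_congr rfl fun i _ => h2 i]
  congr 1
  induction m with
  | zero => simp
  | succ m ih =>
    rw [Finset.sum_range_succ, ih]
    · push_cast
      ring
    · simp [PolyB, eval_finsetSum, derivative_X_pow]

theorem sum_range_two_mul (q m : ℕ) :
    ∑ i ∈ Finset.range (2 * m), q ^ i = (∑ i ∈ Finset.range m, q ^ (2 * i)) * (1 + q) := by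
  induction m with
  | zero => simp
  | succ m ih =>
    rw [Nat.mul_succ, Finset.sum_range_succ, Finset.sum_range_succ, ih, Finset.sum_range_succ]
    ring

theorem lines_big (p : ℕ) [hpf : Fact p.Prime] (hp5 : 5 ≤ p) (k : Type u) [Field k]
    [IsAlgClosed k] [CharP k p] (N : ℕ) :
    ∃ (G : Type) (_ : Group G) (_ : Finite G) (M : Type u) (_ : AddCommGroup M) (_ : Module k M)
      (ρ : Representation k G M), FiniteDimensional k M ∧ ρ.IsIrreducible ∧
        padicValNat p (Nat.card G) = p - 2 ∧ 0 < finrank k M ∧ p ^ N ∣ finrank k M := by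
  have hp : p.Prime := hpf.out
  have hpi : Prime (p : ℤ) := Nat.prime_iff_prime_int.1 hp
  obtain ⟨m, hm⟩ : ∃ m, p = m + 2 := ⟨p - 2, by omega⟩
  have hm3 : 3 ≤ m := by omega
  have hd : ¬ (p : ℤ) ∣ (PolyB m).derivative.eval (-1) := by
    rw [PolyB_derivative]
    intro h
    have h8 : (p : ℤ) ∣ 8 := by
      have e : (8 : ℤ) = -(-((m : ℤ) * (m - 1)) - 2) - (p : ℤ) * (p - 5) := by
        rw [hm]; push_cast; ring
      rw [e]
      exact dvd_sub ((dvd_neg).2 h) (dvd_mul_right _ _)
    have h8' : p ∣ 2 ^ 3 := by exact_mod_cast h8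
    have := (Nat.prime_dvd_prime_iff_eq hp Nat.prime_two).1 (hp.dvd_of_dvd_pow h8')
    omega
  obtain ⟨q, hq, hqB, hqa, hqN⟩ := exists_prime_near_root (PolyB m) p hp (-1)
    (by rw [PolyB_eval_neg_one, hm]; push_cast; exact dvd_refl _) hd
    (by
      rw [dvd_neg]
      exact hpi.not_dvd_one) (N + 2) p (by omega)
  have hqa' : (p : ℤ) ∣ (q : ℤ) + 1 := by simpa using hqa
  have hfq : Fact q.Prime := ⟨hq⟩
  have hpq : p ≠ q := by omega
  have hqk : (q : k) ≠ 0 := natCast_ne_zero_of_prime hp hq hpq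
  obtain ⟨ζ, hζ⟩ := exists_zeta q k hqk
  have hpk : (p : k) = 0 := CharP.cast_eq_zero k p
  have hqm1 : (q : k) = -1 := by
    have h : ((q + 1 : ℕ) : k) = 0 := by
      rw [CharP.cast_eq_zero_iff k p]
      exact_mod_cast hqa'
    push_cast at h
    exact eq_neg_of_add_eq_zero_left h
  set n := 2 * m with hn
  set T : ℕ := ∑ i ∈ Finset.range m, q ^ (2 * i) with hT
  set r : ℕ := ∑ i ∈ Finset.range (n - 1), q ^ i with hr
  have hfr : finrank (ZMod q) (Fin n → ZMod q) = n := Module.finrank_fin_fun (ZMod q)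
  have hcP : Fintype.card (Pt q (Fin n → ZMod q)) = T * (1 + q) := by
    rw [card_Pt, hfr, hn, sum_range_two_mul]
  have hcP' : Fintype.card (Pt q (Fin n → ZMod q)) = 1 + q * r := by
    rw [card_Pt, hfr, hr]
    obtain ⟨n', hn'⟩ : ∃ n', n = n' + 1 := ⟨n - 1, by omega⟩
    rw [hn', Nat.add_sub_cancel, Finset.sum_range_succ', Finset.mul_sum]
    simp only [pow_succ, pow_zero]
    rw [add_comm]
    congr 1
    exact Finset.sum_congr rfl fun i _ => mul_comm _ _
  have hcL : Fintype.card (Ln q (Fin n → ZMod q)) = T * r := by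
    have h := card_Ln_mul (q := q) (V := Fin n → ZMod q)
    rw [hcP, hfr, ← hr] at h
    have h2 : Fintype.card (Ln q (Fin n → ZMod q)) * (q + 1) = (T * r) * (q + 1) := by
      rw [h]; ring
    exact Nat.eq_of_mul_eq_mul_right (by omega) h2
  have hrk : (r : k) = 1 := by
    have h : ((1 + q * r : ℕ) : k) = ((T * (1 + q) : ℕ) : k) := by rw [← hcP', hcP]
    push_cast at h
    rw [hqm1] at h
    linear_combination -h
  have hTk : (T : k) = -2 := by
    rw [hT]
    push_cast
    rw [hqm1]
    simp only [pow_mul, neg_one_sq, one_pow, Finset.sum_const, Finset.card_range, nsmul_eq_mul,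
      mul_one]
    have h : ((m + 2 : ℕ) : k) = 0 := by rw [← hm]; exact hpk
    push_cast at h
    linear_combination h
  have hL1 : (Fintype.card (Ln q (Fin n → ZMod q)) : k) ≠ 1 := by
    rw [hcL]
    push_cast
    rw [hrk, hTk]
    intro h
    have h3 : ((3 : ℕ) : k) = 0 := by
      push_cast
      linear_combination -h
    rw [CharP.cast_eq_zero_iff k p, Nat.prime_dvd_prime_iff_eq hp Nat.prime_three] at h3
    omega
  have hTq : 2 * q < T := by
    have h1 : q ^ (2 * 2) ≤ T := by
      rw [hT]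
      exact Finset.single_le_sum (f := fun i => q ^ (2 * i)) (fun i _ => Nat.zero_le _)
        (Finset.mem_range.2 (by omega))
    have h2 : 2 * q < q ^ 4 := by
      have : 5 < q := by omega
      have h3 : q ^ 4 = q * q ^ 3 := by ring
      have h4 : 2 < q ^ 3 := lt_of_lt_of_le (by omega : 2 < q) (Nat.le_self_pow (by norm_num) q)
      rw [h3, mul_comm]
      exact Nat.mul_lt_mul_of_pos_left h4 (by omega)
    exact lt_of_lt_of_le h2 h1
  have hrpos : 0 < r := by
    rw [hr]
    refine Finset.sum_pos (fun i _ => pow_pos hq.pos i) ⟨0, Finset.mem_range.2 (by omega)⟩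
  have hlt : 2 * Fintype.card (Pt q (Fin n → ZMod q)) <
      Fintype.card (Ln q (Fin n → ZMod q)) + 2 := by
    rw [hcP', hcL]
    have := Nat.mul_lt_mul_of_pos_right hTq hrpos
    have e : 2 * (1 + q * r) = 2 * q * r + 2 := by ring
    rw [e]
    omega
  obtain ⟨M, i1, i2, ρ, h1, h2, h3⟩ := exists_irr_lines_B (V := Fin n → ZMod q) ζ hζ hqk
    (by rw [hfr]; omega) (by omega) (by rw [hfr]; exact hrk) hL1 hlt
  have hdim : (finrank k M : ℤ) = (PolyB m).eval (q : ℤ) * r := by
    have h4 : (finrank k M : ℤ) + 2 * (1 + q * r) = T * r + 2 := by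
      rw [hcP', hcL] at h3
      exact_mod_cast h3
    rw [PolyB_eval]
    have h5 : (T : ℤ) = ∑ i ∈ Finset.range m, (q : ℤ) ^ (2 * i) := by
      rw [hT]; push_cast; rfl
    rw [← h5]
    linear_combination h4
  refine ⟨(Fin n → ZMod q) ≃ₗ[ZMod q] (Fin n → ZMod q), inferInstance, inferInstance, M, i1, i2,
    ρ, h1, h2, ?_, ?_, ?_⟩
  · rw [padicValNat_card_aut p q hpq n]
    have hpn2 : ¬ (p : ℤ) ∣ 2 := by
      intro h
      have h' : p ∣ 2 := by exact_mod_cast h
      have := Nat.le_of_dvd (by norm_num) h'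
      omega
    have hodd : ∀ j : ℕ, padicValNat p (q ^ (2 * j + 1) - 1) = 0 := by
      intro j
      apply padicValNat.eq_zero_of_not_dvd
      intro h
      have h4 : (p : ℤ) ∣ (q : ℤ) ^ (2 * j + 1) - 1 := by
        have h5 : ((q ^ (2 * j + 1) - 1 : ℕ) : ℤ) = (q : ℤ) ^ (2 * j + 1) - 1 := by
          rw [Nat.cast_sub (Nat.one_le_pow _ _ hq.pos)]
          push_cast
          ring
        rw [← h5]
        exact_mod_cast h
      have h6 : (q : ℤ) + 1 ∣ (q : ℤ) ^ (2 * j + 1) + 1 := by
        have := Odd.add_dvd_pow_add_pow (q : ℤ) 1 (n := 2 * j + 1) ⟨j, rfl⟩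
        simpa using this
      have h7 := dvd_sub (hqa'.trans h6) h4
      apply hpn2
      have e : (q : ℤ) ^ (2 * j + 1) + 1 - ((q : ℤ) ^ (2 * j + 1) - 1) = 2 := by ring
      rwa [e] at h7
    have hsq : padicValNat p (q ^ 2 - 1) = 1 := by
      have hq2 : 1 < q ^ 2 := Nat.one_lt_pow (by norm_num) hq.one_lt
      have hcast : ((q ^ 2 - 1 : ℕ) : ℤ) = ((q : ℤ) + 1) * ((q : ℤ) - 1) := by
        rw [Nat.cast_sub hq2.le]
        push_cast
        ring
      apply padicValNat_eq_of
      · omega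
      · rw [pow_one]
        have : (p : ℤ) ∣ ((q ^ 2 - 1 : ℕ) : ℤ) := by
          rw [hcast]
          exact Dvd.dvd.mul_right hqa' _
        exact_mod_cast this
      · intro h
        have h4 : (p : ℤ) ^ 2 ∣ ((q : ℤ) + 1) * ((q : ℤ) - 1) := by
          rw [← hcast]
          exact_mod_cast h
        have h5 : ¬ (p : ℤ) ∣ (q : ℤ) - 1 := by
          intro h5
          apply hpn2
          have e : (2 : ℤ) = ((q : ℤ) + 1) - ((q : ℤ) - 1) := by ring
          rw [e]
          exact dvd_sub hqa' h5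
        have h6 : (p : ℤ) ^ 2 ∣ (q : ℤ) + 1 := by
          refine (IsCoprime.dvd_of_dvd_mul_right ?_ h4)
          exact IsCoprime.pow_left ((Prime.coprime_iff_not_dvd hpi).2 h5)
        have h7 : (p : ℤ) ^ 2 ∣ (PolyB m).eval (q : ℤ) - (PolyB m).eval (-1) := by
          refine dvd_trans ?_ (Polynomial.sub_dvd_eval_sub (q : ℤ) (-1) (PolyB m))
          simpa using h6
        have h8 : (p : ℤ) ^ 2 ∣ (PolyB m).eval (q : ℤ) :=
          (pow_dvd_pow (p : ℤ) (by omega)).trans hqN
        have h9 := dvd_sub h8 h7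
        rw [sub_sub_cancel, PolyB_eval_neg_one] at h9
        have h10 : (p : ℤ) ^ 2 ∣ (p : ℤ) := by
          have e : (m : ℤ) + 2 = p := by rw [hm]; push_cast; ring
          rwa [e] at h9
        have h11 : p ^ 2 ∣ p := by exact_mod_cast h10
        have h12 := Nat.le_of_dvd hp.pos h11
        nlinarith
    have hev : ∀ j : ℕ, j + 1 ≤ m → padicValNat p (q ^ (2 * j + 2) - 1) = 1 := by
      intro j hj
      have hq2 : 1 < q ^ 2 := Nat.one_lt_pow (by norm_num) hq.one_lt
      have h4 := padicValNat.pow_sub_pow (p := p) (x := q ^ 2) (y := 1)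
        (hp.odd_of_ne_two (by omega)) hq2
        (by
          have h5 : 1 ≤ padicValNat p (q ^ 2 - 1) := by rw [hsq]
          have := (padicValNat_dvd_iff_le (p := p) (a := q ^ 2 - 1) (by omega)).2 h5
          simpa using this)
        (by
          intro h
          have := hp.dvd_of_dvd_pow h
          rw [Nat.prime_dvd_prime_iff_eq hp hq] at this
          exact hpq this) (n := j + 1) (by omega)
      rw [hsq, one_pow, padicValNat.eq_zero_of_not_dvd (n := j + 1)
        (fun h => by have := Nat.le_of_dvd (by omega) h; omega), ← pow_mul] at h4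
      rw [show 2 * j + 2 = 2 * (j + 1) by ring]
      exact h4
    have hsum : ∀ j : ℕ, j ≤ m → ∑ i ∈ Finset.range (2 * j), padicValNat p (q ^ (i + 1) - 1) = j := by
      intro j
      induction j with
      | zero => intro _; simp
      | succ j ih =>
        intro hj
        rw [Nat.mul_succ, Finset.sum_range_succ, Finset.sum_range_succ, ih (by omega), hodd,
          hev j (by omega)]
    rw [hn, hsum m le_rfl]
    omega
  · rw [hcP', hcL] at *
    omega
  · have h5 : (p : ℤ) ^ N ∣ (finrank k M : ℤ) := by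
      rw [hdim]
      exact Dvd.dvd.mul_right ((pow_dvd_pow (p : ℤ) (by omega)).trans hqN) _
    exact_mod_cast h5

end

end Pool.Agent.Helper255.PPart
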